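import Pool.Agent.Helper68.OP.Base

/-!
# Project OP, module A1: the groups `PD`, `PDp`
-/

namespace SB

universe u v

variable {Γ : Type u} [Group Γ]

namespace OPA1

theorem exzm (U : Subgroup Γ) (f : U → ℂ) {g : Γ} (h : g ∈ U) : exz U f g = f ⟨g, h⟩ := by
  unfold exz
  rw [dif_pos h]

theorem exznm (U : Subgroup Γ) (f : U → ℂ) {g : Γ} (h : g ∉ U) : exz U f g = 0 := by
  unfold exz
  rw [dif_neg h]

theorem exz_eq_ext (U : Subgroup Γ) (χ : U →* ℂˣ) {e : ℕ} (ψ : Rp U e)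
    (h : ∀ g, chr ψ g = ((χ g : ℂˣ) : ℂ)) : exz U (chr ψ) = ext U χ := by
  funext g
  by_cases hg : g ∈ U
  · rw [exzm U _ hg, ext_mem χ hg, h]
  · rw [exznm U _ hg, ext_not_mem χ hg]

/-- the twist of a matrix representation by a linear character -/
theorem exists_twist {G : Type*} [Group G] (χ : G →* ℂˣ) {e : ℕ} (ψ : Rp G e) :
    ∃ ψ' : Rp G e, (∀ g, chr ψ' g = ((χ g : ℂˣ) : ℂ) * chr ψ g) ∧
      ∀ g, χ g = 1 → ψ g = 1 → ψ' g = 1 := by
  let τ : G →* ((Fin e → ℂ) →ₗ[ℂ] (Fin e → ℂ)) :=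
    { toFun := fun g => ((χ g : ℂˣ) : ℂ) • Matrix.toLin' ((ψ g : Matrix.GeneralLinearGroup (Fin e) ℂ) :
        Matrix (Fin e) (Fin e) ℂ)
      map_one' := by
        rw [map_one, map_one, Units.val_one, Units.val_one, one_smul, Matrix.toLin'_one]
        rfl
      map_mul' := fun a b => by
        rw [map_mul, map_mul, Units.val_mul, Units.val_mul, Matrix.toLin'_mul]
        apply LinearMap.ext
        intro x
        change (((χ a : ℂˣ) : ℂ) * ((χ b : ℂˣ) : ℂ)) • (Matrix.toLin' _ (Matrix.toLin' _ x)) =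
          ((χ a : ℂˣ) : ℂ) • (Matrix.toLin' _ (((χ b : ℂˣ) : ℂ) • Matrix.toLin' _ x))
        rw [map_smul, smul_smul] }
  obtain ⟨ψ', h1, h2⟩ := exists_rp τ (Module.finrank_fin_fun ℂ)
  refine ⟨ψ', fun g => ?_, fun g hg hg' => h2 g ?_⟩
  · rw [h1]
    change LinearMap.trace ℂ (Fin e → ℂ) (((χ g : ℂˣ) : ℂ) • Matrix.toLin' _) = _
    rw [map_smul, Matrix.trace_toLin'_eq, smul_eq_mul]
    rfl
  · change ((χ g : ℂˣ) : ℂ) • Matrix.toLin' _ = _
    rw [hg, hg', Units.val_one, Units.val_one, one_smul, Matrix.toLin'_one]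
    rfl

end OPA1

open OPA1

/-- OP-A1. -/
theorem pd_of_fam (D : Sys Γ) {v : Γ → ℂ} (h : Fam D (fun U => D.S ⊆ U) v) : v ∈ PD D := by
  obtain ⟨m, n, U, χ, χ', hU, h1, h2, hs, hv⟩ := h
  have hgen : ∀ i, Ind (U i) (ext (U i) (χ i)) - Ind (U i) (ext (U i) (χ' i)) ∈ PD D := by
    intro i
    obtain ⟨ψ, a1, a2⟩ := exists_rp_one (χ i)
    obtain ⟨ψ', b1, b2⟩ := exists_rp_one (χ' i)
    obtain ⟨M, hM, hMU, hM1⟩ := h1 i
    obtain ⟨M', hM', hMU', hM1'⟩ := h2 i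
    apply AddSubgroup.subset_closure
    refine ⟨U i, 1, ψ, ψ', ⟨hU i, ⟨M ⊓ M', D.inf _ hM _ hM', inf_le_left.trans hMU, ?_⟩,
      Or.inl rfl, ?_⟩, ?_⟩
    · intro g hg hgM
      exact ⟨a2 _ (hM1 g hg hgM.1), b2 _ (hM1' g hg hgM.2)⟩
    · intro s hsU hsS
      rw [a1, b1, hs i s hsU hsS]
    · rw [exz_eq_ext _ _ ψ a1, exz_eq_ext _ _ ψ' b1]
  have hv' : v = ∑ i, (n i) • (Ind (U i) (ext (U i) (χ i)) - Ind (U i) (ext (U i) (χ' i))) := by
    funext g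
    rw [hv g, Finset.sum_apply]
    refine Finset.sum_congr rfl fun i _ => ?_
    rw [Pi.smul_apply, zsmul_eq_mul, Pi.sub_apply]
  rw [hv']
  exact AddSubgroup.sum_mem _ fun i _ => AddSubgroup.zsmul_mem _ (hgen i) _

/-- OP-A2. -/
theorem pd_twist (D : Sys Γ) {θ : Γ →* ℂˣ} (hθ : ∃ M ∈ D.N, ∀ g ∈ M, θ g = 1) {v : Γ → ℂ} (h : v ∈ PD D) :
    (fun g => ((θ g : ℂˣ) : ℂ) * v g) ∈ PD D := by
  obtain ⟨Mθ, hMθ, hθ1⟩ := hθ
  unfold PD at h
  induction h using AddSubgroup.closure_induction with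
  | mem v hv =>
    obtain ⟨U, e, ψ, ψ', ⟨hU, ⟨M, hM, hMU, hM1⟩, hcase, hs⟩, rfl⟩ := hv
    obtain ⟨φ, a1, a2⟩ := exists_twist (resc U θ) ψ
    obtain ⟨φ', b1, b2⟩ := exists_twist (resc U θ) ψ'
    have key : ∀ (f f' : U → ℂ), (∀ u, f' u = ((resc U θ u : ℂˣ) : ℂ) * f u) → ∀ g,
        Ind U (exz U f') g = ((θ g : ℂˣ) : ℂ) * Ind U (exz U f) g := by
      intro f f' hf g
      unfold Ind
      rw [← smul_eq_mul, smul_finsum]
      refine finsum_congr fun q => ?_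
      rw [smul_eq_mul]
      by_cases hq : q.out⁻¹ * g * q.out ∈ U
      · rw [exzm U _ hq, exzm U _ hq, hf]
        congr 1
        show ((θ (q.out⁻¹ * g * q.out) : ℂˣ) : ℂ) = _
        congr 1
        rw [map_mul, map_mul, map_inv, mul_comm, mul_inv_cancel_left]
      · rw [exznm U _ hq, exznm U _ hq, mul_zero]
    apply AddSubgroup.subset_closure
    refine ⟨U, e, φ, φ', ⟨hU, ⟨M ⊓ Mθ, D.inf _ hM _ hMθ, inf_le_left.trans hMU, ?_⟩, ?_, ?_⟩, ?_⟩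
    · intro g hg hgM
      obtain ⟨c1, c2⟩ := hM1 g hg hgM.1
      exact ⟨a2 _ (hθ1 g hgM.2) c1, b2 _ (hθ1 g hgM.2) c2⟩
    · rcases hcase with h1 | ⟨h1, h2⟩
      · exact Or.inl h1
      · refine Or.inr ⟨h1, fun s hsU hsS => ?_⟩
        rw [a1, h2 s hsU hsS, mul_zero]
    · intro s hsU hsS
      rw [a1, b1, hs s hsU hsS]
    · funext g
      rw [Pi.sub_apply, Pi.sub_apply, key _ _ a1 g, key _ _ b1 g, mul_sub]
  | zero =>
    have : (fun g => ((θ g : ℂˣ) : ℂ) * (0 : Γ → ℂ) g) = 0 := by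
      funext g
      rw [Pi.zero_apply, mul_zero]
    rw [this]
    exact (PD D).zero_mem
  | add v w _ _ hv hw =>
    have : (fun g => ((θ g : ℂˣ) : ℂ) * (v + w) g) =
        (fun g => ((θ g : ℂˣ) : ℂ) * v g) + fun g => ((θ g : ℂˣ) : ℂ) * w g := by
      funext g
      rw [Pi.add_apply, Pi.add_apply, mul_add]
    rw [this]
    exact (PD D).add_mem hv hw
  | neg v _ hv =>
    have : (fun g => ((θ g : ℂˣ) : ℂ) * (-v) g) = -fun g => ((θ g : ℂˣ) : ℂ) * v g := by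
      funext g
      rw [Pi.neg_apply, Pi.neg_apply, mul_neg]
    rw [this]
    exact (PD D).neg_mem hv

/-- OP-A3. -/
theorem pd_zero_at (D : Sys Γ) {v : Γ → ℂ} (h : v ∈ PD D) : v 1 = 0 ∧ ∀ s ∈ D.S, v s = 0 := by
  unfold PD at h
  induction h using AddSubgroup.closure_induction with
  | mem v hv =>
    obtain ⟨U, e, ψ, ψ', ⟨hU, -, -, hs⟩, rfl⟩ := hv
    have h1 : ∀ φ : Rp U e, chr φ 1 = e := by
      intro φ
      unfold chr
      rw [map_one, Units.val_one, Matrix.trace_one, Fintype.card_fin]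
    refine ⟨?_, fun s hsS => ?_⟩
    · rw [Pi.sub_apply, sub_eq_zero]
      unfold Ind
      refine finsum_congr fun q => ?_
      rw [mul_one, inv_mul_cancel, exzm U _ U.one_mem, exzm U _ U.one_mem]
      exact (h1 ψ).trans (h1 ψ').symm
    · rw [Pi.sub_apply, sub_eq_zero]
      unfold Ind
      refine finsum_congr fun q => ?_
      have h2 : q.out⁻¹ * s * q.out ∈ D.S := by
        have := D.conj s hsS q.out⁻¹
        rwa [inv_inv] at this
      rw [exzm U _ (hU h2), exzm U _ (hU h2)]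
      exact hs _ (hU h2) h2
  | zero => exact ⟨rfl, fun _ _ => rfl⟩
  | add v w _ _ hv hw =>
    refine ⟨?_, fun s hs => ?_⟩
    · rw [Pi.add_apply, hv.1, hw.1, add_zero]
    · rw [Pi.add_apply, hv.2 s hs, hw.2 s hs, add_zero]
  | neg v _ hv =>
    refine ⟨?_, fun s hs => ?_⟩
    · rw [Pi.neg_apply, hv.1, neg_zero]
    · rw [Pi.neg_apply, hv.2 s hs, neg_zero]

/-- OP-A4. -/
theorem mem_pdp (D : Sys Γ) (θ : Γ →* ℂˣ) {v : Γ → ℂ} :
    v ∈ PDp D θ ↔ ∃ a b : ℤ, (fun g => v g - a - b * ((θ g : ℂˣ) : ℂ)) ∈ PD D := by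
  unfold PDp
  rw [AddSubgroup.mem_sup]
  constructor
  · rintro ⟨y, hy, z, hz, rfl⟩
    rw [AddSubgroup.mem_closure_pair] at hz
    obtain ⟨a, b, rfl⟩ := hz
    refine ⟨a, b, ?_⟩
    have : (fun g => (y + (a • (fun _ : Γ => (1 : ℂ)) + b • fun g => ((θ g : ℂˣ) : ℂ))) g - a -
        b * ((θ g : ℂˣ) : ℂ)) = y := by
      funext g
      rw [Pi.add_apply, Pi.add_apply, Pi.smul_apply, Pi.smul_apply, zsmul_eq_mul, zsmul_eq_mul]
      ring
    rw [this]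
    exact hy
  · rintro ⟨a, b, h⟩
    refine ⟨_, h, a • (fun _ : Γ => (1 : ℂ)) + b • (fun g => ((θ g : ℂˣ) : ℂ)), ?_, ?_⟩
    · rw [AddSubgroup.mem_closure_pair]
      exact ⟨a, b, rfl⟩
    · funext g
      rw [Pi.add_apply, Pi.add_apply, Pi.smul_apply, Pi.smul_apply, zsmul_eq_mul, zsmul_eq_mul]
      ring

end SB
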