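import Pool.Agent.Helper68.OP.Base
import Pool.Agent.Helper68.OP.A1

/-!
# Project OP, module A2
-/

namespace SB

universe u v

variable {Γ : Type u} [Group Γ]

/-- OP-A5. -/
theorem pdp_ind_one (D : Sys Γ) (hup : ∀ M ∈ D.N, ∀ M' : Subgroup Γ, M'.Normal → M ≤ M' → M' ∈ D.N)
    {θ : Γ →* ℂˣ} (hθ : Sgn D θ) {M U : Subgroup Γ} (hM : M ∈ D.N) (hMU : M ≤ U) (hS : D.S ⊆ U) :
    Ind U (ext U 1) ∈ PDp D θ ∧ Ind U (ext U (resc U θ)) ∈ PDp D θ := by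
  have h1 := pd_of_fam D (ind_one_fam D hup hM hMU hS)
  have h2 := pd_twist D hθ.1 h1
  constructor
  · refine (mem_pdp D θ).2 ⟨(U.index : ℤ), 0, ?_⟩
    refine (congrArg (· ∈ PD D) (funext fun g => ?_)).mp h1
    push_cast
    ring
  · refine (mem_pdp D θ).2 ⟨0, (U.index : ℤ), ?_⟩
    refine (congrArg (· ∈ PD D) (funext fun g => ?_)).mp h2
    rw [Ind_resc]
    push_cast
    ring

/-- OP-A6. -/
theorem pdp_plane (D : Sys Γ) (hup : ∀ M ∈ D.N, ∀ M' : Subgroup Γ, M'.Normal → M ≤ M' → M' ∈ D.N)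
    {θ : Γ →* ℂˣ} (hθ : Sgn D θ) {M U : Subgroup Γ} (hM : M ∈ D.N) (hMU : M ≤ U) (hS : D.S ⊆ U)
    {X : Type v} [AddCommGroup X] [Module ℂ X] [FiniteDimensional ℂ X] (τ : U →* (X →ₗ[ℂ] X))
    (hτ : ∀ g (h : g ∈ U), g ∈ M → τ ⟨g, h⟩ = 1) (hd : Module.finrank ℂ X = 2)
    (h0 : ∀ s (h : s ∈ U), s ∈ D.S → LinearMap.trace ℂ X (τ ⟨s, h⟩) = 0) :
    Ind U (exz U fun u => LinearMap.trace ℂ X (τ u)) ∈ PDp D θ := by
  have hfin : U.FiniteIndex := fin_of_N D hM hMU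
  obtain ⟨ψ, hψ1, hψ2⟩ := exists_rp τ hd
  obtain ⟨ψ', hψ1', hψ2'⟩ := exists_rp_two (1 : U →* ℂˣ) (resc U θ)
  obtain ⟨Mθ, hMθ, hθM⟩ := hθ.1
  have hpair : PPair D U 2 ψ ψ' := by
    refine ⟨hS, ⟨M ⊓ Mθ, D.inf _ hM _ hMθ, inf_le_left.trans hMU, fun g h hg => ?_⟩,
      Or.inr ⟨rfl, fun s h hs => ?_⟩, fun s h hs => ?_⟩
    · exact ⟨hψ2 _ (hτ g h hg.1), hψ2' _ rfl (hθM g hg.2)⟩
    · rw [hψ1]
      exact h0 s h hs
    · have e : resc U θ ⟨s, h⟩ = -1 := hθ.2 s hs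
      rw [hψ1, h0 s h hs, hψ1', e]
      simp
  have h1 : Ind U (exz U (chr ψ)) - Ind U (exz U (chr ψ')) ∈ PDp D θ :=
    AddSubgroup.mem_sup_left (AddSubgroup.subset_closure ⟨U, 2, ψ, ψ', hpair, rfl⟩)
  obtain ⟨h2, h3⟩ := pdp_ind_one D hup hθ hM hMU hS
  have e1 : exz U (chr ψ') = ext U 1 + ext U (resc U θ) := by
    funext g
    rw [Pi.add_apply]
    by_cases h : g ∈ U
    · rw [ext_mem _ h, ext_mem _ h]
      unfold exz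
      rw [dif_pos h, hψ1']
    · rw [ext_not_mem _ h, ext_not_mem _ h]
      unfold exz
      rw [dif_neg h, add_zero]
  have e2 : Ind U (exz U (chr ψ')) = Ind U (ext U 1) + Ind U (ext U (resc U θ)) := by
    rw [e1]
    funext g
    exact Ind_add_A2 hfin _ _ g
  have e3 : (fun u : U => LinearMap.trace ℂ X (τ u)) = chr ψ := funext fun u => (hψ1 u).symm
  rw [e3]
  have h4 := (PDp D θ).add_mem h1 ((PDp D θ).add_mem h2 h3)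
  rw [← e2, sub_add_cancel] at h4
  exact h4

private theorem pd_of_fintype (D : Sys Γ) {v : Γ → ℂ} {ι : Type} [Fintype ι] {M : Subgroup Γ} (hM : M ∈ D.N)
    (n : ι → ℤ) (U : ι → Subgroup Γ) (e : ι → ℕ) (ψ ψ' : ∀ i, Rp (U i) (e i))
    (h : ∀ i, M ≤ U i ∧ PPair D (U i) (e i) (ψ i) (ψ' i) ∧
        ∀ g (h : g ∈ U i), g ∈ M → ψ i ⟨g, h⟩ = 1 ∧ ψ' i ⟨g, h⟩ = 1)
    (hv : ∀ g, v g = ∑ i, (n i : ℂ) * (Ind (U i) (exz (U i) (chr (ψ i))) g - Ind (U i) (exz (U i) (chr (ψ' i))) g)) :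
    ∃ M ∈ D.N, ∃ (m : ℕ) (n : Fin m → ℤ) (U : Fin m → Subgroup Γ) (e : Fin m → ℕ) (ψ ψ' : ∀ i, Rp (U i) (e i)),
      (∀ i, M ≤ U i ∧ PPair D (U i) (e i) (ψ i) (ψ' i) ∧
        ∀ g (h : g ∈ U i), g ∈ M → ψ i ⟨g, h⟩ = 1 ∧ ψ' i ⟨g, h⟩ = 1) ∧
      ∀ g, v g = ∑ i, (n i : ℂ) * (Ind (U i) (exz (U i) (chr (ψ i))) g - Ind (U i) (exz (U i) (chr (ψ' i))) g) := by
  refine ⟨M, hM, Fintype.card ι, fun i => n ((Fintype.equivFin ι).symm i),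
    fun i => U ((Fintype.equivFin ι).symm i), fun i => e ((Fintype.equivFin ι).symm i),
    fun i => ψ ((Fintype.equivFin ι).symm i), fun i => ψ' ((Fintype.equivFin ι).symm i), fun i => h _, fun g => ?_⟩
  rw [hv]
  exact (Equiv.sum_comp (Fintype.equivFin ι).symm (fun i => (n i : ℂ) *
      (Ind (U i) (exz (U i) (chr (ψ i))) g - Ind (U i) (exz (U i) (chr (ψ' i))) g))).symm

/-- OP-A7. -/
theorem pd_explicit (D : Sys Γ) (hne : D.N.Nonempty) {v : Γ → ℂ} (h : v ∈ PD D) :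
    ∃ M ∈ D.N, ∃ (m : ℕ) (n : Fin m → ℤ) (U : Fin m → Subgroup Γ) (e : Fin m → ℕ) (ψ ψ' : ∀ i, Rp (U i) (e i)),
      (∀ i, M ≤ U i ∧ PPair D (U i) (e i) (ψ i) (ψ' i) ∧
        ∀ g (h : g ∈ U i), g ∈ M → ψ i ⟨g, h⟩ = 1 ∧ ψ' i ⟨g, h⟩ = 1) ∧
      ∀ g, v g = ∑ i, (n i : ℂ) * (Ind (U i) (exz (U i) (chr (ψ i))) g - Ind (U i) (exz (U i) (chr (ψ' i))) g) := by
  unfold PD at h
  induction h using AddSubgroup.closure_induction with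
  | mem x hx =>
    obtain ⟨U, e, ψ, ψ', hp, rfl⟩ := hx
    obtain ⟨M, hM, hMU, hT⟩ := hp.2.1
    refine pd_of_fintype D (ι := Unit) hM (fun _ => 1) (fun _ => U) (fun _ => e) (fun _ => ψ) (fun _ => ψ')
      (fun _ => ⟨hMU, hp, hT⟩) fun g => ?_
    simp
  | zero =>
    obtain ⟨M, hM⟩ := hne
    exact pd_of_fintype D (ι := Empty) hM (fun i => i.elim) (fun i => i.elim) (fun i => i.elim)
      (fun i => i.elim) (fun i => i.elim) (fun i => i.elim) fun g => by simp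
  | add x y _ _ hx hy =>
    obtain ⟨M1, hM1, m1, n1, U1, e1, ψ1, ψ1', a1, b1⟩ := hx
    obtain ⟨M2, hM2, m2, n2, U2, e2, ψ2, ψ2', a2, b2⟩ := hy
    refine pd_of_fintype D (ι := Fin m1 ⊕ Fin m2) (D.inf _ hM1 _ hM2) (Sum.elim n1 n2) (Sum.elim U1 U2)
      (Sum.elim e1 e2) (fun i => Sum.rec (fun i => ψ1 i) (fun i => ψ2 i) i)
      (fun i => Sum.rec (fun i => ψ1' i) (fun i => ψ2' i) i) (fun i => ?_) fun g => ?_
    · rcases i with i | i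
      · exact ⟨inf_le_left.trans (a1 i).1, (a1 i).2.1, fun g h hg => (a1 i).2.2 g h hg.1⟩
      · exact ⟨inf_le_right.trans (a2 i).1, (a2 i).2.1, fun g h hg => (a2 i).2.2 g h hg.2⟩
    · rw [Fintype.sum_sum_type, Pi.add_apply, b1 g, b2 g]
      rfl
  | neg x _ hx =>
    obtain ⟨M1, hM1, m1, n1, U1, e1, ψ1, ψ1', a1, b1⟩ := hx
    refine ⟨M1, hM1, m1, fun i => -n1 i, U1, e1, ψ1, ψ1', a1, fun g => ?_⟩
    rw [Pi.neg_apply, b1 g, ← Finset.sum_neg_distrib]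
    refine Finset.sum_congr rfl fun i _ => ?_
    push_cast
    ring

end SB
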