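import Pool.Agent.Helper68.OP.Base

/-!
# Project OP, module B1: weight spaces and stable subspaces
-/

namespace SB

universe u v

variable {Γ : Type u} [Group Γ] {V : Type v} [AddCommGroup V] [Module ℂ V]

/-- OP-B1. -/
theorem wt_sup_stb (ρ : Γ →* (V →ₗ[ℂ] V)) {C : Subgroup Γ} (hC : C.Normal) :
    ∀ g, ∀ v ∈ (⨆ ε : C →* ℂˣ, Wt ρ C ε), ρ g v ∈ (⨆ ε : C →* ℂˣ, Wt ρ C ε) := by
  intro g v hv
  have h : (⨆ ε : C →* ℂˣ, Wt ρ C ε) ≤ (⨆ ε : C →* ℂˣ, Wt ρ C ε).comap (ρ g) := by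
    apply iSup_le
    intro ε v hv
    exact Submodule.mem_iSup_of_mem (cjh hC g ε) (wt_move ρ hC g ε v hv)
  exact h hv

/-- OP-B2. -/
theorem trace_compl [FiniteDimensional ℂ V] (ρ : Γ →* (V →ₗ[ℂ] V)) {X Z : Submodule ℂ V} (h : IsCompl X Z)
    (hX : ∀ g, ∀ v ∈ X, ρ g v ∈ X) (hZ : ∀ g, ∀ v ∈ Z, ρ g v ∈ Z) (g : Γ) :
    LinearMap.trace ℂ V (ρ g) = LinearMap.trace ℂ X (subR ρ X hX g) + LinearMap.trace ℂ Z (subR ρ Z hZ g) := by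
  let N : Bool → Submodule ℂ V := fun b => cond b X Z
  have hN : DirectSum.IsInternal N := by
    rw [DirectSum.isInternal_submodule_iff_isCompl N (i := true) (j := false) (by decide)
      (by ext b; cases b <;> simp)]
    exact h
  have hf : ∀ b, Set.MapsTo (ρ g) (N b) (N b) := by
    intro b
    cases b with
    | true => exact hX g
    | false => exact hZ g
  rw [LinearMap.trace_eq_sum_trace_restrict hN hf, Fintype.sum_bool]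
  rfl

theorem mem_wt_subR (ρ : Γ →* (V →ₗ[ℂ] V)) (C : Subgroup Γ) {X : Submodule ℂ V} (hX : ∀ g, ∀ v ∈ X, ρ g v ∈ X)
    (ε : C →* ℂˣ) (x : X) : x ∈ Wt (subR ρ X hX) C ε ↔ (x : V) ∈ Wt ρ C ε := by
  rw [mem_Wt, mem_Wt]
  apply forall_congr'
  intro c
  rw [Subtype.ext_iff, subR_apply, Submodule.coe_smul]

/-- OP-B3. -/
theorem wt_subR (ρ : Γ →* (V →ₗ[ℂ] V)) (C : Subgroup Γ) {X : Submodule ℂ V} (hX : ∀ g, ∀ v ∈ X, ρ g v ∈ X)
    (ε : C →* ℂˣ) : (Wt (subR ρ X hX) C ε).map X.subtype = Wt ρ C ε ⊓ X := by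
  ext v
  rw [Submodule.mem_map, Submodule.mem_inf]
  constructor
  · rintro ⟨x, hx, rfl⟩
    exact ⟨(mem_wt_subR ρ C hX ε x).1 hx, x.2⟩
  · rintro ⟨h1, h2⟩
    exact ⟨⟨v, h2⟩, (mem_wt_subR ρ C hX ε ⟨v, h2⟩).2 h1, rfl⟩

/-- OP-B4. -/
theorem wt_subR_top (ρ : Γ →* (V →ₗ[ℂ] V)) {C : Subgroup Γ}
    (hX : ∀ g, ∀ v ∈ (⨆ ε : C →* ℂˣ, Wt ρ C ε), ρ g v ∈ (⨆ ε : C →* ℂˣ, Wt ρ C ε)) :
    (⨆ ε : C →* ℂˣ, Wt (subR ρ _ hX) C ε) = ⊤ ∧
      ∀ ε : C →* ℂˣ, Module.finrank ℂ (Wt (subR ρ _ hX) C ε) = Module.finrank ℂ (Wt ρ C ε) := by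
  have h1 : ∀ ε : C →* ℂˣ, (Wt (subR ρ _ hX) C ε).map (⨆ ε : C →* ℂˣ, Wt ρ C ε).subtype = Wt ρ C ε := by
    intro ε
    rw [wt_subR]
    exact inf_eq_left.2 (le_iSup (fun ε : C →* ℂˣ => Wt ρ C ε) ε)
  constructor
  · apply Submodule.map_injective_of_injective (⨆ ε : C →* ℂˣ, Wt ρ C ε).injective_subtype
    rw [Submodule.map_iSup, Submodule.map_subtype_top]
    exact iSup_congr h1
  · intro ε
    have h2 := Submodule.finrank_map_subtype_eq (⨆ ε : C →* ℂˣ, Wt ρ C ε) (Wt (subR ρ _ hX) C ε)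
    rw [h1 ε] at h2
    exact h2.symm

/-- OP-B5. -/
theorem wt_subR_bot (ρ : Γ →* (V →ₗ[ℂ] V)) {C : Subgroup Γ} {Z : Submodule ℂ V}
    (h : Disjoint (⨆ ε : C →* ℂˣ, Wt ρ C ε) Z) (hZ : ∀ g, ∀ v ∈ Z, ρ g v ∈ Z) (ε : C →* ℂˣ) :
    Wt (subR ρ Z hZ) C ε = ⊥ := by
  rw [eq_bot_iff]
  intro x hx
  have h1 := (mem_wt_subR ρ C hZ ε x).1 hx
  have h2 : (x : V) ∈ (⨆ ε : C →* ℂˣ, Wt ρ C ε) ⊓ Z := ⟨Submodule.mem_iSup_of_mem ε h1, x.2⟩
  rw [h.eq_bot, Submodule.mem_bot] at h2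
  rw [Submodule.mem_bot]
  exact Subtype.ext h2

/-- OP-B6. A stable line is contained in a weight space. -/
theorem line_wt (ρ : Γ →* (V →ₗ[ℂ] V)) (C : Subgroup Γ) {X : Submodule ℂ V} (hX : Stb ρ C X)
    (h1 : Module.finrank ℂ X = 1) : ∃ ε : C →* ℂˣ, X ≤ Wt ρ C ε := by
  obtain ⟨x, hx0, hx⟩ := finrank_eq_one_iff'.1 h1
  have hx0' : (x : V) ≠ 0 := fun h => hx0 (Subtype.ext h)
  have h2 : ∀ c : C, ∃ a : ℂ, ρ c (x : V) = a • (x : V) := by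
    intro c
    obtain ⟨a, ha⟩ := hx ⟨ρ c x, hX c c.2 x x.2⟩
    exact ⟨a, by
      have := congrArg Subtype.val ha
      exact this.symm⟩
  choose a ha using h2
  have huniq : ∀ b b' : ℂ, b • (x : V) = b' • (x : V) → b = b' := fun b b' hb =>
    smul_left_injective ℂ hx0' hb
  let f : C →* ℂ :=
    { toFun := a
      map_one' := by
        apply huniq
        rw [← ha 1, OneMemClass.coe_one, map_one, one_smul]
        rfl
      map_mul' := fun c c' => by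
        apply huniq
        rw [← ha (c * c'), Subgroup.coe_mul, map_mul]
        change ρ c (ρ c' (x : V)) = _
        rw [ha c', map_smul, ha c, smul_smul, mul_comm] }
  refine ⟨f.toHomUnits, fun v hv c => ?_⟩
  obtain ⟨b, hb⟩ := hx ⟨v, hv⟩
  have hb' : b • (x : V) = v := congrArg Subtype.val hb
  rw [← hb', map_smul, ha c, MonoidHom.coe_toHomUnits, smul_comm]
  rfl

end SB
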