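import Pool.Agent.Helper21.CC.K
import Pool.Agent.Helper21.RB.Base

/-!
# Project OP: representations which are sums of scalars and odd planes on the complex conjugations, definitions
-/

namespace SB

universe u v

section
variable {Γ : Type u} [Group Γ]

/-- `θ` is a linear character with value `-1` on `S`, trivial on a member of `D.N`. -/
def Sgn (D : Sys Γ) (θ : Γ →* ℂˣ) : Prop := (∃ M ∈ D.N, ∀ g ∈ M, θ g = 1) ∧ ∀ s ∈ D.S, θ s = -1

/-- Representations `ψ, ψ'` of a subgroup `U ⊇ S` of degree `e`, trivial on a member of `D.N`, whose traces are equal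
on `S`; either `e = 1`, or `e = 2` and the traces are zero on `S`. -/
def PPair (D : Sys Γ) (U : Subgroup Γ) (e : ℕ) (ψ ψ' : Rp U e) : Prop :=
  D.S ⊆ U ∧ (∃ M ∈ D.N, M ≤ U ∧ ∀ g (h : g ∈ U), g ∈ M → ψ ⟨g, h⟩ = 1 ∧ ψ' ⟨g, h⟩ = 1) ∧
    (e = 1 ∨ (e = 2 ∧ ∀ s (h : s ∈ U), s ∈ D.S → chr ψ ⟨s, h⟩ = 0)) ∧
    ∀ s (h : s ∈ U), s ∈ D.S → chr ψ ⟨s, h⟩ = chr ψ' ⟨s, h⟩

/-- The group generated by the functions `Ind ψ - Ind ψ'`, for `ψ, ψ'` as in `PPair`. -/
def PD (D : Sys Γ) : AddSubgroup (Γ → ℂ) :=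
  AddSubgroup.closure {v | ∃ (U : Subgroup Γ) (e : ℕ) (ψ ψ' : Rp U e), PPair D U e ψ ψ' ∧
    v = Ind U (exz U (chr ψ)) - Ind U (exz U (chr ψ'))}

/-- The group generated by `PD D`, the constant `1` and `θ`. -/
def PDp (D : Sys Γ) (θ : Γ →* ℂˣ) : AddSubgroup (Γ → ℂ) :=
  PD D ⊔ AddSubgroup.closure {fun _ => 1, fun g => ((θ g : ℂˣ) : ℂ)}

/-- The restriction of a linear character to the group generated by `S`. -/
def thC (D : Sys Γ) (θ : Γ →* ℂˣ) : Subgroup.closure D.S →* ℂˣ := θ.comp (Subgroup.closure D.S).subtype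

theorem thC_apply (D : Sys Γ) (θ : Γ →* ℂˣ) (c : Subgroup.closure D.S) : thC D θ c = θ c := rfl

variable {V : Type v} [AddCommGroup V] [Module ℂ V]

/-- `Y` is stable under `S`, and either all elements of `S` act on `Y` as `1`, or all of them act as `-1`, or `Y` is
a plane on which all elements of `S` have trace zero. -/
def OddPiece (ρ : Γ →* (V →ₗ[ℂ] V)) (S : Set Γ) (Y : Submodule ℂ V) : Prop :=
  (∀ s ∈ S, ∀ v ∈ Y, ρ s v = v) ∨ (∀ s ∈ S, ∀ v ∈ Y, ρ s v = -v) ∨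
    (Module.finrank ℂ Y = 2 ∧ ∀ s ∈ S, ∃ h : ∀ v ∈ Y, ρ s v ∈ Y, LinearMap.trace ℂ Y ((ρ s).restrict h) = 0)

/-- The subspace `Y` is a direct sum of subspaces as in `OddPiece`. -/
def OddSum (ρ : Γ →* (V →ₗ[ℂ] V)) (S : Set Γ) (Y : Submodule ℂ V) : Prop :=
  ∃ (m : ℕ) (X : Fin m → Submodule ℂ V), iSupIndep X ∧ ⨆ i, X i = Y ∧ ∀ i, OddPiece ρ S (X i)

theorem OddPiece.stable {ρ : Γ →* (V →ₗ[ℂ] V)} {S : Set Γ} {Y : Submodule ℂ V} (h : OddPiece ρ S Y) :
    ∀ s ∈ S, ∀ v ∈ Y, ρ s v ∈ Y := by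
  intro s hs v hv
  rcases h with h | h | ⟨-, h⟩
  · rw [h s hs v hv]; exact hv
  · rw [h s hs v hv]; exact Y.neg_mem hv
  · obtain ⟨h1, -⟩ := h s hs
    exact h1 v hv

/-- Stability under `S` is stability under the group generated by `S` (elements of order at most two). -/
theorem stb_closure (D : Sys Γ) {ρ : Γ →* (V →ₗ[ℂ] V)} {Y : Submodule ℂ V} (h : ∀ s ∈ D.S, ∀ v ∈ Y, ρ s v ∈ Y) :
    Stb ρ (Subgroup.closure D.S) Y := by
  intro g hg
  induction hg using Subgroup.closure_induction with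
  | mem s hs => exact h s hs
  | one => intro v hv; rw [map_one]; exact hv
  | mul a b _ _ ha hb => intro v hv; rw [map_mul]; exact ha _ (hb v hv)
  | inv a ha' ha =>
    -- the inverse of a product of elements of `S` is such a product
    revert ha
    intro ha v hv
    have key : ∀ x ∈ Subgroup.closure D.S, (∀ v ∈ Y, ρ x v ∈ Y) ∧ ∀ v ∈ Y, ρ x⁻¹ v ∈ Y := by
      intro x hx
      induction hx using Subgroup.closure_induction with
      | mem s hs =>
        refine ⟨h s hs, ?_⟩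
        have : s⁻¹ = s := by
          rw [inv_eq_iff_mul_eq_one]
          exact D.sq s hs
        rw [this]
        exact h s hs
      | one => exact ⟨fun v hv => by rw [map_one]; exact hv, fun v hv => by rw [inv_one, map_one]; exact hv⟩
      | mul a b _ _ ha hb =>
        refine ⟨fun v hv => by rw [map_mul]; exact ha.1 _ (hb.1 v hv), fun v hv => ?_⟩
        rw [mul_inv_rev, map_mul]
        exact hb.2 _ (ha.2 v hv)
      | inv a _ ha => exact ⟨ha.2, by rw [inv_inv]; exact ha.1⟩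
    exact (key a ha').2 v hv

/-- The representation on a subspace stable under all elements. -/
noncomputable def subR (ρ : Γ →* (V →ₗ[ℂ] V)) (X : Submodule ℂ V) (h : ∀ g, ∀ v ∈ X, ρ g v ∈ X) : Γ →* (X →ₗ[ℂ] X) where
  toFun g := (ρ g).restrict (h g)
  map_one' := by
    ext v
    simp only [LinearMap.coe_restrict_apply, map_one]
    rfl
  map_mul' a b := by
    ext v
    simp only [LinearMap.coe_restrict_apply, map_mul]
    rfl

theorem subR_apply (ρ : Γ →* (V →ₗ[ℂ] V)) (X : Submodule ℂ V) (h : ∀ g, ∀ v ∈ X, ρ g v ∈ X) (g : Γ) (x : X) :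
    ((subR ρ X h g x : X) : V) = ρ g x := rfl

theorem subR_one (ρ : Γ →* (V →ₗ[ℂ] V)) (X : Submodule ℂ V) (h : ∀ g, ∀ v ∈ X, ρ g v ∈ X) {g : Γ} (hg : ρ g = 1) :
    subR ρ X h g = 1 := by
  apply LinearMap.ext
  intro x
  apply Subtype.ext
  rw [subR_apply, hg]
  rfl

end

/-- A linear representation of degree `e` has a matrix form. -/
theorem exists_rp {G : Type*} [Group G] {X : Type*} [AddCommGroup X] [Module ℂ X] [FiniteDimensional ℂ X]
    (τ : G →* (X →ₗ[ℂ] X)) {e : ℕ} (h : Module.finrank ℂ X = e) :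
    ∃ ψ : Rp G e, (∀ g, chr ψ g = LinearMap.trace ℂ X (τ g)) ∧ ∀ g, τ g = 1 → ψ g = 1 := by
  subst h
  exact ⟨matRep τ, fun g => chr_matRep τ g, fun g hg => matRep_one τ hg⟩

/-- A linear character as a matrix representation. -/
theorem exists_rp_one {G : Type*} [Group G] (χ : G →* ℂˣ) :
    ∃ ψ : Rp G 1, (∀ g, chr ψ g = ((χ g : ℂˣ) : ℂ)) ∧ ∀ g, χ g = 1 → ψ g = 1 := by
  let τ : G →* (ℂ →ₗ[ℂ] ℂ) :=
    { toFun := fun g => ((χ g : ℂˣ) : ℂ) • LinearMap.id
      map_one' := by rw [map_one, Units.val_one, one_smul]; rfl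
      map_mul' := fun a b => by
        rw [map_mul, Units.val_mul]
        apply LinearMap.ext
        intro x
        change ((χ a : ℂˣ) : ℂ) * ((χ b : ℂˣ) : ℂ) * x = ((χ a : ℂˣ) : ℂ) * (((χ b : ℂˣ) : ℂ) * x)
        ring }
  obtain ⟨ψ, h1, h2⟩ := exists_rp τ (Module.finrank_self ℂ)
  refine ⟨ψ, fun g => ?_, fun g hg => h2 g ?_⟩
  · rw [h1]
    change LinearMap.trace ℂ ℂ (((χ g : ℂˣ) : ℂ) • LinearMap.id) = _
    rw [map_smul, LinearMap.trace_id, Module.finrank_self, Nat.cast_one, smul_eq_mul, mul_one]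
  · change ((χ g : ℂˣ) : ℂ) • LinearMap.id = _
    rw [hg, Units.val_one, one_smul]
    rfl

/-- A representation of degree two with diagonal matrices. -/
theorem exists_rp_two {G : Type*} [Group G] (χ χ' : G →* ℂˣ) :
    ∃ ψ : Rp G 2, (∀ g, chr ψ g = ((χ g : ℂˣ) : ℂ) + ((χ' g : ℂˣ) : ℂ)) ∧ ∀ g, χ g = 1 → χ' g = 1 → ψ g = 1 := by
  let τ : G →* (ℂ × ℂ →ₗ[ℂ] ℂ × ℂ) :=
    { toFun := fun g => (((χ g : ℂˣ) : ℂ) • LinearMap.id).prodMap (((χ' g : ℂˣ) : ℂ) • LinearMap.id)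
      map_one' := by
        rw [map_one, map_one, Units.val_one, one_smul, LinearMap.prodMap_id]
        rfl
      map_mul' := fun a b => by
        apply LinearMap.ext
        intro x
        rw [map_mul, map_mul, Units.val_mul, Units.val_mul]
        refine Prod.ext ?_ ?_
        · change ((χ a : ℂˣ) : ℂ) * ((χ b : ℂˣ) : ℂ) * x.1 = ((χ a : ℂˣ) : ℂ) * (((χ b : ℂˣ) : ℂ) * x.1)
          ring
        · change ((χ' a : ℂˣ) : ℂ) * ((χ' b : ℂˣ) : ℂ) * x.2 = ((χ' a : ℂˣ) : ℂ) * (((χ' b : ℂˣ) : ℂ) * x.2)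
          ring }
  obtain ⟨ψ, h1, h2⟩ := exists_rp τ (e := 2) (by rw [Module.finrank_prod, Module.finrank_self])
  refine ⟨ψ, fun g => ?_, fun g hg hg' => h2 g ?_⟩
  · rw [h1]
    change LinearMap.trace ℂ (ℂ × ℂ) ((((χ g : ℂˣ) : ℂ) • LinearMap.id).prodMap (((χ' g : ℂˣ) : ℂ) • LinearMap.id)) = _
    rw [LinearMap.trace_prodMap', map_smul, map_smul, LinearMap.trace_id, Module.finrank_self, Nat.cast_one,
      smul_eq_mul, smul_eq_mul, mul_one, mul_one]
  · change (((χ g : ℂˣ) : ℂ) • LinearMap.id).prodMap (((χ' g : ℂˣ) : ℂ) • LinearMap.id) = _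
    rw [hg, hg', Units.val_one, one_smul, LinearMap.prodMap_id]
    rfl

end SB
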