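import Pool.Agent.Helper68.OP.Base

/-!
# OP-C1: irreducible constituents of a sum of odd pieces, weight spaces of a direct sum
-/

namespace SB

universe u v

section aux
variable {V : Type v} [AddCommGroup V] [Module ℂ V]

theorem opc1_zero {m : ℕ} {X : Fin m → Submodule ℂ V} (hind : iSupIndep X) (x : Fin m → V) (hx : ∀ i, x i ∈ X i)
    (h : ∑ i, x i = 0) (i : Fin m) : x i = 0 := by
  have h1 : x i = -∑ j ∈ Finset.univ.erase i, x j := by
    rw [eq_neg_iff_add_eq_zero, Finset.add_sum_erase _ _ (Finset.mem_univ i)]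
    exact h
  have h2 : x i ∈ ⨆ (j) (_ : j ≠ i), X j := by
    rw [h1]
    refine Submodule.neg_mem _ (Submodule.sum_mem _ fun j hj => ?_)
    have hji : j ≠ i := Finset.ne_of_mem_erase hj
    exact Submodule.mem_iSup_of_mem j (Submodule.mem_iSup_of_mem hji (hx j))
  exact (Submodule.disjoint_def.1 (hind i)) _ (hx i) h2

theorem opc1_decomp {m : ℕ} (X : Fin m → Submodule ℂ V) (hsup : ⨆ i, X i = ⊤) (v : V) :
    ∃ x : Fin m → V, (∀ i, x i ∈ X i) ∧ ∑ i, x i = v := by
  have hv : v ∈ ⨆ i, X i := by rw [hsup]; exact Submodule.mem_top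
  refine Submodule.iSup_induction X (motive := fun v => ∃ x : Fin m → V, (∀ i, x i ∈ X i) ∧ ∑ i, x i = v) hv ?_ ?_ ?_
  · intro i w hw
    refine ⟨Pi.single i w, fun j => ?_, ?_⟩
    · by_cases hj : j = i
      · subst hj
        rw [Pi.single_eq_same]
        exact hw
      · rw [Pi.single_eq_of_ne hj]
        exact (X j).zero_mem
    · rw [Finset.sum_pi_single']
      rw [if_pos (Finset.mem_univ _)]
  · exact ⟨fun _ => 0, fun i => (X i).zero_mem, Finset.sum_const_zero⟩
  · rintro a b ⟨x, h1, h2⟩ ⟨y, h3, h4⟩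
    refine ⟨fun i => x i + y i, fun i => (X i).add_mem (h1 i) (h3 i), ?_⟩
    rw [Finset.sum_add_distrib, h2, h4]

theorem opc1_finrank [FiniteDimensional ℂ V] {m : ℕ} {X : Fin m → Submodule ℂ V} (hind : iSupIndep X)
    (s : Finset (Fin m)) : Module.finrank ℂ (⨆ i ∈ s, X i : Submodule ℂ V) = ∑ i ∈ s, Module.finrank ℂ (X i) := by
  classical
  induction s using Finset.induction_on with
  | empty => simp
  | insert a s ha ih =>
    rw [Finset.sum_insert ha, ← ih, Finset.iSup_insert]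
    have h1 := Submodule.finrank_sup_add_finrank_inf_eq (X a) (⨆ i ∈ s, X i)
    have h2 : X a ⊓ (⨆ i ∈ s, X i) = ⊥ := by
      have h3 : Disjoint (X a) (⨆ i ∈ (s : Set (Fin m)), X i) :=
        hind.disjoint_biSup (by simpa using ha)
      exact h3.eq_bot
    rw [h2, finrank_bot, add_zero] at h1
    exact h1

end aux

variable {Γ : Type u} [Group Γ] {V : Type v} [AddCommGroup V] [Module ℂ V]

/-- OP-C1. -/
theorem odd_irr [FiniteDimensional ℂ V] (D : Sys Γ) (ρ : Γ →* (V →ₗ[ℂ] V)) (h : OddSum ρ D.S ⊤)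
    {X : Submodule ℂ V} (hX : IrrOn ρ (Subgroup.closure D.S) X) :
    Module.finrank ℂ X = 1 ∨ (Module.finrank ℂ X = 2 ∧
      ∀ s ∈ D.S, ∀ h : ∀ v ∈ X, ρ s v ∈ X, LinearMap.trace ℂ X ((ρ s).restrict h) = 0) := by
  obtain ⟨m, Y, hind, hsup, hY⟩ := h
  obtain ⟨hX0, hXs, hXi⟩ := hX
  have hYs : ∀ i, ∀ s ∈ D.S, ∀ v ∈ Y i, ρ s v ∈ Y i := fun i => (hY i).stable
  -- the complements
  have hc : ∀ k, IsCompl (Y k) (⨆ (j) (_ : j ≠ k), Y j) := by
    intro k
    refine ⟨hind k, ?_⟩
    rw [codisjoint_iff, ← iSup_split_single]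
    exact hsup
  have hZs : ∀ k, ∀ s ∈ D.S, ∀ v ∈ ⨆ (j) (_ : j ≠ k), Y j, ρ s v ∈ ⨆ (j) (_ : j ≠ k), Y j := by
    intro k s hs
    have : (⨆ (j) (_ : j ≠ k), Y j) ≤ (⨆ (j) (_ : j ≠ k), Y j).comap (ρ s) := by
      refine iSup_le fun j => iSup_le fun hj => ?_
      intro v hv
      exact Submodule.mem_iSup_of_mem j (Submodule.mem_iSup_of_mem hj (hYs j s hs v hv))
    exact fun v hv => this hv
  -- some complement does not contain X
  obtain ⟨k, hk⟩ : ∃ k, ¬ X ≤ ⨆ (j) (_ : j ≠ k), Y j := by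
    by_contra hcon
    have hcon' : ∀ k, X ≤ ⨆ (j) (_ : j ≠ k), Y j := fun k => by
      by_contra h
      exact hcon ⟨k, h⟩
    apply hX0
    rw [eq_bot_iff]
    intro v hv
    obtain ⟨x, hx1, hx2⟩ := opc1_decomp Y hsup v
    have hx0 : ∀ k, x k = 0 := by
      intro k
      have h1 : v ∈ ⨆ (j) (_ : j ≠ k), Y j := hcon' k hv
      have h2 : x k ∈ ⨆ (j) (_ : j ≠ k), Y j := by
        have h3 : x k = v - ∑ j ∈ Finset.univ.erase k, x j := by
          rw [eq_sub_iff_add_eq, Finset.add_sum_erase _ _ (Finset.mem_univ k)]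
          exact hx2
        rw [h3]
        refine Submodule.sub_mem _ h1 (Submodule.sum_mem _ fun j hj => ?_)
        have hji : j ≠ k := Finset.ne_of_mem_erase hj
        exact Submodule.mem_iSup_of_mem j (Submodule.mem_iSup_of_mem hji (hx1 j))
      exact (Submodule.disjoint_def.1 (hind k)) _ (hx1 k) h2
    rw [Submodule.mem_bot, ← hx2]
    exact Finset.sum_eq_zero fun k _ => hx0 k
  have hXZ : X ⊓ (⨆ (j) (_ : j ≠ k), Y j) = ⊥ := by
    rcases hXi (X ⊓ (⨆ (j) (_ : j ≠ k), Y j)) inf_le_left (fun c hcc v hv =>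
      ⟨hXs c hcc v hv.1, stb_closure D (hZs k) c hcc v hv.2⟩) with h1 | h1
    · exact h1
    · exact absurd (inf_eq_left.1 h1) hk
  -- the projection
  let f : X →ₗ[ℂ] Y k := ((Y k).projectionOnto _ (hc k)).comp X.subtype
  have hf : Function.Injective f := by
    rw [← LinearMap.ker_eq_bot, LinearMap.ker_eq_bot']
    intro x hx
    have h1 : (x : V) ∈ ⨆ (j) (_ : j ≠ k), Y j := (Submodule.projectionOnto_apply_eq_zero_iff (hc k)).1 hx
    have h2 : (x : V) ∈ X ⊓ (⨆ (j) (_ : j ≠ k), Y j) := ⟨x.2, h1⟩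
    rw [hXZ, Submodule.mem_bot] at h2
    exact Subtype.ext h2
  have hfe : ∀ s ∈ D.S, ∀ x x' : X, (x' : V) = ρ s x → ((f x' : Y k) : V) = ρ s (f x) := by
    intro s hs x x' hx'
    have h1 : (x : V) = (f x : V) + ((x : V) - (f x : V)) := by abel
    have h2 : (x : V) - (f x : V) ∈ ⨆ (j) (_ : j ≠ k), Y j := by
      rw [← Submodule.projectionOnto_apply_eq_zero_iff (hc k), map_sub]
      have h3 : (Y k).projectionOnto _ (hc k) (f x : V) = f x := Submodule.projectionOnto_apply_left (hc k) (f x)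
      rw [h3]
      exact sub_self _
    have h4 : (x' : V) = ρ s (f x) + ρ s ((x : V) - (f x : V)) := by
      rw [hx', ← map_add]
      exact congrArg _ h1
    have h5 : (f x' : Y k) = (Y k).projectionOnto _ (hc k) (x' : V) := rfl
    rw [h5, h4, map_add]
    have h6 : (Y k).projectionOnto _ (hc k) (ρ s ((x : V) - (f x : V))) = 0 :=
      (Submodule.projectionOnto_apply_eq_zero_iff (hc k)).2 (hZs k s hs _ h2)
    rw [h6, add_zero]
    rw [Submodule.projectionOnto_apply_of_mem_left (hc k) (hYs k s hs _ (f x).2)]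
  have hS : ∀ s ∈ D.S, s ∈ Subgroup.closure D.S := fun s hs => Subgroup.subset_closure hs
  obtain ⟨w, hw, hw0⟩ := (Submodule.ne_bot_iff X).1 hX0
  -- scalar pieces
  have hscal : ∀ c : ℂ, (∀ s ∈ D.S, ∀ v ∈ Y k, ρ s v = c • v) → Module.finrank ℂ X = 1 := by
    intro c hcc
    have h1 : ∀ s ∈ D.S, ∀ v ∈ X, ρ s v = c • v := by
      intro s hs v hv
      have h2 : f ⟨ρ s v, hXs s (hS s hs) v hv⟩ = f (c • ⟨v, hv⟩) := by
        apply Subtype.ext
        rw [hfe s hs ⟨v, hv⟩ ⟨ρ s v, hXs s (hS s hs) v hv⟩ rfl, hcc s hs _ (f ⟨v, hv⟩).2, map_smul]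
        rfl
      have h3 := hf h2
      exact congrArg Subtype.val h3
    have h4 : Submodule.span ℂ {w} = X := by
      rcases hXi (Submodule.span ℂ {w}) ((Submodule.span_singleton_le_iff_mem w X).2 hw)
        (stb_closure D (fun s hs v hv => by
          obtain ⟨a, rfl⟩ := Submodule.mem_span_singleton.1 hv
          rw [h1 s hs _ (X.smul_mem a hw)]
          exact Submodule.smul_mem _ _ (Submodule.smul_mem _ _ (Submodule.mem_span_singleton_self w)))) with h5 | h5
      · rw [Submodule.span_singleton_eq_bot] at h5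
        exact absurd h5 hw0
      · exact h5
    rw [← h4]
    exact finrank_span_singleton hw0
  rcases hY k with h1 | h1 | ⟨h1, h2⟩
  · left
    exact hscal 1 fun s hs v hv => by rw [h1 s hs v hv, one_smul]
  · left
    exact hscal (-1) fun s hs v hv => by rw [h1 s hs v hv, neg_one_smul]
  · have h3 : Module.finrank ℂ X ≤ 2 := by
      rw [← h1]
      exact LinearMap.finrank_le_finrank_of_injective hf
    have h4 : Module.finrank ℂ X ≠ 0 := by
      intro h5
      exact hX0 (Submodule.finrank_eq_zero.1 h5)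
    have h5 : Module.finrank ℂ X = 1 ∨ Module.finrank ℂ X = 2 := by omega
    rcases h5 with h5 | h5
    · exact Or.inl h5
    right
    refine ⟨h5, fun s hs hst => ?_⟩
    have hfs : Function.Surjective f := (LinearMap.injective_iff_surjective_of_finrank_eq_finrank (by rw [h5, h1])).1 hf
    let e : X ≃ₗ[ℂ] Y k := LinearEquiv.ofBijective f ⟨hf, hfs⟩
    obtain ⟨h6, h7⟩ := h2 s hs
    rw [← h7, ← LinearMap.trace_conj' ((ρ s).restrict hst) e]
    congr 1
    apply LinearMap.ext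
    intro y
    obtain ⟨x, rfl⟩ := e.surjective y
    rw [LinearEquiv.conj_apply_apply, LinearEquiv.symm_apply_apply]
    apply Subtype.ext
    rw [LinearMap.coe_restrict_apply]
    exact hfe s hs x _ rfl

/-- OP-C2. The weight spaces of a direct sum of stable subspaces. -/
theorem wt_split [FiniteDimensional ℂ V] (ρ : Γ →* (V →ₗ[ℂ] V)) (C : Subgroup Γ) {m : ℕ}
    (X : Fin m → Submodule ℂ V) (hind : iSupIndep X) (hsup : ⨆ i, X i = ⊤) (hX : ∀ i, Stb ρ C (X i))
    (ε : C →* ℂˣ) : Module.finrank ℂ (Wt ρ C ε) = ∑ i, Module.finrank ℂ (Wt ρ C ε ⊓ X i : Submodule ℂ V) := by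
  have hind' : iSupIndep (fun i => (Wt ρ C ε ⊓ X i : Submodule ℂ V)) := hind.mono fun i => inf_le_right
  rw [← opc1_finrank hind' Finset.univ]
  have h1 : (⨆ i ∈ (Finset.univ : Finset (Fin m)), (Wt ρ C ε ⊓ X i : Submodule ℂ V)) = Wt ρ C ε := by
    apply le_antisymm
    · exact iSup_le fun i => iSup_le fun _ => inf_le_left
    · intro v hv
      obtain ⟨x, hx1, hx2⟩ := opc1_decomp X hsup v
      have hx : ∀ i, x i ∈ Wt ρ C ε := by
        intro i c
        have h2 : ∑ j, (ρ c (x j) - ((ε c : ℂˣ) : ℂ) • x j) = 0 := by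
          rw [Finset.sum_sub_distrib, ← Finset.smul_sum, ← map_sum, hx2, hv c, sub_self]
        have h3 := opc1_zero hind (fun j => ρ c (x j) - ((ε c : ℂˣ) : ℂ) • x j)
          (fun j => (X j).sub_mem (hX j c c.2 _ (hx1 j)) ((X j).smul_mem _ (hx1 j))) h2 i
        exact sub_eq_zero.1 h3
      rw [← hx2]
      refine Submodule.sum_mem _ fun i _ => ?_
      exact Submodule.mem_iSup_of_mem i (Submodule.mem_iSup_of_mem (Finset.mem_univ i) ⟨hx i, hx1 i⟩)
  rw [h1]

end SB
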