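import Pool.Agent.Helper68.OP.Base
import Pool.Agent.Helper21.RB.A

/-!
# OP-C2: multiplicities of the weights `ε`, `ε θ` in an odd piece
-/

namespace SB

universe u v

section aux
variable {V : Type v} [AddCommGroup V] [Module ℂ V]

theorem opc2_trace {T : V →ₗ[ℂ] V} (hV : Module.finrank ℂ V = 2) {v w : V} (hvw : LinearIndependent ℂ ![v, w]) {a b : ℂ}
    (hv : T v = a • v) (hw : T w = b • w) : LinearMap.trace ℂ V T = a + b := by
  have : FiniteDimensional ℂ V := FiniteDimensional.of_finrank_pos (by rw [hV]; norm_num)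
  let B := basisOfLinearIndependentOfCardEqFinrank hvw (by rw [hV]; rfl)
  have hB : ⇑B = ![v, w] := coe_basisOfLinearIndependentOfCardEqFinrank hvw _
  have h0 : B 0 = v := by rw [hB]; rfl
  have h1 : B 1 = w := by rw [hB]; rfl
  rw [LinearMap.trace_eq_matrix_trace ℂ B, Matrix.trace_fin_two, LinearMap.toMatrix_apply, LinearMap.toMatrix_apply,
    h0, h1, hv, hw, map_smul, map_smul, ← h0, ← h1, Module.Basis.repr_self, Module.Basis.repr_self, Finsupp.smul_apply,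
    Finsupp.smul_apply, Finsupp.single_eq_same, Finsupp.single_eq_same, smul_eq_mul, smul_eq_mul, mul_one, mul_one]

end aux

variable {Γ : Type u} [Group Γ] {V : Type v} [AddCommGroup V] [Module ℂ V]

theorem opc2_le [FiniteDimensional ℂ V] (C : Subgroup Γ) (ρ : Γ →* (V →ₗ[ℂ] V)) {X : Submodule ℂ V}
    (hX : Module.finrank ℂ X = 2) (s : C) (h : ∀ v ∈ X, ρ s v ∈ X)
    (ht : LinearMap.trace ℂ X ((ρ s).restrict h) = 0) (η : C →* ℂˣ) :
    Module.finrank ℂ (Wt ρ C η ⊓ X : Submodule ℂ V) ≤ 1 := by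
  by_contra hcon
  have h1 : Module.finrank ℂ (Wt ρ C η ⊓ X : Submodule ℂ V) ≤ 2 := by
    rw [← hX]
    exact Submodule.finrank_mono inf_le_right
  have h2 : Module.finrank ℂ (Wt ρ C η ⊓ X : Submodule ℂ V) = Module.finrank ℂ X := by omega
  have h3 : (Wt ρ C η ⊓ X : Submodule ℂ V) = X := Submodule.eq_of_le_of_finrank_eq inf_le_right h2
  have h4 : (ρ s).restrict h = ((η s : ℂˣ) : ℂ) • (LinearMap.id : X →ₗ[ℂ] X) := by
    apply LinearMap.ext
    intro x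
    apply Subtype.ext
    have h5 : (x : V) ∈ (Wt ρ C η ⊓ X : Submodule ℂ V) := by rw [h3]; exact x.2
    exact h5.1 s
  rw [h4, map_smul, LinearMap.trace_id, hX, smul_eq_mul] at ht
  rcases mul_eq_zero.1 ht with h5 | h5
  · exact (η s).ne_zero h5
  · norm_num at h5

theorem opc2_main [FiniteDimensional ℂ V] (D : Sys Γ) {θ : Γ →* ℂˣ} (hθ : ∀ s ∈ D.S, θ s = -1)
    {M : Subgroup Γ} (hM : M ∈ D.N) (ρ : Γ →* (V →ₗ[ℂ] V)) (h : ∀ g ∈ M, ρ g = 1)
    {X : Submodule ℂ V} (hX : Module.finrank ℂ X = 2)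
    (ht : ∀ s ∈ D.S, ∃ h : ∀ v ∈ X, ρ s v ∈ X, LinearMap.trace ℂ X ((ρ s).restrict h) = 0)
    (hS : ∃ s, s ∈ D.S) (ε : Subgroup.closure D.S →* ℂˣ)
    (hne : (Wt ρ (Subgroup.closure D.S) ε ⊓ X : Submodule ℂ V) ≠ ⊥) :
    Module.finrank ℂ (Wt ρ (Subgroup.closure D.S) ε ⊓ X : Submodule ℂ V) = 1 ∧
      Module.finrank ℂ (Wt ρ (Subgroup.closure D.S) (ε * thC D θ) ⊓ X : Submodule ℂ V) = 1 := by
  obtain ⟨s0, hs0⟩ := hS
  have hSC : ∀ s ∈ D.S, s ∈ Subgroup.closure D.S := fun s hs => Subgroup.subset_closure hs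
  have hXs : Stb ρ (Subgroup.closure D.S) X := stb_closure D fun s hs => by
    obtain ⟨h1, -⟩ := ht s hs
    exact h1
  obtain ⟨hst0, htr0⟩ := ht s0 hs0
  have hle := fun η => opc2_le (Subgroup.closure D.S) ρ hX ⟨s0, hSC s0 hs0⟩ hst0 htr0 η
  have h1 : Module.finrank ℂ (Wt ρ (Subgroup.closure D.S) ε ⊓ X : Submodule ℂ V) = 1 := by
    have h2 := hle ε
    have h3 : Module.finrank ℂ (Wt ρ (Subgroup.closure D.S) ε ⊓ X : Submodule ℂ V) ≠ 0 := by
      intro h4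
      exact hne (Submodule.finrank_eq_zero.1 h4)
    omega
  refine ⟨h1, ?_⟩
  -- the complement
  have hLs : Stb ρ (Subgroup.closure D.S) (Wt ρ (Subgroup.closure D.S) ε ⊓ X) := by
    intro c hc v hv
    refine ⟨?_, hXs c hc v hv.2⟩
    have h2 : ρ c v = ((ε ⟨c, hc⟩ : ℂˣ) : ℂ) • v := hv.1 ⟨c, hc⟩
    rw [h2]
    exact Submodule.smul_mem _ _ hv.1
  obtain ⟨Z, hZs, hZ⟩ := exists_compl ρ (D.normal M hM) (D.fin M hM) h (Subgroup.closure D.S) hLs
  have h2 : Module.finrank ℂ (Z ⊓ X : Submodule ℂ V) = 1 := by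
    have h3 := Submodule.finrank_sup_add_finrank_inf_eq (Wt ρ (Subgroup.closure D.S) ε ⊓ X) (Z ⊓ X)
    have h4 : (Wt ρ (Subgroup.closure D.S) ε ⊓ X) ⊔ (Z ⊓ X) = X := by
      rw [← sup_inf_assoc_of_le Z (inf_le_right : Wt ρ (Subgroup.closure D.S) ε ⊓ X ≤ X), hZ.sup_eq_top, top_inf_eq]
    have h5 : (Wt ρ (Subgroup.closure D.S) ε ⊓ X) ⊓ (Z ⊓ X) = ⊥ := by
      rw [← inf_assoc, hZ.inf_eq_bot, bot_inf_eq]
    rw [h4, h5, finrank_bot, hX, h1] at h3
    omega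
  obtain ⟨⟨v, hv⟩, hv0, -⟩ := finrank_eq_one_iff'.1 h1
  obtain ⟨⟨w, hw⟩, hw0, hw1⟩ := finrank_eq_one_iff'.1 h2
  have hv0' : v ≠ 0 := fun h => hv0 (Subtype.ext h)
  have hw0' : w ≠ 0 := fun h => hw0 (Subtype.ext h)
  -- the action on w
  have h3 : ∀ s (hs : s ∈ D.S), ρ s w = (-((ε ⟨s, hSC s hs⟩ : ℂˣ) : ℂ)) • w := by
    intro s hs
    obtain ⟨hst, htr⟩ := ht s hs
    obtain ⟨b, hb⟩ := hw1 ⟨ρ s w, hZs s (hSC s hs) w hw.1, hXs s (hSC s hs) w hw.2⟩
    have hb' : ρ s w = b • w := (congrArg Subtype.val hb).symm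
    have h4 : LinearIndependent ℂ ![(⟨v, hv.2⟩ : X), ⟨w, hw.2⟩] := by
      rw [LinearIndependent.pair_iff]
      intro a c hac
      have h5 : a • v + c • w = 0 := congrArg Subtype.val hac
      have h6 : a • v ∈ (Wt ρ (Subgroup.closure D.S) ε ⊓ X) ⊓ Z := by
        refine ⟨Submodule.smul_mem _ _ hv, ?_⟩
        rw [eq_neg_of_add_eq_zero_left h5]
        exact Z.neg_mem (Z.smul_mem _ hw.1)
      rw [hZ.inf_eq_bot, Submodule.mem_bot] at h6
      rw [h6, zero_add] at h5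
      exact ⟨(smul_eq_zero.1 h6).resolve_right hv0', (smul_eq_zero.1 h5).resolve_right hw0'⟩
    have h5 := opc2_trace (T := (ρ s).restrict hst) hX h4 (a := ((ε ⟨s, hSC s hs⟩ : ℂˣ) : ℂ)) (b := b)
      (Subtype.ext (hv.1 ⟨s, hSC s hs⟩)) (Subtype.ext hb')
    rw [htr] at h5
    rw [hb']
    congr 1
    exact eq_neg_of_add_eq_zero_right h5.symm
  have h4 : w ∈ Wt ρ (Subgroup.closure D.S) (ε * thC D θ) := by
    have h5 : ∀ c (hc : c ∈ Subgroup.closure D.S), ρ c w = ((((ε * thC D θ) ⟨c, hc⟩ : ℂˣ)) : ℂ) • w := by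
      intro c hc
      induction hc using Subgroup.closure_induction with
      | mem s hs =>
        rw [h3 s hs, MonoidHom.mul_apply, thC_apply]
        congr 1
        rw [hθ s hs, Units.val_mul, Units.val_neg, Units.val_one, mul_neg_one]
      | one =>
        rw [map_one]
        have : (⟨1, Subgroup.one_mem _⟩ : Subgroup.closure D.S) = 1 := rfl
        rw [this, map_one, Units.val_one, one_smul]
        rfl
      | mul a b ha hb iha ihb =>
        have : (⟨a * b, Subgroup.mul_mem _ ha hb⟩ : Subgroup.closure D.S) = ⟨a, ha⟩ * ⟨b, hb⟩ := rfl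
        rw [map_mul, Module.End.mul_apply, ihb, map_smul, iha, this, map_mul, Units.val_mul, smul_smul, mul_comm]
      | inv a ha iha =>
        have : (⟨a⁻¹, Subgroup.inv_mem _ ha⟩ : Subgroup.closure D.S) = ⟨a, ha⟩⁻¹ := rfl
        rw [this, map_inv (ε * thC D θ), Units.val_inv_eq_inv_val]
        have h6 : ρ a⁻¹ (ρ a w) = w := by
          rw [← Module.End.mul_apply, ← map_mul, inv_mul_cancel, map_one]
          rfl
        rw [iha, map_smul] at h6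
        have h7 : ((((ε * thC D θ) ⟨a, ha⟩ : ℂˣ)) : ℂ) ≠ 0 := Units.ne_zero _
        rw [eq_inv_smul_iff₀ h7]
        exact h6
    exact fun c => h5 c c.2
  have h5 : Module.finrank ℂ (Wt ρ (Subgroup.closure D.S) (ε * thC D θ) ⊓ X : Submodule ℂ V) ≠ 0 := by
    intro h6
    have h7 : w ∈ (Wt ρ (Subgroup.closure D.S) (ε * thC D θ) ⊓ X : Submodule ℂ V) := ⟨h4, hw.2⟩
    rw [Submodule.finrank_eq_zero.1 h6, Submodule.mem_bot] at h7
    exact hw0' h7
  have h6 := hle (ε * thC D θ)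
  omega

theorem opc2_scal (C : Subgroup Γ) (ρ : Γ →* (V →ₗ[ℂ] V)) {X : Submodule ℂ V} (c : ℂ) (η : C →* ℂˣ) (s s' : C)
    (hs : ∀ v ∈ X, ρ s v = c • v) (hs' : ∀ v ∈ X, ρ s' v = c • v) (hne : η s ≠ η s') :
    (Wt ρ C η ⊓ X : Submodule ℂ V) = ⊥ := by
  rw [eq_bot_iff]
  intro v hv
  rw [Submodule.mem_bot]
  have h1 : ρ s v = ((η s : ℂˣ) : ℂ) • v := hv.1 s
  have h2 : ρ s' v = ((η s' : ℂˣ) : ℂ) • v := hv.1 s'
  rw [hs v hv.2] at h1
  rw [hs' v hv.2] at h2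
  have h3 : (((η s : ℂˣ) : ℂ) - ((η s' : ℂˣ) : ℂ)) • v = 0 := by
    rw [sub_smul, ← h1, ← h2, sub_self]
  rcases smul_eq_zero.1 h3 with h4 | h4
  · exact absurd (Units.ext (sub_eq_zero.1 h4)) hne
  · exact h4

/-- OP-C3. -/
theorem piece_mult [FiniteDimensional ℂ V] (D : Sys Γ) {θ : Γ →* ℂˣ} (hθ : ∀ s ∈ D.S, θ s = -1)
    {M : Subgroup Γ} (hM : M ∈ D.N) (ρ : Γ →* (V →ₗ[ℂ] V)) (h : ∀ g ∈ M, ρ g = 1)
    {X : Submodule ℂ V} (hX : OddPiece ρ D.S X) (ε : Subgroup.closure D.S →* ℂˣ)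
    (hε : ∃ (s s' : Subgroup.closure D.S), (s : Γ) ∈ D.S ∧ (s' : Γ) ∈ D.S ∧ ε s ≠ ε s') :
    Module.finrank ℂ (Wt ρ (Subgroup.closure D.S) ε ⊓ X : Submodule ℂ V) =
      Module.finrank ℂ (Wt ρ (Subgroup.closure D.S) (ε * thC D θ) ⊓ X : Submodule ℂ V) := by
  obtain ⟨s, s', hs, hs', hne⟩ := hε
  have hne' : (ε * thC D θ) s ≠ (ε * thC D θ) s' := by
    intro h1
    rw [MonoidHom.mul_apply, MonoidHom.mul_apply, thC_apply, thC_apply, hθ _ hs, hθ _ hs'] at h1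
    exact hne (mul_right_cancel h1)
  have hscal : ∀ c : ℂ, (∀ s ∈ D.S, ∀ v ∈ X, ρ s v = c • v) →
      Module.finrank ℂ (Wt ρ (Subgroup.closure D.S) ε ⊓ X : Submodule ℂ V) =
      Module.finrank ℂ (Wt ρ (Subgroup.closure D.S) (ε * thC D θ) ⊓ X : Submodule ℂ V) := by
    intro c hc
    rw [opc2_scal _ ρ c ε s s' (hc s hs) (hc s' hs') hne, opc2_scal _ ρ c (ε * thC D θ) s s' (hc s hs) (hc s' hs') hne']
  rcases hX with h1 | h1 | ⟨h1, h2⟩
  · exact hscal 1 fun s hs v hv => by rw [h1 s hs v hv, one_smul]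
  · exact hscal (-1) fun s hs v hv => by rw [h1 s hs v hv, neg_one_smul]
  · by_cases h3 : (Wt ρ (Subgroup.closure D.S) ε ⊓ X : Submodule ℂ V) = ⊥
    · by_cases h4 : (Wt ρ (Subgroup.closure D.S) (ε * thC D θ) ⊓ X : Submodule ℂ V) = ⊥
      · rw [h3, h4]
      · obtain ⟨h5, h6⟩ := opc2_main D hθ hM ρ h h1 h2 ⟨s, hs⟩ (ε * thC D θ) h4
        have h7 : ε * thC D θ * thC D θ = ε := by
          apply MonoidHom.ext
          rintro ⟨c, hc⟩
          have h9 : ∀ c ∈ Subgroup.closure D.S, θ c * θ c = 1 := by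
            intro c hc
            induction hc using Subgroup.closure_induction with
            | mem s hs => rw [hθ s hs, neg_one_mul, neg_neg]
            | one => rw [map_one, one_mul]
            | mul a b _ _ iha ihb => rw [map_mul, mul_mul_mul_comm, iha, ihb, one_mul]
            | inv a _ iha => rw [map_inv, ← mul_inv, iha, inv_one]
          rw [MonoidHom.mul_apply, MonoidHom.mul_apply, thC_apply, mul_assoc]
          have h8 : θ ((⟨c, hc⟩ : Subgroup.closure D.S) : Γ) * θ ((⟨c, hc⟩ : Subgroup.closure D.S) : Γ) = 1 := h9 c hc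
          rw [h8, mul_one]
        rw [h7, h3, finrank_bot] at h6
        omega
    · obtain ⟨h5, h6⟩ := opc2_main D hθ hM ρ h h1 h2 ⟨s, hs⟩ ε h3
      rw [h5, h6]

end SB
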