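import Pool.Agent.Helper68.OP.Base

namespace SB

universe u v

variable {Γ : Type u} [Group Γ] {V : Type v} [AddCommGroup V] [Module ℂ V]

/-- OP-G1. The dimension of a weight space as an average. -/
theorem wt_avg [FiniteDimensional ℂ V] (ρ : Γ →* (V →ₗ[ℂ] V)) {M C : Subgroup Γ} (hM : M.Normal)
    (hf : M.FiniteIndex) (hρ : ∀ g ∈ M, ρ g = 1) (ε : C →* ℂˣ) (hε : ∀ c : C, (c : Γ) ∈ M → ε c = 1) :
    ∑ᶠ q : C ⧸ M.subgroupOf C, (((ε q.out)⁻¹ : ℂˣ) : ℂ) * LinearMap.trace ℂ V (ρ (q.out : C)) =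
      (Nat.card (C ⧸ M.subgroupOf C) : ℂ) * (Module.finrank ℂ (Wt ρ C ε) : ℂ) := by
  classical
  haveI := hM
  haveI := hf
  haveI : Finite (C ⧸ M.subgroupOf C) := Subgroup.finite_quotient_of_finiteIndex
  haveI := Fintype.ofFinite (C ⧸ M.subgroupOf C)
  let τ : C → (V →ₗ[ℂ] V) := fun c => (((ε c)⁻¹ : ℂˣ) : ℂ) • ρ c
  have hmul : ∀ a b : C, ∀ v, τ (a * b) v = τ a (τ b v) := fun a b v => by
    change (((ε (a * b))⁻¹ : ℂˣ) : ℂ) • ρ ((a : Γ) * b) v =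
      (((ε a)⁻¹ : ℂˣ) : ℂ) • ρ a ((((ε b)⁻¹ : ℂˣ) : ℂ) • ρ b v)
    rw [map_mul, map_mul, map_smul, smul_smul, ← Units.val_mul, mul_inv]
    rfl
  have hone : ∀ c : C, (c : Γ) ∈ M → ∀ v, τ c v = v := fun c hc v => by
    change (((ε c)⁻¹ : ℂˣ) : ℂ) • ρ c v = v
    rw [hε c hc, hρ _ hc, inv_one, Units.val_one, one_smul]
    rfl
  have hout : ∀ (c : C) (v : V), τ ((QuotientGroup.mk c : C ⧸ M.subgroupOf C).out) v = τ c v := fun c v => by
    have h1 : (QuotientGroup.mk c : C ⧸ M.subgroupOf C) =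
        QuotientGroup.mk (QuotientGroup.mk c : C ⧸ M.subgroupOf C).out := (QuotientGroup.out_eq' _).symm
    have h2 := QuotientGroup.eq.1 h1
    have h3 : (QuotientGroup.mk c : C ⧸ M.subgroupOf C).out =
        c * (c⁻¹ * (QuotientGroup.mk c : C ⧸ M.subgroupOf C).out) := by rw [mul_inv_cancel_left]
    conv_lhs => rw [h3]
    rw [hmul, hone _ (Subgroup.mem_subgroupOf.1 h2)]
  have hcard : (Nat.card (C ⧸ M.subgroupOf C) : ℂ) ≠ 0 := by
    rw [Nat.cast_ne_zero]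
    exact Nat.card_pos.ne'
  let P : V →ₗ[ℂ] V := (Nat.card (C ⧸ M.subgroupOf C) : ℂ)⁻¹ • ∑ q : C ⧸ M.subgroupOf C, τ q.out
  have hP : LinearMap.IsProj (Wt ρ C ε) P := by
    constructor
    · intro v c
      have e1 : ρ c (P v) = ((ε c : ℂˣ) : ℂ) • τ c (P v) := by
        change ρ c (P v) = ((ε c : ℂˣ) : ℂ) • (((ε c)⁻¹ : ℂˣ) : ℂ) • ρ c (P v)
        rw [smul_smul, Units.mul_inv, one_smul]
      rw [e1]
      congr 1
      change τ c ((Nat.card (C ⧸ M.subgroupOf C) : ℂ)⁻¹ • (∑ q : C ⧸ M.subgroupOf C, τ q.out) v) =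
        (Nat.card (C ⧸ M.subgroupOf C) : ℂ)⁻¹ • (∑ q : C ⧸ M.subgroupOf C, τ q.out) v
      rw [map_smul, LinearMap.sum_apply, map_sum]
      congr 1
      rw [← Equiv.sum_comp (Equiv.mulLeft (QuotientGroup.mk c : C ⧸ M.subgroupOf C))
        (fun q : C ⧸ M.subgroupOf C => τ q.out v)]
      refine Finset.sum_congr rfl fun q _ => ?_
      rw [← hmul, Equiv.coe_mulLeft]
      have e2 : (QuotientGroup.mk c : C ⧸ M.subgroupOf C) * q = QuotientGroup.mk (c * q.out) := by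
        rw [QuotientGroup.mk_mul, QuotientGroup.out_eq']
      dsimp only
      rw [e2, hout]
    · intro v hv
      change (Nat.card (C ⧸ M.subgroupOf C) : ℂ)⁻¹ • (∑ q : C ⧸ M.subgroupOf C, τ q.out) v = v
      rw [LinearMap.sum_apply]
      have e1 : ∀ q : C ⧸ M.subgroupOf C, τ q.out v = v := fun q => by
        change (((ε q.out)⁻¹ : ℂˣ) : ℂ) • ρ (q.out : C) v = v
        rw [hv q.out, smul_smul, Units.inv_mul, one_smul]
      rw [Finset.sum_congr rfl fun q _ => e1 q, Finset.sum_const, Finset.card_univ, ← Nat.card_eq_fintype_card,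
        ← Nat.cast_smul_eq_nsmul ℂ, smul_smul, inv_mul_cancel₀ hcard, one_smul]
  have ht := hP.trace
  rw [← ht, finsum_eq_sum_of_fintype]
  change _ = (Nat.card (C ⧸ M.subgroupOf C) : ℂ) * LinearMap.trace ℂ V
    ((Nat.card (C ⧸ M.subgroupOf C) : ℂ)⁻¹ • ∑ q : C ⧸ M.subgroupOf C, τ q.out)
  rw [map_smul, smul_eq_mul, mul_inv_cancel_left₀ hcard, map_sum]
  refine Finset.sum_congr rfl fun q _ => ?_
  change _ = LinearMap.trace ℂ V ((((ε q.out)⁻¹ : ℂˣ) : ℂ) • ρ (q.out : C))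
  rw [map_smul, smul_eq_mul]

/-- OP-G2. Induced functions on a normal subgroup contained in `U`. -/
theorem ind_exz_normal {U : Subgroup Γ} (hU : U.FiniteIndex) {N : Subgroup Γ} (hN : N.Normal) (hNU : N ≤ U)
    (f : U → ℂ) {g : Γ} (hg : g ∈ N) :
    Ind U (exz U f) g = ∑ᶠ q : Γ ⧸ U, f ⟨q.out⁻¹ * g * q.out, hNU (by
      have := hN.conj_mem g hg q.out⁻¹
      rwa [inv_inv] at this)⟩ := by
  unfold Ind exz
  refine finsum_congr fun q => ?_
  rw [dif_pos]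

end SB
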