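import Pool.Agent.Helper68.OP.Base
import Pool.Agent.Helper68.OP.A1
import Pool.Agent.Helper68.OP.A2
import Pool.Agent.Helper68.OP.G1

/-!
# Project OP, module G2: weight spaces of representations with trace in `PDp`
-/

namespace SB

universe u v

variable {Γ : Type u} [Group Γ]

/-- Linear characters of the group generated by the involutions `S` have square one. -/
theorem sq_one_G2 (D : Sys Γ) (χ : Subgroup.closure D.S →* ℂˣ) (c : Subgroup.closure D.S) : χ c * χ c = 1 := by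
  obtain ⟨c, hc⟩ := c
  induction hc using Subgroup.closure_induction with
  | mem s hs =>
    rw [← map_mul]
    have : (⟨s, Subgroup.subset_closure hs⟩ : Subgroup.closure D.S) * ⟨s, Subgroup.subset_closure hs⟩ = 1 :=
      Subtype.ext (D.sq s hs)
    rw [this, map_one]
  | one =>
    have : (⟨1, Subgroup.one_mem _⟩ : Subgroup.closure D.S) = 1 := rfl
    rw [this, map_one, one_mul]
  | mul a b ha hb h1 h2 =>
    have : (⟨a * b, Subgroup.mul_mem _ ha hb⟩ : Subgroup.closure D.S) = ⟨a, ha⟩ * ⟨b, hb⟩ := rfl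
    rw [this, map_mul, mul_mul_mul_comm, h1, h2, one_mul]
  | inv a ha h1 =>
    have : (⟨a⁻¹, Subgroup.inv_mem _ ha⟩ : Subgroup.closure D.S) = ⟨a, ha⟩⁻¹ := rfl
    rw [this, map_inv, ← mul_inv, h1, inv_one]

/-- An involution of trace zero in degree two has determinant `-1`. -/
theorem det_G2 (A : Matrix (Fin 2) (Fin 2) ℂ) (h : A * A = 1) (h0 : A.trace = 0) : A.det = -1 := by
  rw [Matrix.trace_fin_two] at h0
  have h1 := congrFun (congrFun h 0) 0
  rw [Matrix.mul_apply, Fin.sum_univ_two, Matrix.one_apply_eq] at h1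
  rw [Matrix.det_fin_two]
  have h2 : A 1 1 = -A 0 0 := by linear_combination h0
  rw [h2]
  linear_combination -h1

/-- The trace of the inverse in degree two. -/
theorem tr_inv_G2 (A : Matrix.GeneralLinearGroup (Fin 2) ℂ) :
    Matrix.trace ((A⁻¹ : Matrix.GeneralLinearGroup (Fin 2) ℂ) : Matrix (Fin 2) (Fin 2) ℂ) *
      Matrix.det (A : Matrix (Fin 2) (Fin 2) ℂ) = Matrix.trace (A : Matrix (Fin 2) (Fin 2) ℂ) := by
  have h : Matrix.det (A : Matrix (Fin 2) (Fin 2) ℂ) ≠ 0 := by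
    have := A.det.ne_zero
    simpa using this
  rw [Matrix.coe_units_inv, Matrix.inv_def, Matrix.trace_smul, Matrix.adjugate_fin_two, Matrix.trace_fin_two,
    Matrix.trace_fin_two, Ring.inverse_eq_inv', smul_eq_mul]
  simp only [Matrix.of_apply, Matrix.cons_val', Matrix.cons_val_zero, Matrix.cons_val_one, Matrix.cons_val_fin_one]
  field_simp
  ring

theorem closure_le_G2 (D : Sys Γ) {U : Subgroup Γ} (hS : D.S ⊆ U) : Subgroup.closure D.S ≤ U :=
  (Subgroup.closure_le U).2 hS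

/-- The determinant of an odd plane on the group generated by `S` is `θ`. -/
theorem det_eq_G2 (D : Sys Γ) {θ : Γ →* ℂˣ} (hθ : ∀ s ∈ D.S, θ s = -1) {U : Subgroup Γ} (hS : D.S ⊆ U)
    (ψ : Rp U 2) (h0 : ∀ s (h : s ∈ U), s ∈ D.S → chr ψ ⟨s, h⟩ = 0) (c : Γ) (hc : c ∈ Subgroup.closure D.S)
    (hcU : c ∈ U) : Matrix.det (ψ ⟨c, hcU⟩ : Matrix (Fin 2) (Fin 2) ℂ) = ((θ c : ℂˣ) : ℂ) := by
  have key : ∀ x (hx : x ∈ Subgroup.closure D.S),
      (Matrix.GeneralLinearGroup.det (ψ ⟨x, closure_le_G2 D hS hx⟩) : ℂˣ) = θ x := by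
    intro x hx
    induction hx using Subgroup.closure_induction with
    | mem s hs =>
      rw [hθ s hs]
      apply Units.ext
      have h1 : ((ψ ⟨s, hS hs⟩ : Matrix.GeneralLinearGroup (Fin 2) ℂ) : Matrix (Fin 2) (Fin 2) ℂ) *
          ((ψ ⟨s, hS hs⟩ : Matrix.GeneralLinearGroup (Fin 2) ℂ) : Matrix (Fin 2) (Fin 2) ℂ) = 1 := by
        rw [← Units.val_mul, ← map_mul]
        have : (⟨s, hS hs⟩ : U) * ⟨s, hS hs⟩ = 1 := Subtype.ext (D.sq s hs)
        rw [this, map_one, Units.val_one]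
      have h2 := det_G2 _ h1 (h0 s (hS hs) hs)
      rw [Units.val_neg, Units.val_one]
      exact h2
    | one =>
      have : (⟨1, closure_le_G2 D hS (Subgroup.one_mem _)⟩ : U) = 1 := rfl
      rw [this, map_one, map_one, map_one]
    | mul a b ha hb h1 h2 =>
      have : (⟨a * b, closure_le_G2 D hS (Subgroup.mul_mem _ ha hb)⟩ : U) =
        ⟨a, closure_le_G2 D hS ha⟩ * ⟨b, closure_le_G2 D hS hb⟩ := rfl
      rw [this, map_mul, map_mul, map_mul, h1, h2]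
    | inv a ha h1 =>
      have : (⟨a⁻¹, closure_le_G2 D hS (Subgroup.inv_mem _ ha)⟩ : U) = ⟨a, closure_le_G2 D hS ha⟩⁻¹ := rfl
      rw [this, map_inv, map_inv, map_inv, h1]
  have := congrArg Units.val (key c hc)
  exact this

/-- The trace of an odd plane satisfies `θ(c) χ(c) = χ(c⁻¹)`. -/
theorem chr_tw_G2 (D : Sys Γ) {θ : Γ →* ℂˣ} (hθ : ∀ s ∈ D.S, θ s = -1) {U : Subgroup Γ} (hS : D.S ⊆ U)
    (ψ : Rp U 2) (h0 : ∀ s (h : s ∈ U), s ∈ D.S → chr ψ ⟨s, h⟩ = 0) (c : Γ) (hc : c ∈ Subgroup.closure D.S)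
    (hcU : c ∈ U) (hcU' : c⁻¹ ∈ U) : ((θ c : ℂˣ) : ℂ) * chr ψ ⟨c, hcU⟩ = chr ψ ⟨c⁻¹, hcU'⟩ := by
  have h1 := tr_inv_G2 (ψ ⟨c, hcU⟩)
  rw [det_eq_G2 D hθ hS ψ h0 c hc hcU, ← map_inv] at h1
  have h2 : (⟨c, hcU⟩ : U)⁻¹ = ⟨c⁻¹, hcU'⟩ := rfl
  rw [h2] at h1
  have h3 : ((θ c : ℂˣ) : ℂ) * ((θ c : ℂˣ) : ℂ) = 1 := by
    have := congrArg Units.val (sq_one_G2 D (thC D θ) ⟨c, hc⟩)
    exact this
  change ((θ c : ℂˣ) : ℂ) * Matrix.trace (ψ ⟨c, hcU⟩ : Matrix (Fin 2) (Fin 2) ℂ) =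
    Matrix.trace (ψ ⟨c⁻¹, hcU'⟩ : Matrix (Fin 2) (Fin 2) ℂ)
  rw [← h1]
  linear_combination (Matrix.trace (ψ ⟨c⁻¹, hcU'⟩ : Matrix (Fin 2) (Fin 2) ℂ)) * h3

/-- The same for the induced character. -/
theorem ind_tw_G2 (D : Sys Γ) {θ : Γ →* ℂˣ} (hθ : ∀ s ∈ D.S, θ s = -1) {U : Subgroup Γ} (hU : U.FiniteIndex)
    (hS : D.S ⊆ U) (ψ : Rp U 2) (h0 : ∀ s (h : s ∈ U), s ∈ D.S → chr ψ ⟨s, h⟩ = 0) (c : Γ)
    (hc : c ∈ Subgroup.closure D.S) : ((θ c : ℂˣ) : ℂ) * Ind U (exz U (chr ψ)) c = Ind U (exz U (chr ψ)) c⁻¹ := by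
  have hn := closure_normal D
  rw [ind_exz_normal hU hn (closure_le_G2 D hS) (chr ψ) hc,
    ind_exz_normal hU hn (closure_le_G2 D hS) (chr ψ) (Subgroup.inv_mem _ hc), ← smul_eq_mul, smul_finsum]
  refine finsum_congr fun q => ?_
  rw [smul_eq_mul]
  have hm : q.out⁻¹ * c * q.out ∈ Subgroup.closure D.S := by
    have := hn.conj_mem c hc q.out⁻¹
    rwa [inv_inv] at this
  have he : (q.out⁻¹ * c * q.out)⁻¹ = q.out⁻¹ * c⁻¹ * q.out := by group
  have hθc : θ (q.out⁻¹ * c * q.out) = θ c := by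
    rw [map_mul, map_mul, map_inv, mul_comm, mul_inv_cancel_left]
  have h1 := chr_tw_G2 D hθ hS ψ h0 (q.out⁻¹ * c * q.out) hm (closure_le_G2 D hS hm)
    (U.inv_mem (closure_le_G2 D hS hm))
  rw [hθc] at h1
  rw [h1]
  congr 1
  exact Subtype.ext he

/-- Pairs of degree one have the same induced character on the group generated by `S`. -/
theorem ind_one_G2 (D : Sys Γ) {U : Subgroup Γ} (hU : U.FiniteIndex) (hS : D.S ⊆ U) (ψ ψ' : Rp U 1)
    (h : ∀ s (h : s ∈ U), s ∈ D.S → chr ψ ⟨s, h⟩ = chr ψ' ⟨s, h⟩) (c : Γ) (hc : c ∈ Subgroup.closure D.S) :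
    Ind U (exz U (chr ψ)) c = Ind U (exz U (chr ψ')) c := by
  have hn := closure_normal D
  have ext1 : ∀ A B : Matrix.GeneralLinearGroup (Fin 1) ℂ, Matrix.trace (A : Matrix (Fin 1) (Fin 1) ℂ) =
      Matrix.trace (B : Matrix (Fin 1) (Fin 1) ℂ) → A = B := by
    intro A B hAB
    apply Units.ext
    ext i j
    have hi := Subsingleton.elim i 0
    have hj := Subsingleton.elim j 0
    subst hi hj
    rw [Matrix.trace, Matrix.trace, Fin.sum_univ_one, Fin.sum_univ_one] at hAB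
    exact hAB
  have key : ∀ x (hx : x ∈ Subgroup.closure D.S),
      ψ ⟨x, closure_le_G2 D hS hx⟩ = ψ' ⟨x, closure_le_G2 D hS hx⟩ := by
    intro x hx
    induction hx using Subgroup.closure_induction with
    | mem s hs => exact ext1 _ _ (h s (hS hs) hs)
    | one =>
      have : (⟨1, closure_le_G2 D hS (Subgroup.one_mem _)⟩ : U) = 1 := rfl
      rw [this, map_one, map_one]
    | mul a b ha hb h1 h2 =>
      have : (⟨a * b, closure_le_G2 D hS (Subgroup.mul_mem _ ha hb)⟩ : U) =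
        ⟨a, closure_le_G2 D hS ha⟩ * ⟨b, closure_le_G2 D hS hb⟩ := rfl
      rw [this, map_mul, map_mul, h1, h2]
    | inv a ha h1 =>
      have : (⟨a⁻¹, closure_le_G2 D hS (Subgroup.inv_mem _ ha)⟩ : U) = ⟨a, closure_le_G2 D hS ha⟩⁻¹ := rfl
      rw [this, map_inv, map_inv, h1]
  rw [ind_exz_normal hU hn (closure_le_G2 D hS) (chr ψ) hc, ind_exz_normal hU hn (closure_le_G2 D hS) (chr ψ') hc]
  refine finsum_congr fun q => ?_
  have hm : q.out⁻¹ * c * q.out ∈ Subgroup.closure D.S := by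
    have := hn.conj_mem c hc q.out⁻¹
    rwa [inv_inv] at this
  change Matrix.trace (ψ _ : Matrix (Fin 1) (Fin 1) ℂ) = Matrix.trace (ψ' _ : Matrix (Fin 1) (Fin 1) ℂ)
  rw [key _ hm]

theorem ind_one'_G2 (D : Sys Γ) {U : Subgroup Γ} (hU : U.FiniteIndex) (hS : D.S ⊆ U) {e : ℕ} (he : e = 1)
    (ψ ψ' : Rp U e) (h : ∀ s (h : s ∈ U), s ∈ D.S → chr ψ ⟨s, h⟩ = chr ψ' ⟨s, h⟩) (c : Γ)
    (hc : c ∈ Subgroup.closure D.S) : Ind U (exz U (chr ψ)) c = Ind U (exz U (chr ψ')) c := by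
  subst he
  exact ind_one_G2 D hU hS ψ ψ' h c hc

theorem ind_tw'_G2 (D : Sys Γ) {θ : Γ →* ℂˣ} (hθ : ∀ s ∈ D.S, θ s = -1) {U : Subgroup Γ} (hU : U.FiniteIndex)
    (hS : D.S ⊆ U) {e : ℕ} (he : e = 2) (ψ : Rp U e) (h0 : ∀ s (h : s ∈ U), s ∈ D.S → chr ψ ⟨s, h⟩ = 0) (c : Γ)
    (hc : c ∈ Subgroup.closure D.S) : ((θ c : ℂˣ) : ℂ) * Ind U (exz U (chr ψ)) c = Ind U (exz U (chr ψ)) c⁻¹ := by
  subst he
  exact ind_tw_G2 D hθ hU hS ψ h0 c hc

/-- Reindexing a sum over a finite quotient group by inversion. -/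
theorem sum_inv_G2 {C : Type u} [Group C] {N : Subgroup C} (hN : N.Normal) (f : C → ℂ)
    (hf : ∀ c, ∀ n ∈ N, f (c * n) = f c) : ∑ᶠ q : C ⧸ N, f q.out⁻¹ = ∑ᶠ q : C ⧸ N, f q.out := by
  rw [← finsum_comp_equiv (Equiv.inv (C ⧸ N)) (f := fun q : C ⧸ N => f q.out)]
  refine finsum_congr fun q => ?_
  have h1 : ((q⁻¹ : C ⧸ N).out : C ⧸ N) = ((q.out⁻¹ : C) : C ⧸ N) := by
    rw [QuotientGroup.out_eq', QuotientGroup.mk_inv, QuotientGroup.out_eq']
  have h2 := QuotientGroup.eq.1 h1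
  change f q.out⁻¹ = f (q⁻¹ : C ⧸ N).out
  have h3 : q.out⁻¹ = (q⁻¹ : C ⧸ N).out * ((q⁻¹ : C ⧸ N).out⁻¹ * q.out⁻¹) := by group
  rw [h3, hf _ _ h2]

/-- The sum of a nontrivial character over a finite quotient. -/
theorem sum_zero_G2 {C : Type u} [Group C] {N : Subgroup C} (hN : N.Normal) (hf : N.FiniteIndex) (χ : C →* ℂˣ)
    (h : ∀ n ∈ N, χ n = 1) (h1 : χ ≠ 1) : ∑ᶠ q : C ⧸ N, ((χ q.out : ℂˣ) : ℂ) = 0 := by
  classical
  have : Finite (C ⧸ N) := Subgroup.finite_quotient_of_finiteIndex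
  have := Fintype.ofFinite (C ⧸ N)
  have hle : N ≤ χ.ker := fun n hn => h n hn
  let χ' : C ⧸ N →* ℂ := (Units.coeHom ℂ).comp (QuotientGroup.lift N χ hle)
  have hv : ∀ c : C, χ' (c : C ⧸ N) = ((χ c : ℂˣ) : ℂ) := fun c => rfl
  have h2 : χ' ≠ 1 := by
    intro h3
    apply h1
    ext c
    rw [← hv, h3]
    rfl
  rw [finsum_eq_sum_of_fintype, ← sum_hom_units_eq_zero χ' h2]
  refine Finset.sum_congr rfl fun q _ => ?_
  rw [← hv, QuotientGroup.out_eq']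

variable {V : Type v} [AddCommGroup V] [Module ℂ V]

theorem conv_mult [FiniteDimensional ℂ V] (D : Sys Γ) {θ : Γ →* ℂˣ} (hθ : Sgn D θ) {M : Subgroup Γ} (hM : M ∈ D.N)
    (ρ : Γ →* (V →ₗ[ℂ] V)) (h : ∀ g ∈ M, ρ g = 1) (hv : (fun g => LinearMap.trace ℂ V (ρ g)) ∈ PDp D θ)
    (ε : Subgroup.closure D.S →* ℂˣ)
    (hε : ∃ (s s' : Subgroup.closure D.S), (s : Γ) ∈ D.S ∧ (s' : Γ) ∈ D.S ∧ ε s ≠ ε s') :
    Module.finrank ℂ (Wt ρ (Subgroup.closure D.S) ε) =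
      Module.finrank ℂ (Wt ρ (Subgroup.closure D.S) (ε * thC D θ)) := by
  classical
  obtain ⟨⟨Mθ, hMθ, hθM⟩, hθS⟩ := hθ
  obtain ⟨s, s', hs, hs', hss⟩ := hε
  have hM2 : M ⊓ Mθ ∈ D.N := D.inf M hM Mθ hMθ
  have hsq : ∀ (χ : Subgroup.closure D.S →* ℂˣ) (c : Subgroup.closure D.S), χ c * χ c = 1 := sq_one_G2 D
  by_cases hc : ∀ c : Subgroup.closure D.S, (c : Γ) ∈ M ⊓ Mθ → ε c = 1
  · -- the main case
    have hc' : ∀ c : Subgroup.closure D.S, (c : Γ) ∈ M ⊓ Mθ → (ε * thC D θ) c = 1 := by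
      intro c hcM
      rw [MonoidHom.mul_apply, hc c hcM, one_mul]
      exact hθM c hcM.2
    have hn : (M ⊓ Mθ).Normal := D.normal _ hM2
    have hfi : (M ⊓ Mθ).FiniteIndex := D.fin _ hM2
    have hρ : ∀ g ∈ M ⊓ Mθ, ρ g = 1 := fun g hg => h g hg.1
    have e1 := wt_avg ρ hn hfi hρ ε hc
    have e2 := wt_avg ρ hn hfi hρ (ε * thC D θ) hc'
    set N : Subgroup (Subgroup.closure D.S) := (M ⊓ Mθ).subgroupOf (Subgroup.closure D.S) with hN
    have hNn : N.Normal := inferInstance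
    have hNf : N.FiniteIndex := inferInstance
    have hQ : Finite (Subgroup.closure D.S ⧸ N) := Subgroup.finite_quotient_of_finiteIndex
    have := Fintype.ofFinite (Subgroup.closure D.S ⧸ N)
    have hcard : (Nat.card (Subgroup.closure D.S ⧸ N) : ℂ) ≠ 0 := by
      have : Nat.card (Subgroup.closure D.S ⧸ N) ≠ 0 := Nat.card_pos.ne'
      exact_mod_cast this
    have hinv : ∀ (χ : Subgroup.closure D.S →* ℂˣ) (c : Subgroup.closure D.S),
        (((χ c)⁻¹ : ℂˣ) : ℂ) = ((χ c : ℂˣ) : ℂ) := by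
      intro χ c
      rw [inv_eq_of_mul_eq_one_left (hsq χ c)]
    -- the twisted symmetric part
    obtain ⟨a, b, hab⟩ := (mem_pdp D θ).1 hv
    obtain ⟨M1, hM1, m, n, U, e, ψ, ψ', hU, hsum⟩ := pd_explicit D ⟨M, hM⟩ hab
    let w : Γ → ℂ := fun g => LinearMap.trace ℂ V (ρ g) - a - b * ((θ g : ℂˣ) : ℂ)
    have hw : ∀ c ∈ Subgroup.closure D.S, ((θ c : ℂˣ) : ℂ) * w c = w c⁻¹ := by
      intro c hc0
      change _ * (LinearMap.trace ℂ V (ρ c) - a - b * ((θ c : ℂˣ) : ℂ)) =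
        LinearMap.trace ℂ V (ρ c⁻¹) - a - b * ((θ c⁻¹ : ℂˣ) : ℂ)
      have hs1 := hsum c
      have hs2 := hsum c⁻¹
      rw [hs1, hs2, Finset.mul_sum]
      refine Finset.sum_congr rfl fun i _ => ?_
      obtain ⟨hi1, ⟨hi2, hi3, hi4, hi5⟩, hi6⟩ := hU i
      have hfin : (U i).FiniteIndex := fin_of_N D hM1 hi1
      rcases hi4 with hi4 | ⟨hi4, hi7⟩
      · have k1 : ∀ x ∈ Subgroup.closure D.S,
            Ind (U i) (exz (U i) (chr (ψ i))) x = Ind (U i) (exz (U i) (chr (ψ' i))) x :=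
          ind_one'_G2 D hfin hi2 hi4 (ψ i) (ψ' i) hi5
        rw [k1 c hc0, k1 c⁻¹ (Subgroup.inv_mem _ hc0), sub_self, sub_self, mul_zero, mul_zero]
      · have k1 : ((θ c : ℂˣ) : ℂ) * Ind (U i) (exz (U i) (chr (ψ i))) c = Ind (U i) (exz (U i) (chr (ψ i))) c⁻¹ ∧
            ((θ c : ℂˣ) : ℂ) * Ind (U i) (exz (U i) (chr (ψ' i))) c = Ind (U i) (exz (U i) (chr (ψ' i))) c⁻¹ := by
          refine ⟨ind_tw'_G2 D hθS hfin hi2 hi4 (ψ i) hi7 c hc0,
            ind_tw'_G2 D hθS hfin hi2 hi4 (ψ' i) (fun x hx hxS => ?_) c hc0⟩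
          rw [← hi5 x hx hxS, hi7 x hx hxS]
        rw [← k1.1, ← k1.2]
        ring
    have hwN : ∀ (c : Subgroup.closure D.S), ∀ x ∈ N, w ((c * x : Subgroup.closure D.S) : Γ) = w (c : Γ) := by
      intro c x hx
      have hx' : (x : Γ) ∈ M ⊓ Mθ := hx
      change LinearMap.trace ℂ V (ρ ((c * x : Subgroup.closure D.S) : Γ)) - a -
        b * ((θ ((c * x : Subgroup.closure D.S) : Γ) : ℂˣ) : ℂ) = LinearMap.trace ℂ V (ρ c) - a - b * ((θ c : ℂˣ) : ℂ)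
      rw [Subgroup.coe_mul, map_mul ρ, map_mul θ, hρ _ hx', hθM _ hx'.2, mul_one, mul_one]
    -- sums of `w`
    have hD : ∑ᶠ q : Subgroup.closure D.S ⧸ N, ((ε q.out : ℂˣ) : ℂ) * w (q.out : Subgroup.closure D.S) =
        ∑ᶠ q : Subgroup.closure D.S ⧸ N, (((ε * thC D θ) q.out : ℂˣ) : ℂ) * w (q.out : Subgroup.closure D.S) := by
      rw [← sum_inv_G2 hNn (fun c : Subgroup.closure D.S => ((ε c : ℂˣ) : ℂ) * w (c : Γ)) (fun c x hx => by
        rw [hwN c x hx, map_mul, hc x hx, mul_one])]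
      refine finsum_congr fun q => ?_
      rw [MonoidHom.mul_apply, Units.val_mul, mul_assoc, thC_apply, hw _ (q.out : Subgroup.closure D.S).2]
      rw [map_inv, hinv ε, Subgroup.coe_inv]
    -- sums of characters
    have hne : ε ≠ 1 := by
      intro h1
      apply hss
      rw [h1]
      rfl
    have hne' : ε * thC D θ ≠ 1 := by
      intro h1
      apply hss
      have k : ∀ x : Subgroup.closure D.S, (x : Γ) ∈ D.S → ε x = -1 := by
        intro x hx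
        have h2 := congrArg (fun f : Subgroup.closure D.S →* ℂˣ => f x) h1
        rw [MonoidHom.mul_apply, thC_apply, hθS _ hx, MonoidHom.one_apply, mul_neg, mul_one] at h2
        rw [← h2, neg_neg]
      rw [k s hs, k s' hs']
    have z1 := sum_zero_G2 hNn hNf ε (fun x hx => hc x hx) hne
    have z2 := sum_zero_G2 hNn hNf (ε * thC D θ) (fun x hx => hc' x hx) hne'
    have hθθ : ∀ c : Subgroup.closure D.S, ((θ (c : Γ) : ℂˣ) : ℂ) * ((θ (c : Γ) : ℂˣ) : ℂ) = 1 := by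
      intro c
      exact congrArg Units.val (hsq (thC D θ) c)
    -- conclusion
    have t1 : ∑ᶠ q : Subgroup.closure D.S ⧸ N, (((ε q.out)⁻¹ : ℂˣ) : ℂ) *
        LinearMap.trace ℂ V (ρ (q.out : Subgroup.closure D.S)) =
        ∑ᶠ q : Subgroup.closure D.S ⧸ N, ((ε q.out : ℂˣ) : ℂ) * w (q.out : Subgroup.closure D.S) := by
      rw [finsum_eq_sum_of_fintype] at z1 z2 ⊢
      rw [finsum_eq_sum_of_fintype]
      have : ∀ q : Subgroup.closure D.S ⧸ N, (((ε q.out)⁻¹ : ℂˣ) : ℂ) *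
          LinearMap.trace ℂ V (ρ (q.out : Subgroup.closure D.S)) =
          ((ε q.out : ℂˣ) : ℂ) * w (q.out : Subgroup.closure D.S) + a * ((ε q.out : ℂˣ) : ℂ) +
          b * (((ε * thC D θ) q.out : ℂˣ) : ℂ) := by
        intro q
        rw [hinv ε, MonoidHom.mul_apply, thC_apply, Units.val_mul]
        change _ = ((ε q.out : ℂˣ) : ℂ) * (LinearMap.trace ℂ V (ρ (q.out : Subgroup.closure D.S)) - a -
          b * ((θ (q.out : Subgroup.closure D.S) : ℂˣ) : ℂ)) + _ + _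
        ring
      rw [Finset.sum_congr rfl fun q _ => this q, Finset.sum_add_distrib, Finset.sum_add_distrib, ← Finset.mul_sum,
        ← Finset.mul_sum, z1, z2, mul_zero, mul_zero, add_zero, add_zero]
    have t2 : ∑ᶠ q : Subgroup.closure D.S ⧸ N, ((((ε * thC D θ) q.out)⁻¹ : ℂˣ) : ℂ) *
        LinearMap.trace ℂ V (ρ (q.out : Subgroup.closure D.S)) =
        ∑ᶠ q : Subgroup.closure D.S ⧸ N, (((ε * thC D θ) q.out : ℂˣ) : ℂ) * w (q.out : Subgroup.closure D.S) := by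
      rw [finsum_eq_sum_of_fintype] at z1 z2 ⊢
      rw [finsum_eq_sum_of_fintype]
      have : ∀ q : Subgroup.closure D.S ⧸ N, ((((ε * thC D θ) q.out)⁻¹ : ℂˣ) : ℂ) *
          LinearMap.trace ℂ V (ρ (q.out : Subgroup.closure D.S)) =
          (((ε * thC D θ) q.out : ℂˣ) : ℂ) * w (q.out : Subgroup.closure D.S) +
          a * (((ε * thC D θ) q.out : ℂˣ) : ℂ) + b * ((ε q.out : ℂˣ) : ℂ) := by
        intro q
        rw [hinv (ε * thC D θ), MonoidHom.mul_apply, thC_apply, Units.val_mul]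
        change _ = ((ε q.out : ℂˣ) : ℂ) * ((θ (q.out : Subgroup.closure D.S) : ℂˣ) : ℂ) *
          (LinearMap.trace ℂ V (ρ (q.out : Subgroup.closure D.S)) - a -
          b * ((θ (q.out : Subgroup.closure D.S) : ℂˣ) : ℂ)) + _ + _
        linear_combination (b * ((ε q.out : ℂˣ) : ℂ)) * hθθ q.out
      rw [Finset.sum_congr rfl fun q _ => this q, Finset.sum_add_distrib, Finset.sum_add_distrib, ← Finset.mul_sum,
        ← Finset.mul_sum, z1, z2, mul_zero, mul_zero, add_zero, add_zero]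
    rw [t1] at e1
    rw [t2, ← hD, e1] at e2
    have := mul_left_cancel₀ hcard e2
    exact_mod_cast this
  · -- both weight spaces are zero
    push Not at hc
    obtain ⟨c, hcM, hcε⟩ := hc
    have key : ∀ χ : Subgroup.closure D.S →* ℂˣ, χ c ≠ 1 → Wt ρ (Subgroup.closure D.S) χ = ⊥ := by
      intro χ hχ
      rw [eq_bot_iff]
      intro x hx
      have h1 := hx c
      rw [h c hcM.1] at h1
      have h2 : (1 - ((χ c : ℂˣ) : ℂ)) • x = 0 := by
        rw [sub_smul, one_smul, ← h1]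
        exact sub_self x
      rcases smul_eq_zero.1 h2 with h3 | h3
      · exfalso
        apply hχ
        apply Units.ext
        rw [Units.val_one]
        linear_combination -h3
      · exact h3
    rw [key ε hcε, key (ε * thC D θ) (by
      rw [MonoidHom.mul_apply, thC_apply, hθM c hcM.2, mul_one]
      exact hcε)]

end SB
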