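import Pool.Agent.Helper68.OP.A1
import Pool.Agent.Helper68.OP.A2
import Pool.Agent.Helper21.RB.E2

namespace SB

universe u v

namespace G3

/-- The linear representation attached to a matrix representation. -/
noncomputable def lin {G : Type*} [Group G] {d : ℕ} (ρ : Rp G d) : G →* ((Fin d → ℂ) →ₗ[ℂ] (Fin d → ℂ)) where
  toFun g := Matrix.toLin' (ρ g : Matrix (Fin d) (Fin d) ℂ)
  map_one' := by simp [Matrix.toLin'_one, Module.End.one_eq_id]
  map_mul' a b := by simp [Matrix.toLin'_mul, Module.End.mul_eq_comp]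

theorem trace_lin {G : Type*} [Group G] {d : ℕ} (ρ : Rp G d) (g : G) :
    LinearMap.trace ℂ (Fin d → ℂ) (lin ρ g) = chr ρ g := by
  simp [lin, chr, Matrix.trace_toLin'_eq]

theorem lin_one {G : Type*} [Group G] {d : ℕ} (ρ : Rp G d) {g : G} (h : ρ g = 1) : lin ρ g = 1 := by
  change Matrix.toLin' (ρ g : Matrix (Fin d) (Fin d) ℂ) = 1
  rw [h]
  simp [Matrix.toLin'_one, Module.End.one_eq_id]

variable {Γ : Type u} [Group Γ] {V : Type v} [AddCommGroup V] [Module ℂ V]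

theorem occurs_fin [FiniteDimensional ℂ V] (ρ : Γ →* (V →ₗ[ℂ] V)) {M N : Subgroup Γ} (hM : M.Normal)
    (hf : M.FiniteIndex) (hMN : M ≤ N) (hN : N.Normal) (hρ : ∀ g ∈ M, ρ g = 1)
    {X : Submodule ℂ V} (hX : IrrOn ρ N X) {ι : Type} [Fintype ι] (n : ι → ℤ) (U : ι → Subgroup Γ)
    (hU : ∀ i, N ≤ U i) (e : ι → ℕ) (ψ : ∀ i, Rp (U i) (e i))
    (hψ : ∀ i (u : U i), (u : Γ) ∈ M → ψ i u = 1)
    (hv : ∀ g ∈ N, LinearMap.trace ℂ V (ρ g) = ∑ i, (n i : ℂ) * Ind (U i) (exz (U i) (chr (ψ i))) g) :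
    ∃ (i : ι) (x : Γ) (Z : Submodule ℂ (Fin (e i) → ℂ)), IrrOn (lin (ψ i)) (N.subgroupOf (U i)) Z ∧
      Module.finrank ℂ X = Module.finrank ℂ Z ∧
      ∀ g ∈ N, ∀ h : x⁻¹ * g * x ∈ U i,
        trx ρ N X g = trx (lin (ψ i)) (N.subgroupOf (U i)) Z ⟨x⁻¹ * g * x, h⟩ := by
  obtain ⟨k, x, Z, h1, h2, h3⟩ := occurs ρ hM hf hMN hN hρ hX (fun k => n ((Fintype.equivFin ι).symm k))
    (fun k => U ((Fintype.equivFin ι).symm k)) (fun k => hU _) (fun k => e ((Fintype.equivFin ι).symm k))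
    (fun k => lin (ψ ((Fintype.equivFin ι).symm k))) (fun k u hu => lin_one _ (hψ _ u hu)) (by
      intro g hg
      rw [hv g hg, ← (Fintype.equivFin ι).symm.sum_comp]
      refine Finset.sum_congr rfl fun k _ => ?_
      have e1 : (fun u => LinearMap.trace ℂ _ (lin (ψ ((Fintype.equivFin ι).symm k)) u)) =
          chr (ψ ((Fintype.equivFin ι).symm k)) := funext fun u => trace_lin _ u
      rw [e1])
  exact ⟨_, x, Z, h1, h2, h3⟩

theorem ind_top {f : (⊤ : Subgroup Γ) → ℂ} {F : Γ → ℂ} (h : ∀ g (hg : g ∈ (⊤ : Subgroup Γ)), f ⟨g, hg⟩ = F g)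
    (hF : ∀ g x, F (x⁻¹ * g * x) = F g) (g : Γ) : Ind ⊤ (exz ⊤ f) g = F g := by
  have e1 : ∀ g, exz ⊤ f g = F g := fun g => by
    unfold exz
    rw [dif_pos (Subgroup.mem_top g)]
    exact h g _
  unfold Ind
  have hs : Subsingleton (Γ ⧸ (⊤ : Subgroup Γ)) := QuotientGroup.subsingleton_quotient_top
  rw [finsum_eq_single _ ((1 : Γ) : Γ ⧸ (⊤ : Subgroup Γ)) fun q hq => absurd (hs.elim _ _) hq, e1, hF]

end G3

open G3

variable {Γ : Type u} [Group Γ] {V : Type v} [AddCommGroup V] [Module ℂ V]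

/-- OP-G4. -/
theorem conv_irr [FiniteDimensional ℂ V] (D : Sys Γ) {θ : Γ →* ℂˣ} (hθ : Sgn D θ) {M : Subgroup Γ} (hM : M ∈ D.N)
    (ρ : Γ →* (V →ₗ[ℂ] V)) (h : ∀ g ∈ M, ρ g = 1) (hv : (fun g => LinearMap.trace ℂ V (ρ g)) ∈ PDp D θ)
    {X : Submodule ℂ V} (hX : IrrOn ρ (Subgroup.closure D.S) X) :
    Module.finrank ℂ X = 1 ∨ (Module.finrank ℂ X = 2 ∧
      ∀ s ∈ D.S, ∀ h : ∀ v ∈ X, ρ s v ∈ X, LinearMap.trace ℂ X ((ρ s).restrict h) = 0) := by
  obtain ⟨a, b, hab⟩ := (mem_pdp D θ).1 hv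
  obtain ⟨M1, hM1, m, n, U, e, ψ, ψ', hψ, hsum⟩ := pd_explicit D ⟨M, hM⟩ hab
  obtain ⟨⟨Mθ, hMθ, hθ1⟩, hθ2⟩ := hθ
  have hM2 : M ⊓ M1 ⊓ Mθ ∈ D.N := D.inf _ (D.inf _ hM _ hM1) _ hMθ
  set M2 : Subgroup Γ := M ⊓ M1 ⊓ Mθ with hM2d
  have hCn : (Subgroup.closure D.S).Normal := by
    have : Subgroup.closure D.S = Subgroup.normalClosure D.S := by
      refine le_antisymm (Subgroup.closure_le_normalClosure) ?_
      rw [Subgroup.normalClosure]
      refine Subgroup.closure_mono fun x hx => ?_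
      obtain ⟨s, hs, hx⟩ := Group.mem_conjugatesOfSet_iff.1 hx
      obtain ⟨c, rfl⟩ := isConj_iff.1 hx
      exact D.conj s hs c
    rw [this]
    exact Subgroup.normalClosure_normal
  have hM2n : M2.Normal := D.normal _ hM2
  have hNn : (Subgroup.closure D.S ⊔ M2).Normal := Subgroup.sup_normal _ _
  have hmem : ∀ g ∈ Subgroup.closure D.S ⊔ M2, ∃ c ∈ Subgroup.closure D.S, ∃ y ∈ M2, c * y = g := by
    intro g hg
    have := Subgroup.mul_normal (Subgroup.closure D.S) M2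
    rw [← SetLike.mem_coe, this] at hg
    obtain ⟨c, hc, y, hy, hg⟩ := Set.mem_mul.1 hg
    exact ⟨c, hc, y, hy, hg⟩
  have hρ2 : ∀ g ∈ M2, ρ g = 1 := fun g hg => h g hg.1.1
  have hX2 : IrrOn ρ (Subgroup.closure D.S ⊔ M2) X := by
    refine ⟨hX.1, ?_, fun Y hY hst => hX.2.2 Y hY fun u hu v hv => hst u (Subgroup.mem_sup_left hu) v hv⟩
    intro u hu v hv
    obtain ⟨c, hc, y, hy, rfl⟩ := hmem u hu
    rw [map_mul, hρ2 y hy, mul_one]
    exact hX.2.1 c hc v hv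
  obtain ⟨α, hα, hα1⟩ := exists_rp_one (1 : (⊤ : Subgroup Γ) →* ℂˣ)
  obtain ⟨β, hβ, hβ1⟩ := exists_rp_one (resc (⊤ : Subgroup Γ) θ)
  let nn : (Unit ⊕ Unit) ⊕ (Fin m ⊕ Fin m) → ℤ :=
    Sum.elim (Sum.elim (fun _ => a) (fun _ => b)) (Sum.elim n (fun i => -n i))
  let UU : (Unit ⊕ Unit) ⊕ (Fin m ⊕ Fin m) → Subgroup Γ :=
    Sum.elim (Sum.elim (fun _ => ⊤) (fun _ => ⊤)) (Sum.elim U U)
  let ee : (Unit ⊕ Unit) ⊕ (Fin m ⊕ Fin m) → ℕ :=
    Sum.elim (Sum.elim (fun _ => 1) (fun _ => 1)) (Sum.elim e e)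
  let pp : ∀ i, Rp (UU i) (ee i) := fun i =>
    match i with
    | Sum.inl (Sum.inl _) => α
    | Sum.inl (Sum.inr _) => β
    | Sum.inr (Sum.inl i) => ψ i
    | Sum.inr (Sum.inr i) => ψ' i
  have hSU : ∀ i, Subgroup.closure D.S ⊔ M2 ≤ U i := fun i =>
    sup_le ((Subgroup.closure_le _).2 (hψ i).2.1.1) (le_trans (inf_le_left.trans inf_le_right) (hψ i).1)
  obtain ⟨i, x, Z, hZ, hd, htr⟩ := occurs_fin ρ hM2n (D.fin _ hM2) le_sup_right hNn hρ2 hX2 nn UU
    (by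
      rintro ((i | i) | (i | i))
      · exact le_top
      · exact le_top
      · exact hSU i
      · exact hSU i) ee pp
    (by
      rintro ((i | i) | (i | i)) u hu
      · exact hα1 u rfl
      · refine hβ1 u ?_
        exact hθ1 _ hu.2
      · exact ((hψ i).2.2 u.1 u.2 hu.1.2).1
      · exact ((hψ i).2.2 u.1 u.2 hu.1.2).2)
    (by
      intro g hg
      rw [Fintype.sum_sum_type, Fintype.sum_sum_type, Fintype.sum_sum_type]
      have e1 : LinearMap.trace ℂ V (ρ g) = (LinearMap.trace ℂ V (ρ g) - a - b * ((θ g : ℂˣ) : ℂ)) + a +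
        b * ((θ g : ℂˣ) : ℂ) := by ring
      have e2 := hsum g
      have e3 : Ind ⊤ (exz ⊤ (chr α)) g = 1 :=
        ind_top (F := fun _ => 1) (fun g hg => by rw [hα]; rfl) (fun _ _ => rfl) g
      have e4 : Ind ⊤ (exz ⊤ (chr β)) g = ((θ g : ℂˣ) : ℂ) :=
        ind_top (F := fun g => ((θ g : ℂˣ) : ℂ)) (fun g hg => by rw [hβ]; rfl) (fun g x => by
          rw [map_mul, map_mul, map_inv, mul_comm, mul_inv_cancel_left]) g
      rw [e1]
      change LinearMap.trace ℂ V (ρ g) - a - b * ((θ g : ℂˣ) : ℂ) = _ at e2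
      rw [e2]
      have e5 : ∀ F : Unit → ℂ, ∑ i, F i = F () := fun F => by simp
      rw [e5, e5]
      change _ = (a : ℂ) * Ind ⊤ (exz ⊤ (chr α)) g + (b : ℂ) * Ind ⊤ (exz ⊤ (chr β)) g +
        (∑ i, (n i : ℂ) * Ind (U i) (exz (U i) (chr (ψ i))) g +
          ∑ i, ((-n i : ℤ) : ℂ) * Ind (U i) (exz (U i) (chr (ψ' i))) g)
      rw [e3, e4, ← Finset.sum_add_distrib]
      have e6 : ∑ i, (n i : ℂ) * (Ind (U i) (exz (U i) (chr (ψ i))) g - Ind (U i) (exz (U i) (chr (ψ' i))) g) =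
        ∑ i, ((n i : ℂ) * Ind (U i) (exz (U i) (chr (ψ i))) g +
          ((-n i : ℤ) : ℂ) * Ind (U i) (exz (U i) (chr (ψ' i))) g) := by
        refine Finset.sum_congr rfl fun i _ => ?_
        push_cast
        ring
      rw [e6]
      ring)
  have hZ1 : 1 ≤ Module.finrank ℂ Z := by
    rw [Nat.one_le_iff_ne_zero]
    intro h0
    exact hZ.1 (Submodule.finrank_eq_zero.1 h0)
  have hZ2 : Module.finrank ℂ Z ≤ ee i := by
    have := Submodule.finrank_le Z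
    rwa [Module.finrank_fin_fun] at this
  have key : ee i = 1 ∨ (ee i = 2 ∧ ∀ s (h : s ∈ UU i), s ∈ D.S → chr (pp i) ⟨s, h⟩ = 0) := by
    rcases i with ((i | i) | (i | i))
    · exact Or.inl rfl
    · exact Or.inl rfl
    · rcases (hψ i).2.1.2.2.1 with h1 | ⟨h1, h2⟩
      · exact Or.inl h1
      · exact Or.inr ⟨h1, h2⟩
    · rcases (hψ i).2.1.2.2.1 with h1 | ⟨h1, h2⟩
      · exact Or.inl h1
      · exact Or.inr ⟨h1, fun s hs hsS => by
          change chr (ψ' i) ⟨s, hs⟩ = 0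
          rw [← (hψ i).2.1.2.2.2 s hs hsS]
          exact h2 s hs hsS⟩
  rcases key with h1 | ⟨h1, h2⟩
  · left
    omega
  · by_cases hZe : Module.finrank ℂ Z = 1
    · left
      omega
    · right
      have hZ3 : Module.finrank ℂ Z = 2 := by omega
      refine ⟨by omega, fun s hs hst => ?_⟩
      have hZt : Z = ⊤ := by
        apply Submodule.eq_top_of_finrank_eq
        rw [Module.finrank_fin_fun]
        omega
      have hsN : s ∈ Subgroup.closure D.S ⊔ M2 := Subgroup.mem_sup_left (Subgroup.subset_closure hs)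
      have hxs : x⁻¹ * s * x ∈ D.S := by
        have := D.conj s hs x⁻¹
        rwa [inv_inv] at this
      have hxN : x⁻¹ * s * x ∈ Subgroup.closure D.S ⊔ M2 := Subgroup.mem_sup_left (Subgroup.subset_closure hxs)
      have hxU : x⁻¹ * s * x ∈ UU i := by
        rcases i with ((i | i) | (i | i))
        · exact Subgroup.mem_top _
        · exact Subgroup.mem_top _
        · exact hSU i hxN
        · exact hSU i hxN
      have e1 := htr s hsN hxU
      have e2 : trx ρ (Subgroup.closure D.S ⊔ M2) X s = LinearMap.trace ℂ X ((ρ s).restrict hst) := by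
        unfold trx
        rw [dif_pos ⟨hsN, hst⟩]
      have e3 : trx (lin (pp i)) ((Subgroup.closure D.S ⊔ M2).subgroupOf (UU i)) Z ⟨x⁻¹ * s * x, hxU⟩ =
          chr (pp i) ⟨x⁻¹ * s * x, hxU⟩ := by
        have hst' : ∀ v ∈ Z, lin (pp i) ⟨x⁻¹ * s * x, hxU⟩ v ∈ Z := by
          intro v _
          rw [hZt]
          exact Submodule.mem_top
        unfold trx
        rw [dif_pos ⟨Subgroup.mem_subgroupOf.2 hxN, hst'⟩,
          LinearMap.trace_restrict_eq_of_forall_mem Z _ (fun v => by rw [hZt]; exact Submodule.mem_top), trace_lin]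
      rw [← e2, e1, e3]
      exact h2 _ hxU hxs

end SB
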