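import Pool.Agent.Helper68.OP.Base
import Pool.Agent.Helper21.RB.A

/-!
# Project OP, module G4
-/

namespace SB

universe u v

variable {Γ : Type u} [Group Γ] {V : Type v} [AddCommGroup V] [Module ℂ V]

private theorem mem_Wt_G4 {ρ : Γ →* (V →ₗ[ℂ] V)} {C : Subgroup Γ} {ε : C →* ℂˣ} {v : V} :
    v ∈ Wt ρ C ε ↔ ∀ c : C, ρ c v = ((ε c : ℂˣ) : ℂ) • v := Iff.rfl

/-- Two weights of a nonzero vector are equal. -/
private theorem wt_eq_G4 {ρ : Γ →* (V →ₗ[ℂ] V)} {C : Subgroup Γ} {ε ε' : C →* ℂˣ} {v : V}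
    (h : v ∈ Wt ρ C ε) (h' : v ∈ Wt ρ C ε') (h0 : v ≠ 0) : ε = ε' := by
  ext c
  have h1 := mem_Wt_G4.1 h c
  have h2 := mem_Wt_G4.1 h' c
  rw [h1] at h2
  have h3 : (((ε c : ℂˣ) : ℂ) - ((ε' c : ℂˣ) : ℂ)) • v = 0 := by
    rw [sub_smul, h2, sub_self]
  rcases smul_eq_zero.1 h3 with h4 | h4
  · exact sub_eq_zero.1 h4
  · exact absurd h4 h0

private theorem wt_stb_G4 (ρ : Γ →* (V →ₗ[ℂ] V)) (C : Subgroup Γ) (ε : C →* ℂˣ) {Y : Submodule ℂ V}
    (hY : Y ≤ Wt ρ C ε) : Stb ρ C Y := by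
  intro u hu v hv
  have h1 := mem_Wt_G4.1 (hY hv) ⟨u, hu⟩
  have h2 : ρ u v = ((ε ⟨u, hu⟩ : ℂˣ) : ℂ) • v := h1
  rw [h2]
  exact Y.smul_mem _ hv

/-- A stable line is contained in a weight space. -/
private theorem line_G4 (ρ : Γ →* (V →ₗ[ℂ] V)) (C : Subgroup Γ) {X : Submodule ℂ V} (hX : Stb ρ C X)
    (h1 : Module.finrank ℂ X = 1) : ∃ ε : C →* ℂˣ, X ≤ Wt ρ C ε := by
  obtain ⟨x, hx0, hx⟩ := finrank_eq_one_iff'.1 h1
  have hx0' : (x : V) ≠ 0 := fun h => hx0 (Subtype.ext h)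
  have hex : ∀ c : C, ∃ a : ℂ, ρ c x = a • (x : V) := by
    intro c
    obtain ⟨a, ha⟩ := hx ⟨ρ c x, hX c c.2 x x.2⟩
    refine ⟨a, ?_⟩
    have := congrArg (Subtype.val) ha
    exact this.symm
  choose a ha using hex
  have huniq : ∀ (b b' : ℂ), b • (x : V) = b' • (x : V) → b = b' := by
    intro b b' h
    have h3 : (b - b') • (x : V) = 0 := by rw [sub_smul, h, sub_self]
    rcases smul_eq_zero.1 h3 with h4 | h4
    · exact sub_eq_zero.1 h4
    · exact absurd h4 hx0'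
  have hmul : ∀ c c' : C, a (c * c') = a c * a c' := by
    intro c c'
    apply huniq
    rw [← ha, Subgroup.coe_mul, map_mul, Module.End.mul_apply, ha c', map_smul, ha c, smul_smul, mul_comm]
  have hone : a 1 = 1 := by
    apply huniq
    rw [← ha, Subgroup.coe_one, map_one, one_smul]
    rfl
  let f : C →* ℂ := ⟨⟨a, hone⟩, hmul⟩
  refine ⟨f.toHomUnits, fun v hv => ?_⟩
  rw [mem_Wt_G4]
  intro c
  obtain ⟨b, hb⟩ := hx ⟨v, hv⟩
  have hb' : b • (x : V) = v := congrArg Subtype.val hb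
  have hf : ((f.toHomUnits c : ℂˣ) : ℂ) = a c := rfl
  rw [hf, ← hb', map_smul, ha c, smul_smul, smul_smul, mul_comm]

/-- Stable complement inside a stable subspace. -/
private theorem compl_in_G4 [FiniteDimensional ℂ V] (ρ : Γ →* (V →ₗ[ℂ] V)) {M : Subgroup Γ} (hM : M.Normal)
    (hf : M.FiniteIndex) (hρ : ∀ g ∈ M, ρ g = 1) (U : Subgroup Γ) {X Z : Submodule ℂ V} (hX : Stb ρ U X)
    (hZ : Stb ρ U Z) (hXZ : X ≤ Z) : ∃ Z' : Submodule ℂ V, Stb ρ U Z' ∧ Disjoint X Z' ∧ X ⊔ Z' = Z := by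
  obtain ⟨W, hW, hc⟩ := exists_compl ρ hM hf hρ U hX
  refine ⟨W ⊓ Z, fun u hu v hv => ⟨hW u hu v hv.1, hZ u hu v hv.2⟩, hc.disjoint.mono_right inf_le_left, ?_⟩
  rw [← sup_inf_assoc_of_le W hXZ, hc.sup_eq_top, top_inf_eq]

/-- The weight spaces of a direct sum. -/
private theorem wt_sum_G4 [FiniteDimensional ℂ V] (ρ : Γ →* (V →ₗ[ℂ] V)) (C : Subgroup Γ) {X Z : Submodule ℂ V}
    (hX : Stb ρ C X) (hZ : Stb ρ C Z) (hd : Disjoint X Z) (ε : C →* ℂˣ) :
    Module.finrank ℂ (Wt ρ C ε ⊓ (X ⊔ Z) : Submodule ℂ V) =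
      Module.finrank ℂ (Wt ρ C ε ⊓ X : Submodule ℂ V) + Module.finrank ℂ (Wt ρ C ε ⊓ Z : Submodule ℂ V) := by
  have h1 : (Wt ρ C ε ⊓ (X ⊔ Z) : Submodule ℂ V) = (Wt ρ C ε ⊓ X) ⊔ (Wt ρ C ε ⊓ Z) := by
    refine le_antisymm ?_ (sup_le (inf_le_inf_left _ le_sup_left) (inf_le_inf_left _ le_sup_right))
    rintro v ⟨hv, hv'⟩
    obtain ⟨x, hx, z, hz, rfl⟩ := Submodule.mem_sup.1 hv'
    have key : ∀ c : C, ρ c x = ((ε c : ℂˣ) : ℂ) • x ∧ ρ c z = ((ε c : ℂˣ) : ℂ) • z := by
      intro c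
      have h2 := mem_Wt_G4.1 hv c
      rw [map_add, smul_add] at h2
      have h3 : ρ c x - ((ε c : ℂˣ) : ℂ) • x = ((ε c : ℂˣ) : ℂ) • z - ρ c z := by
        rw [sub_eq_sub_iff_add_eq_add, h2, add_comm]
      have h4 : ρ c x - ((ε c : ℂˣ) : ℂ) • x ∈ X := X.sub_mem (hX c c.2 x hx) (X.smul_mem _ hx)
      have h5 : ρ c x - ((ε c : ℂˣ) : ℂ) • x ∈ Z := by
        rw [h3]
        exact Z.sub_mem (Z.smul_mem _ hz) (hZ c c.2 z hz)
      have h6 : ρ c x - ((ε c : ℂˣ) : ℂ) • x = 0 := (Submodule.disjoint_def.1 hd) _ h4 h5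
      refine ⟨sub_eq_zero.1 h6, ?_⟩
      rw [h6] at h3
      exact (sub_eq_zero.1 h3.symm).symm
    exact Submodule.add_mem_sup ⟨fun c => (key c).1, hx⟩ ⟨fun c => (key c).2, hz⟩
  have h2 := Submodule.finrank_sup_add_finrank_inf_eq (Wt ρ C ε ⊓ X : Submodule ℂ V) (Wt ρ C ε ⊓ Z)
  have h3 : (Wt ρ C ε ⊓ X) ⊓ (Wt ρ C ε ⊓ Z) = (⊥ : Submodule ℂ V) :=
    (hd.mono inf_le_right inf_le_right).eq_bot
  rw [h1]
  rw [h3, finrank_bot, add_zero] at h2
  exact h2

/-- Adding a piece to a sum. -/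
private theorem add_piece_G4 {ρ : Γ →* (V →ₗ[ℂ] V)} {S : Set Γ} {Y Z : Submodule ℂ V} (hY : OddPiece ρ S Y)
    (hZ : OddSum ρ S Z) (hd : Disjoint Y Z) : OddSum ρ S (Y ⊔ Z) := by
  obtain ⟨m, X, hi, hs, hp⟩ := hZ
  refine ⟨m + 1, Fin.cons Y X, ?_, ?_, ?_⟩
  · intro i
    refine Fin.cases ?_ (fun k => ?_) i
    · rw [Fin.cons_zero]
      refine hd.mono_right (iSup₂_le fun j hj => ?_)
      obtain ⟨j', rfl⟩ := Fin.exists_succ_eq.2 hj
      rw [Fin.cons_succ, ← hs]
      exact le_iSup X j'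
    · rw [Fin.cons_succ]
      have h1 : (⨆ j, ⨆ (_ : j ≠ k.succ), (Fin.cons Y X : Fin (m + 1) → Submodule ℂ V) j) ≤
          (⨆ j, ⨆ (_ : j ≠ k), X j) ⊔ Y := by
        refine iSup₂_le fun j hj => ?_
        revert hj
        refine Fin.cases ?_ (fun l => ?_) j
        · intro _
          rw [Fin.cons_zero]
          exact le_sup_right
        · intro hl
          rw [Fin.cons_succ]
          have hl' : l ≠ k := fun h => hl (congrArg Fin.succ h)
          exact le_sup_of_le_left (le_iSup₂_of_le l hl' le_rfl)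
      refine Disjoint.mono_right h1 ?_
      refine Disjoint.disjoint_sup_right_of_disjoint_sup_left (hi k) ?_
      refine hd.symm.mono_left ?_
      rw [← hs]
      exact sup_le (le_iSup X k) (iSup₂_le fun j _ => le_iSup X j)
  · refine le_antisymm (iSup_le fun j => ?_) (sup_le ?_ ?_)
    · refine Fin.cases ?_ (fun l => ?_) j
      · rw [Fin.cons_zero]; exact le_sup_left
      · rw [Fin.cons_succ, ← hs]; exact le_sup_of_le_right (le_iSup X l)
    · exact le_iSup (Fin.cons Y X : Fin (m + 1) → Submodule ℂ V) 0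
    · rw [← hs]
      exact iSup_le fun l => le_iSup (Fin.cons Y X : Fin (m + 1) → Submodule ℂ V) l.succ
  · intro i
    refine Fin.cases ?_ (fun k => ?_) i
    · rw [Fin.cons_zero]; exact hY
    · rw [Fin.cons_succ]; exact hp k

/-- The weights of a line. -/
private theorem line_inf_G4 {ρ : Γ →* (V →ₗ[ℂ] V)} {C : Subgroup Γ} {ε₀ : C →* ℂˣ} {L : Submodule ℂ V}
    (h1 : Module.finrank ℂ L = 1) (hL : L ≤ Wt ρ C ε₀) (ε : C →* ℂˣ) [Decidable (ε = ε₀)] :
    Module.finrank ℂ (Wt ρ C ε ⊓ L : Submodule ℂ V) = if ε = ε₀ then 1 else 0 := by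
  by_cases h : ε = ε₀
  · rw [if_pos h, h, inf_eq_right.2 hL, h1]
  · rw [if_neg h]
    have h2 : (Wt ρ C ε ⊓ L : Submodule ℂ V) = ⊥ := by
      rw [eq_bot_iff]
      rintro v ⟨hv, hv'⟩
      rw [Submodule.mem_bot]
      by_contra h0
      exact h (wt_eq_G4 hv (hL hv') h0)
    rw [h2, finrank_bot]

/-- The trace of an operator diagonal on the sum of two lines. -/
private theorem trace_two_G4 (f : V →ₗ[ℂ] V) {x y : V} {a b : ℂ} (hx : f x = a • x) (hy : f y = b • y)
    {Y : Submodule ℂ V} (hxY : x ∈ Y) (hyY : y ∈ Y) (hlin : LinearIndependent ℂ ![x, y])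
    (h2 : Module.finrank ℂ Y = 2) (h : ∀ v ∈ Y, f v ∈ Y) : LinearMap.trace ℂ Y (f.restrict h) = a + b := by
  classical
  have hli : LinearIndependent ℂ ![(⟨x, hxY⟩ : Y), ⟨y, hyY⟩] := by
    apply LinearIndependent.of_comp Y.subtype
    have : (Y.subtype : Y → V) ∘ ![(⟨x, hxY⟩ : Y), ⟨y, hyY⟩] = ![x, y] := by
      funext i
      fin_cases i <;> rfl
    rw [this]
    exact hlin
  let B := basisOfLinearIndependentOfCardEqFinrank hli (by rw [h2]; rfl)
  have hB : ∀ i, B i = ![(⟨x, hxY⟩ : Y), ⟨y, hyY⟩] i := by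
    intro i
    rw [coe_basisOfLinearIndependentOfCardEqFinrank]
  have hf0 : (f.restrict h) (B 0) = a • B 0 := by
    rw [hB 0]
    apply Subtype.ext
    exact hx
  have hf1 : (f.restrict h) (B 1) = b • B 1 := by
    rw [hB 1]
    apply Subtype.ext
    exact hy
  rw [LinearMap.trace_eq_matrix_trace ℂ B, Matrix.trace_fin_two, LinearMap.toMatrix_apply,
    LinearMap.toMatrix_apply, hf0, hf1, map_smul, map_smul, Finsupp.smul_apply, Finsupp.smul_apply,
    B.repr_self, B.repr_self, Finsupp.single_eq_same, Finsupp.single_eq_same, smul_eq_mul, smul_eq_mul,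
    mul_one, mul_one]

/-- The square of the sign character is trivial on the group generated by `S`. -/
private theorem thC_sq_G4 (D : Sys Γ) {θ : Γ →* ℂˣ} (hθ : ∀ s ∈ D.S, θ s = -1)
    (ε : Subgroup.closure D.S →* ℂˣ) : ε * thC D θ * thC D θ = ε := by
  apply MonoidHom.ext
  intro c
  have h1 : Set.EqOn (θ * θ : Γ →* ℂˣ) (1 : Γ →* ℂˣ) (Subgroup.closure D.S : Set Γ) := by
    apply MonoidHom.eqOn_closure
    intro s hs
    rw [MonoidHom.mul_apply, hθ s hs, MonoidHom.one_apply, neg_mul_neg, one_mul]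
  have h2 := h1 c.2
  rw [MonoidHom.mul_apply, MonoidHom.one_apply] at h2
  rw [MonoidHom.mul_apply, MonoidHom.mul_apply, thC_apply, mul_assoc, h2, mul_one]

/-- `ε` takes two values on `S`. -/
private def NC_G4 (D : Sys Γ) (ε : Subgroup.closure D.S →* ℂˣ) : Prop :=
  ∃ (s s' : Subgroup.closure D.S), (s : Γ) ∈ D.S ∧ (s' : Γ) ∈ D.S ∧ ε s ≠ ε s'

private theorem NC_mul_G4 (D : Sys Γ) {θ : Γ →* ℂˣ} (hθ : ∀ s ∈ D.S, θ s = -1)
    {ε : Subgroup.closure D.S →* ℂˣ} (h : NC_G4 D ε) : NC_G4 D (ε * thC D θ) := by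
  obtain ⟨s, s', hs, hs', hne⟩ := h
  refine ⟨s, s', hs, hs', fun h => hne ?_⟩
  rw [MonoidHom.mul_apply, MonoidHom.mul_apply, thC_apply, thC_apply, hθ _ hs, hθ _ hs'] at h
  exact mul_right_cancel h

/-- The induction. -/
private theorem main_G4 [FiniteDimensional ℂ V] (D : Sys Γ) {θ : Γ →* ℂˣ} (hθ : ∀ s ∈ D.S, θ s = -1)
    {M : Subgroup Γ} (hM : M ∈ D.N) (ρ : Γ →* (V →ₗ[ℂ] V)) (h : ∀ g ∈ M, ρ g = 1)
    (h1 : ∀ X : Submodule ℂ V, IrrOn ρ (Subgroup.closure D.S) X →
      Module.finrank ℂ X = 1 ∨ (Module.finrank ℂ X = 2 ∧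
        ∀ s ∈ D.S, ∀ h : ∀ v ∈ X, ρ s v ∈ X, LinearMap.trace ℂ X ((ρ s).restrict h) = 0)) :
    ∀ (n : ℕ) (Z : Submodule ℂ V), Module.finrank ℂ Z = n → Stb ρ (Subgroup.closure D.S) Z →
      (∀ ε : Subgroup.closure D.S →* ℂˣ, NC_G4 D ε →
        Module.finrank ℂ (Wt ρ (Subgroup.closure D.S) ε ⊓ Z : Submodule ℂ V) =
          Module.finrank ℂ (Wt ρ (Subgroup.closure D.S) (ε * thC D θ) ⊓ Z : Submodule ℂ V)) →
      OddSum ρ D.S Z := by
  classical
  intro n
  induction n using Nat.strong_induction_on with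
  | _ n ih =>
    intro Z hn hZ hW
    by_cases hbot : Z = ⊥
    · refine ⟨0, fun i => i.elim0, fun i => i.elim0, ?_, fun i => i.elim0⟩
      rw [hbot]
      exact iSup_of_empty _
    -- the step for a piece
    have step : ∀ Y : Submodule ℂ V, Y ≤ Z → Y ≠ ⊥ → Stb ρ (Subgroup.closure D.S) Y → OddPiece ρ D.S Y →
        (∀ ε : Subgroup.closure D.S →* ℂˣ, NC_G4 D ε →
          Module.finrank ℂ (Wt ρ (Subgroup.closure D.S) ε ⊓ Y : Submodule ℂ V) =
            Module.finrank ℂ (Wt ρ (Subgroup.closure D.S) (ε * thC D θ) ⊓ Y : Submodule ℂ V)) →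
        OddSum ρ D.S Z := by
      intro Y hYZ hY0 hY hp hWY
      obtain ⟨Z', hZ', hd, hs⟩ := compl_in_G4 ρ (D.normal M hM) (D.fin M hM) h (Subgroup.closure D.S) hY hZ hYZ
      have hlt : Module.finrank ℂ Z' < n := by
        have h2 := Submodule.finrank_sup_add_finrank_inf_eq Y Z'
        rw [hd.eq_bot, finrank_bot, add_zero, hs, hn] at h2
        have h3 : 0 < Module.finrank ℂ Y := by
          rw [Nat.pos_iff_ne_zero]
          intro h4
          exact hY0 (Submodule.finrank_eq_zero.1 h4)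
        omega
      have h5 := ih _ hlt Z' rfl hZ' (by
        intro ε hε
        have h6 := hW ε hε
        have h7 := hWY ε hε
        rw [← hs, wt_sum_G4 ρ _ hY hZ' hd, wt_sum_G4 ρ _ hY hZ' hd] at h6
        omega)
      rw [← hs]
      exact add_piece_G4 hp h5 hd
    obtain ⟨X, hXZ, hX⟩ := exists_irr ρ (Subgroup.closure D.S) hZ hbot
    rcases h1 X hX with hx1 | ⟨hx2, htr⟩
    · obtain ⟨ε₀, hε₀⟩ := line_G4 ρ (Subgroup.closure D.S) hX.2.1 hx1
      by_cases hnc : NC_G4 D ε₀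
      · -- a nonconstant line
        have hS : ∃ s, s ∈ D.S := by
          obtain ⟨s, -, hs, -⟩ := hnc
          exact ⟨s, hs⟩
        have hpos : 0 < Module.finrank ℂ (Wt ρ (Subgroup.closure D.S) ε₀ ⊓ Z : Submodule ℂ V) := by
          refine lt_of_lt_of_le Nat.one_pos ?_
          rw [← hx1]
          exact Submodule.finrank_mono (le_inf hε₀ hXZ)
        rw [hW ε₀ hnc] at hpos
        have hne : (Wt ρ (Subgroup.closure D.S) (ε₀ * thC D θ) ⊓ Z : Submodule ℂ V) ≠ ⊥ := by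
          intro h2
          rw [h2, finrank_bot] at hpos
          exact lt_irrefl _ hpos
        obtain ⟨v', hv', hv0⟩ := Submodule.exists_mem_ne_zero_of_ne_bot hne
        obtain ⟨x, hxX, hx0⟩ := Submodule.exists_mem_ne_zero_of_ne_bot hX.1
        have hneε : ε₀ ≠ ε₀ * thC D θ := by
          intro h2
          obtain ⟨s, hs⟩ := hS
          have h3 := DFunLike.congr_fun h2 ⟨s, Subgroup.subset_closure hs⟩
          rw [MonoidHom.mul_apply, thC_apply, hθ s hs, mul_neg, mul_one] at h3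
          have h4 := congrArg (fun z : ℂˣ => (z : ℂ)) h3
          simp only [Units.val_neg] at h4
          have h5 : ((ε₀ ⟨s, Subgroup.subset_closure hs⟩ : ℂˣ) : ℂ) ≠ 0 := Units.ne_zero _
          exact h5 (self_eq_neg.1 h4)
        have hxw : x ∈ Wt ρ (Subgroup.closure D.S) ε₀ := hε₀ hxX
        let L : Submodule ℂ V := Submodule.span ℂ {v'}
        have hL1 : Module.finrank ℂ L = 1 := finrank_span_singleton hv0
        have hLW : L ≤ Wt ρ (Subgroup.closure D.S) (ε₀ * thC D θ) := by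
          rw [Submodule.span_singleton_le_iff_mem]
          exact hv'.1
        have hLZ : L ≤ Z := by
          rw [Submodule.span_singleton_le_iff_mem]
          exact hv'.2
        have hLs : Stb ρ (Subgroup.closure D.S) L := wt_stb_G4 ρ _ _ hLW
        have hdis : Disjoint X L := by
          rw [Submodule.disjoint_def]
          intro v hv1 hv2
          by_contra h0
          exact hneε (wt_eq_G4 (hε₀ hv1) (hLW hv2) h0)
        have hYs : Stb ρ (Subgroup.closure D.S) (X ⊔ L) := by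
          intro u hu v hv
          obtain ⟨a, ha, b, hb, rfl⟩ := Submodule.mem_sup.1 hv
          rw [map_add]
          exact Submodule.add_mem_sup (hX.2.1 u hu a ha) (hLs u hu b hb)
        have hY2 : Module.finrank ℂ (X ⊔ L : Submodule ℂ V) = 2 := by
          have h2 := Submodule.finrank_sup_add_finrank_inf_eq X L
          rw [hdis.eq_bot, finrank_bot, add_zero, hx1, hL1] at h2
          exact h2
        have hYb : (X ⊔ L : Submodule ℂ V) ≠ ⊥ := by
          intro h2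
          rw [h2, finrank_bot] at hY2
          exact absurd hY2 (by norm_num)
        have hlin : LinearIndependent ℂ ![x, v'] := by
          rw [LinearIndependent.pair_iff]
          intro s t hst
          have h2 : s • x = -(t • v') := eq_neg_of_add_eq_zero_left hst
          have h3 : s • x ∈ L := by
            rw [h2]
            exact L.neg_mem (L.smul_mem _ (Submodule.mem_span_singleton_self v'))
          have h4 : s • x = 0 := (Submodule.disjoint_def.1 hdis) _ (X.smul_mem _ hxX) h3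
          have h5 : s = 0 := (smul_eq_zero.1 h4).resolve_right hx0
          rw [h4, zero_add] at hst
          exact ⟨h5, (smul_eq_zero.1 hst).resolve_right hv0⟩
        refine step (X ⊔ L) (sup_le hXZ hLZ) hYb hYs (Or.inr (Or.inr ⟨hY2, fun s hs => ?_⟩)) ?_
        · refine ⟨hYs s (Subgroup.subset_closure hs), ?_⟩
          have hfx : ρ s x = ((ε₀ ⟨s, Subgroup.subset_closure hs⟩ : ℂˣ) : ℂ) • x :=
            mem_Wt_G4.1 hxw ⟨s, Subgroup.subset_closure hs⟩
          have hfy : ρ s v' = (((ε₀ * thC D θ) ⟨s, Subgroup.subset_closure hs⟩ : ℂˣ) : ℂ) • v' :=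
            mem_Wt_G4.1 hv'.1 ⟨s, Subgroup.subset_closure hs⟩
          rw [trace_two_G4 (ρ s) hfx hfy (Submodule.mem_sup_left hxX)
            (Submodule.mem_sup_right (Submodule.mem_span_singleton_self v')) hlin hY2,
            MonoidHom.mul_apply, thC_apply, hθ s hs, mul_neg, mul_one, Units.val_neg, add_neg_cancel]
        · intro ε hε
          rw [wt_sum_G4 ρ _ hX.2.1 hLs hdis, wt_sum_G4 ρ _ hX.2.1 hLs hdis, line_inf_G4 hx1 hε₀,
            line_inf_G4 hx1 hε₀, line_inf_G4 hL1 hLW, line_inf_G4 hL1 hLW]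
          have e1 : (ε * thC D θ = ε₀) ↔ (ε = ε₀ * thC D θ) := by
            constructor
            · intro h2
              rw [← h2, thC_sq_G4 D hθ]
            · intro h2
              rw [h2, thC_sq_G4 D hθ]
          have e2 : (ε * thC D θ = ε₀ * thC D θ) ↔ (ε = ε₀) := by
            constructor
            · intro h2
              exact mul_right_cancel h2
            · intro h2
              rw [h2]
          simp only [e1, e2]
          exact add_comm _ _
      · -- a constant line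
        have hcst : ∀ s (hs : s ∈ D.S) s' (hs' : s' ∈ D.S),
            ε₀ ⟨s, Subgroup.subset_closure hs⟩ = ε₀ ⟨s', Subgroup.subset_closure hs'⟩ := by
          intro s hs s' hs'
          by_contra h2
          exact hnc ⟨⟨s, Subgroup.subset_closure hs⟩, ⟨s', Subgroup.subset_closure hs'⟩, hs, hs', h2⟩
        have hsq : ∀ s (hs : s ∈ D.S), ((ε₀ ⟨s, Subgroup.subset_closure hs⟩ : ℂˣ) : ℂ) = 1 ∨
            ((ε₀ ⟨s, Subgroup.subset_closure hs⟩ : ℂˣ) : ℂ) = -1 := by
          intro s hs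
          rw [← mul_self_eq_one_iff, ← Units.val_mul, ← map_mul]
          have : (⟨s, Subgroup.subset_closure hs⟩ * ⟨s, Subgroup.subset_closure hs⟩ : Subgroup.closure D.S) = 1 := by
            apply Subtype.ext
            exact D.sq s hs
          rw [this, map_one, Units.val_one]
        have hp : OddPiece ρ D.S X := by
          by_cases hS : ∃ s, s ∈ D.S
          · obtain ⟨s₀, hs₀⟩ := hS
            rcases hsq s₀ hs₀ with h2 | h2
            · left
              intro s hs v hv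
              have h3 := mem_Wt_G4.1 (hε₀ hv) ⟨s, Subgroup.subset_closure hs⟩
              rw [hcst s hs s₀ hs₀, h2, one_smul] at h3
              exact h3
            · right; left
              intro s hs v hv
              have h3 := mem_Wt_G4.1 (hε₀ hv) ⟨s, Subgroup.subset_closure hs⟩
              rw [hcst s hs s₀ hs₀, h2, neg_smul, one_smul] at h3
              exact h3
          · left
            intro s hs
            exact absurd ⟨s, hs⟩ hS
        refine step X hXZ hX.1 hX.2.1 hp ?_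
        intro ε hε
        rw [line_inf_G4 hx1 hε₀, line_inf_G4 hx1 hε₀, if_neg, if_neg]
        · intro h2
          exact hnc (h2 ▸ NC_mul_G4 D hθ hε)
        · intro h2
          exact hnc (h2 ▸ hε)
    · -- an irreducible plane
      have hz : ∀ ε : Subgroup.closure D.S →* ℂˣ,
          Module.finrank ℂ (Wt ρ (Subgroup.closure D.S) ε ⊓ X : Submodule ℂ V) = 0 := by
        intro ε
        have hst : Stb ρ (Subgroup.closure D.S) (Wt ρ (Subgroup.closure D.S) ε ⊓ X : Submodule ℂ V) :=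
          wt_stb_G4 ρ _ ε inf_le_left
        rcases hX.2.2 _ inf_le_right hst with h2 | h2
        · rw [h2, finrank_bot]
        · exfalso
          obtain ⟨x, hxX, hx0⟩ := Submodule.exists_mem_ne_zero_of_ne_bot hX.1
          have hxW : X ≤ Wt ρ (Subgroup.closure D.S) ε := by
            rw [← h2]
            exact inf_le_left
          have h3 : Submodule.span ℂ {x} ≤ X := by
            rw [Submodule.span_singleton_le_iff_mem]
            exact hxX
          rcases hX.2.2 _ h3 (wt_stb_G4 ρ _ ε (h3.trans hxW)) with h4 | h4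
          · rw [Submodule.span_singleton_eq_bot] at h4
            exact hx0 h4
          · have h5 := finrank_span_singleton (K := ℂ) hx0
            rw [h4, hx2] at h5
            exact absurd h5 (by norm_num)
      refine step X hXZ hX.1 hX.2.1 (Or.inr (Or.inr ⟨hx2, fun s hs =>
        ⟨hX.2.1 s (Subgroup.subset_closure hs), htr s hs _⟩⟩)) ?_
      intro ε _
      rw [hz, hz]

/-- OP-G5. -/
theorem odd_of_conv [FiniteDimensional ℂ V] (D : Sys Γ) {θ : Γ →* ℂˣ} (hθ : ∀ s ∈ D.S, θ s = -1) {M : Subgroup Γ}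
    (hM : M ∈ D.N) (ρ : Γ →* (V →ₗ[ℂ] V)) (h : ∀ g ∈ M, ρ g = 1)
    (h1 : ∀ X : Submodule ℂ V, IrrOn ρ (Subgroup.closure D.S) X →
      Module.finrank ℂ X = 1 ∨ (Module.finrank ℂ X = 2 ∧
        ∀ s ∈ D.S, ∀ h : ∀ v ∈ X, ρ s v ∈ X, LinearMap.trace ℂ X ((ρ s).restrict h) = 0))
    (h2 : ∀ ε : Subgroup.closure D.S →* ℂˣ,
      (∃ (s s' : Subgroup.closure D.S), (s : Γ) ∈ D.S ∧ (s' : Γ) ∈ D.S ∧ ε s ≠ ε s') →
      Module.finrank ℂ (Wt ρ (Subgroup.closure D.S) ε) =
        Module.finrank ℂ (Wt ρ (Subgroup.closure D.S) (ε * thC D θ))) : OddSum ρ D.S ⊤ := by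
  refine main_G4 D hθ hM ρ h h1 _ ⊤ rfl (fun _ _ _ _ => Submodule.mem_top) ?_
  intro ε hε
  rw [inf_top_eq, inf_top_eq]
  exact h2 ε hε

end SB
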