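import Pool.Agent.Helper68.OP.Stmt

/-!
# Project OP, module I1: the induced representation
-/

namespace SB

universe u v

variable {Γ : Type u} [Group Γ]

namespace OPI1

open Classical in
/-- extension by zero of a matrix representation of a subgroup -/
noncomputable def bz (U : Subgroup Γ) {e : ℕ} (ψ : Rp U e) (g : Γ) : Matrix (Fin e) (Fin e) ℂ :=
  if h : g ∈ U then ((ψ ⟨g, h⟩ : Matrix.GeneralLinearGroup (Fin e) ℂ) : Matrix (Fin e) (Fin e) ℂ) else 0

theorem bz_mem (U : Subgroup Γ) {e : ℕ} (ψ : Rp U e) {g : Γ} (h : g ∈ U) :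
    bz U ψ g = ((ψ ⟨g, h⟩ : Matrix.GeneralLinearGroup (Fin e) ℂ) : Matrix (Fin e) (Fin e) ℂ) := by
  unfold bz
  rw [dif_pos h]

theorem bz_not_mem (U : Subgroup Γ) {e : ℕ} (ψ : Rp U e) {g : Γ} (h : g ∉ U) : bz U ψ g = 0 := by
  unfold bz
  rw [dif_neg h]

theorem bz_mul_right (U : Subgroup Γ) {e : ℕ} (ψ : Rp U e) (x : Γ) {u : Γ} (hu : u ∈ U) :
    bz U ψ (x * u) = bz U ψ x * bz U ψ u := by
  by_cases hx : x ∈ U
  · rw [bz_mem U ψ (U.mul_mem hx hu), bz_mem U ψ hx, bz_mem U ψ hu]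
    have : (⟨x * u, U.mul_mem hx hu⟩ : U) = ⟨x, hx⟩ * ⟨u, hu⟩ := rfl
    rw [this, map_mul, Units.val_mul]
  · have h1 : x * u ∉ U := fun h => hx (by
      have := U.mul_mem h (U.inv_mem hu)
      rwa [mul_inv_cancel_right] at this)
    rw [bz_not_mem U ψ h1, bz_not_mem U ψ hx, zero_mul]

theorem out_mem (U : Subgroup Γ) (x : Γ) : (QuotientGroup.mk x : Γ ⧸ U).out⁻¹ * x ∈ U := by
  rw [← QuotientGroup.eq, QuotientGroup.out_eq']

/-- The block matrices. -/
noncomputable def mat (U : Subgroup Γ) {e : ℕ} (ψ : Rp U e) {n : ℕ} (c : Γ ⧸ U ≃ Fin n) (g : Γ) :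
    Matrix (Fin n × Fin e) (Fin n × Fin e) ℂ :=
  fun i j => bz U ψ ((c.symm i.1).out⁻¹ * g * (c.symm j.1).out) i.2 j.2

theorem mat_mul (U : Subgroup Γ) {e : ℕ} (ψ : Rp U e) {n : ℕ} (c : Γ ⧸ U ≃ Fin n) (g h : Γ) :
    mat U ψ c (g * h) = mat U ψ c g * mat U ψ c h := by
  ext i j
  rw [Matrix.mul_apply, Fintype.sum_prod_type]
  have hm := out_mem U (h * (c.symm j.1).out)
  have h1 : ∀ k : Fin n, ∑ x : Fin e, mat U ψ c g i (k, x) * mat U ψ c h (k, x) j =
      (bz U ψ ((c.symm i.1).out⁻¹ * g * (c.symm k).out) *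
        bz U ψ ((c.symm k).out⁻¹ * h * (c.symm j.1).out)) i.2 j.2 := by
    intro k
    rw [Matrix.mul_apply]
    rfl
  simp only [h1]
  rw [Finset.sum_eq_single (c (QuotientGroup.mk (h * (c.symm j.1).out)))]
  · rw [Equiv.symm_apply_apply, mul_assoc (QuotientGroup.mk (h * (c.symm j.1).out) : Γ ⧸ U).out⁻¹,
      ← bz_mul_right U ψ _ hm]
    have h2 : (c.symm i.1).out⁻¹ * (g * h) * (c.symm j.1).out =
        (c.symm i.1).out⁻¹ * g * (QuotientGroup.mk (h * (c.symm j.1).out) : Γ ⧸ U).out *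
          ((QuotientGroup.mk (h * (c.symm j.1).out) : Γ ⧸ U).out⁻¹ * (h * (c.symm j.1).out)) := by
      group
    show bz U ψ ((c.symm i.1).out⁻¹ * (g * h) * (c.symm j.1).out) i.2 j.2 = _
    rw [h2]
  · intro k _ hk
    rw [bz_not_mem U ψ (g := (c.symm k).out⁻¹ * h * (c.symm j.1).out), mul_zero]
    · rfl
    · intro hh
      apply hk
      rw [mul_assoc, ← QuotientGroup.eq, QuotientGroup.out_eq'] at hh
      rw [← hh, Equiv.apply_symm_apply]
  · intro hk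
    exact absurd (Finset.mem_univ _) hk

theorem mat_one (U : Subgroup Γ) {e : ℕ} (ψ : Rp U e) {n : ℕ} (c : Γ ⧸ U ≃ Fin n) (M : Subgroup Γ)
    (hM : M.Normal) (hMU : M ≤ U) (hψ : ∀ g (h : g ∈ U), g ∈ M → ψ ⟨g, h⟩ = 1) {g : Γ} (hg : g ∈ M) :
    mat U ψ c g = 1 := by
  have key : ∀ x : Γ, x⁻¹ * g * x ∈ M := fun x => by
    have := hM.conj_mem g hg x⁻¹
    rwa [inv_inv] at this
  ext ⟨i, a⟩ ⟨j, b⟩
  unfold mat
  by_cases hij : i = j
  · subst hij
    show bz U ψ ((c.symm i).out⁻¹ * g * (c.symm i).out) a b = _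
    rw [bz_mem U ψ (hMU (key _)), hψ _ _ (key _), Units.val_one]
    by_cases hab : a = b
    · subst hab
      rw [Matrix.one_apply_eq, Matrix.one_apply_eq]
    · rw [Matrix.one_apply_ne hab, Matrix.one_apply_ne]
      intro h
      exact hab (Prod.ext_iff.1 h).2
  · rw [Matrix.one_apply_ne (fun h => hij (Prod.ext_iff.1 h).1)]
    show bz U ψ ((c.symm i).out⁻¹ * g * (c.symm j).out) a b = 0
    rw [bz_not_mem]
    · rfl
    intro hh
    apply hij
    have h1 : (c.symm i).out⁻¹ * g * (c.symm j).out =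
        ((c.symm i).out⁻¹ * g * (c.symm i).out) * ((c.symm i).out⁻¹ * (c.symm j).out) := by group
    rw [h1] at hh
    have h2 := (U.mul_mem_cancel_left (hMU (key _))).1 hh
    rw [← QuotientGroup.eq, QuotientGroup.out_eq', QuotientGroup.out_eq'] at h2
    exact c.symm.injective h2

theorem trace_mat (U : Subgroup Γ) {e : ℕ} (ψ : Rp U e) {n : ℕ} (c : Γ ⧸ U ≃ Fin n) (g : Γ) :
    Matrix.trace (mat U ψ c g) = ∑ i, exz U (chr ψ) ((c.symm i).out⁻¹ * g * (c.symm i).out) := by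
  unfold Matrix.trace
  rw [Fintype.sum_prod_type]
  refine Finset.sum_congr rfl fun i _ => ?_
  show ∑ x : Fin e, bz U ψ ((c.symm i).out⁻¹ * g * (c.symm i).out) x x = _
  by_cases h : (c.symm i).out⁻¹ * g * (c.symm i).out ∈ U
  · rw [bz_mem U ψ h]
    unfold exz
    rw [dif_pos h]
    rfl
  · rw [bz_not_mem U ψ h]
    unfold exz
    rw [dif_neg h]
    simp

end OPI1

open OPI1 in
/-- OP-I1. The induced representation. -/
theorem exists_ind_rep (M U : Subgroup Γ) (hM : M.Normal) (hMU : M ≤ U) (hU : U.FiniteIndex) {e : ℕ} (ψ : Rp U e)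
    (hψ : ∀ g (h : g ∈ U), g ∈ M → ψ ⟨g, h⟩ = 1) :
    ∃ (d : ℕ) (ρ : Rp Γ d), (∀ g ∈ M, ρ g = 1) ∧ ∀ g, chr ρ g = IndRep U ψ g := by
  have : Finite (Γ ⧸ U) := Subgroup.finite_quotient_of_finiteIndex
  obtain ⟨n, ⟨c⟩⟩ := Finite.exists_equiv_fin (Γ ⧸ U)
  let r := (Matrix.reindexAlgEquiv ℂ ℂ (finProdFinEquiv (m := n) (n := e)))
  let f : Γ →* Matrix (Fin (n * e)) (Fin (n * e)) ℂ :=
    { toFun := fun g => r (mat U ψ c g)
      map_one' := by rw [mat_one U ψ c M hM hMU hψ M.one_mem, map_one]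
      map_mul' := fun a b => by rw [mat_mul U ψ c a b, map_mul] }
  refine ⟨n * e, MonoidHom.toHomUnits f, fun g hg => ?_, fun g => ?_⟩
  · apply Units.ext
    show r (mat U ψ c g) = 1
    rw [mat_one U ψ c M hM hMU hψ hg, map_one]
  · have hft : Fintype (Γ ⧸ U) := Fintype.ofFinite _
    have h1 : chr (MonoidHom.toHomUnits f) g = Matrix.trace (mat U ψ c g) := by
      show Matrix.trace (r (mat U ψ c g)) = _
      unfold Matrix.trace
      show ∑ i, mat U ψ c g (finProdFinEquiv.symm i) (finProdFinEquiv.symm i) = _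
      rw [finProdFinEquiv.symm.sum_comp (fun q => mat U ψ c g q q)]
      rfl
    rw [h1, trace_mat]
    unfold IndRep Ind
    rw [finsum_eq_sum_of_fintype, c.symm.sum_comp (fun q => exz U (chr ψ) (q.out⁻¹ * g * q.out))]

end SB
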