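import Pool.Agent.Helper68.OP.Base

/-!
# OP-W1: weights, with representatives for a set stable under the twist
-/

namespace SB

universe u v

variable {Γ : Type u} [Group Γ] {V : Type v} [AddCommGroup V] [Module ℂ V]

theorem cjh_mul_thC (D : Sys Γ) (θ : Γ →* ℂˣ) (g : Γ) (ε : Subgroup.closure D.S →* ℂˣ) :
    cjh (closure_normal D) g (ε * thC D θ) = cjh (closure_normal D) g ε * thC D θ := by
  apply MonoidHom.ext
  intro c
  change ε _ * θ (g⁻¹ * (c : Γ) * g) = ε _ * θ (c : Γ)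
  congr 1
  rw [map_mul, map_mul, map_inv, mul_comm, mul_inv_cancel_left]

theorem thC_sq (D : Sys Γ) {θ : Γ →* ℂˣ} (hθ : ∀ s ∈ D.S, θ s = -1) : thC D θ * thC D θ = 1 := by
  have h : ∀ c ∈ Subgroup.closure D.S, θ c * θ c = 1 := by
    intro c hc
    induction hc using Subgroup.closure_induction with
    | mem s hs => rw [hθ s hs]; simp
    | one => simp
    | mul a b _ _ ha hb =>
      rw [map_mul, mul_mul_mul_comm, ha, hb, mul_one]
    | inv a _ ha => rw [map_inv, ← mul_inv, ha, inv_one]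
  apply MonoidHom.ext
  intro c
  exact h c c.2

theorem mul_thC_thC (D : Sys Γ) {θ : Γ →* ℂˣ} (hθ : ∀ s ∈ D.S, θ s = -1) (ε : Subgroup.closure D.S →* ℂˣ) :
    ε * thC D θ * thC D θ = ε := by
  apply MonoidHom.ext
  intro c
  have h : θ c * θ c = 1 := DFunLike.congr_fun (thC_sq D hθ) c
  change ε c * θ c * θ c = ε c
  rw [mul_assoc, h, mul_one]

/-- OP-W. Weights, with orbit representatives for a set of weights stable under the twist by `θ`. -/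
theorem weights_tw [FiniteDimensional ℂ V] (D : Sys Γ) (hnt : NtU D) {θ : Γ →* ℂˣ} (hθ : Sgn D θ) {M : Subgroup Γ}
    (hM : M ∈ D.N) (ρ : Γ →* (V →ₗ[ℂ] V)) (h : ∀ g ∈ M, ρ g = 1)
    (s : ⨆ ε : Subgroup.closure D.S →* ℂˣ, Wt ρ (Subgroup.closure D.S) ε = ⊤) :
    ∃ (m : ℕ) (U : Fin m → Subgroup Γ) (ε : Fin m → (Subgroup.closure D.S →* ℂˣ)) (χ : ∀ j, U j →* ℂˣ)
      (f : Fin m → Fin m),
      (∀ j, (∀ g, g ∈ U j ↔ cjh (closure_normal D) g (ε j) = ε j) ∧ M ≤ U j ∧ OpC D (U j) (χ j) ∧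
        (∀ u, χ j u ^ 2 = 1) ∧
        (∀ c (hc : c ∈ Subgroup.closure D.S) (hU : c ∈ U j), χ j ⟨c, hU⟩ = ε j ⟨c, hc⟩) ∧
        Stb ρ (U j) (Wt ρ (Subgroup.closure D.S) (ε j))) ∧
      (∀ g, LinearMap.trace ℂ V (ρ g) =
        ∑ j, Ind (U j) (trx ρ (U j) (Wt ρ (Subgroup.closure D.S) (ε j))) g) ∧
      (∀ j, f (f j) = j) ∧ ∀ j, ∃ g, cjh (closure_normal D) g (ε (f j)) = ε j * thC D θ := by
  have hC : (Subgroup.closure D.S).Normal := closure_normal D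
  let C := Subgroup.closure D.S
  let E₀ : Set (C →* ℂˣ) := {ε | Wt ρ C ε ≠ ⊥}
  have hE₀fin : E₀.Finite := wt_finite ρ C
  let tw : (C →* ℂˣ) → (C →* ℂˣ) := fun ε => ε * thC D θ
  have htw : ∀ ε, tw (tw ε) = ε := by
    intro ε
    exact mul_thC_thC D hθ.2 ε
  let E : Set (C →* ℂˣ) := E₀ ∪ tw '' E₀
  have hfE : Finite E := hE₀fin.union (hE₀fin.image tw)
  have hE₀ : ∀ g, ∀ ε ∈ E₀, cjh hC g ε ∈ E₀ := fun g ε hε => wt_cjh_ne hC ρ g hε
  have hE : ∀ g, ∀ ε ∈ E, cjh hC g ε ∈ E := by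
    rintro g ε (h | ⟨ε', h, rfl⟩)
    · exact Or.inl (hE₀ g ε h)
    · exact Or.inr ⟨cjh hC g ε', hE₀ g ε' h, (cjh_mul_thC D θ g ε').symm⟩
  have hEtw : ∀ ε ∈ E, tw ε ∈ E := by
    rintro ε (h | ⟨ε', h, rfl⟩)
    · exact Or.inr ⟨ε, h, rfl⟩
    · rw [htw]; exact Or.inl h
  let σ := wtPerm hC E hE
  obtain ⟨m, r, hr⟩ := exists_transversal σ
  have hsup : ⨆ i : E, Wt ρ C (i : C →* ℂˣ) = ⊤ := by
    rw [eq_top_iff, ← s]
    refine iSup_le fun ε => ?_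
    by_cases h : Wt ρ C ε = ⊥
    · rw [h]; exact bot_le
    · exact le_iSup (fun i : E => Wt ρ C (i : C →* ℂˣ)) ⟨ε, Or.inl h⟩
  have hmv : ∀ g (i : E), ∀ v ∈ Wt ρ C (i : C →* ℂˣ), ρ g v ∈ Wt ρ C ((σ g i : E) : C →* ℂˣ) :=
    fun g i v hv => wt_move ρ hC g i v hv
  have hst : ∀ (i : E) (g : Γ), g ∈ Stz σ i ↔ cjh hC g i = i := by
    intro i g
    rw [mem_Stz]
    exact ⟨fun h => congrArg Subtype.val h, fun h => Subtype.ext h⟩
  have hSU : ∀ i : E, D.S ⊆ Stz σ i := by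
    intro i s hs
    rw [SetLike.mem_coe, hst]
    exact cjh_self hC (Subgroup.subset_closure hs) _
  have hMU : ∀ i : E, M ≤ Stz σ i := by
    intro i g hg
    rw [hst]
    rcases i.2 with h' | ⟨ε', h', he⟩
    · exact cjh_of_triv hC ρ (h g hg) h'
    · rw [← he]
      change cjh hC g (ε' * thC D θ) = ε' * thC D θ
      rw [cjh_mul_thC, cjh_of_triv hC ρ (h g hg) h']
  have hχ : ∀ i : E, ∃ χ : Stz σ i →* ℂˣ, OpC D (Stz σ i) χ ∧ (∀ u, χ u ^ 2 = 1) ∧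
      ∀ c (hc : c ∈ C) (hU : c ∈ Stz σ i), χ ⟨c, hU⟩ = (i : C →* ℂˣ) ⟨c, hc⟩ := by
    intro i
    refine ext_sign D hnt hM (hMU i) (hSU i) (i : C →* ℂˣ) fun u hu s hs => ?_
    have h := (hst i u).1 hu
    have h2 : u⁻¹ * (u * s * u⁻¹) * u = s := by group
    conv_lhs => rw [← h]
    rw [cjh_apply hC u _ _ (by rw [h2]; exact Subgroup.subset_closure hs)]
    congr 1
    exact Subtype.ext h2
  choose χ hχ1 hχ2 hχ3 using hχ
  -- the involution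
  have hf : ∀ j, ∃ j', ∃ g, σ g (r j') = ⟨tw (r j), hEtw _ (r j).2⟩ := fun j => (hr _).exists
  choose f hf using hf
  have hf' : ∀ j, ∃ g, cjh hC g (r (f j) : C →* ℂˣ) = tw (r j) := by
    intro j
    obtain ⟨g, hg⟩ := hf j
    exact ⟨g, congrArg Subtype.val hg⟩
  refine ⟨m, fun j => Stz σ (r j), fun j => (r j : C →* ℂˣ), fun j => χ (r j), f, fun j => ⟨hst _, hMU _, hχ1 _,
    hχ2 _, hχ3 _, ?_⟩, ?_, ?_, hf'⟩
  · intro u hu v hv
    have := hmv u (r j) v hv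
    rwa [mem_Stz.1 hu] at this
  · intro g
    rw [block_trace ρ σ (fun i : E => Wt ρ C (i : C →* ℂˣ)) ((wt_indep ρ C).comp Subtype.val_injective) hsup
      hmv g]
    exact orbit_ind σ (fun i => trx ρ (Stz σ i) (Wt ρ C (i : C →* ℂˣ)))
      (fun h g i => trx_conj ρ σ (fun i : E => Wt ρ C (i : C →* ℂˣ)) hmv h g i) r hr g
  · intro j
    obtain ⟨g, hg⟩ := hf' j
    obtain ⟨g', hg'⟩ := hf' (f j)
    -- both `f (f j)` and `j` represent the orbit of `r j`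
    have e1 : tw (r (f j)) = cjh hC g⁻¹ (r j) := by
      have e2 : (r (f j) : C →* ℂˣ) = cjh hC g⁻¹ (tw (r j)) := by
        rw [← hg, ← cjh_mul, inv_mul_cancel, cjh_one]
      rw [e2]
      change cjh hC g⁻¹ ((r j : C →* ℂˣ) * thC D θ) * thC D θ = _
      rw [cjh_mul_thC]
      exact mul_thC_thC D hθ.2 _
    obtain ⟨j₀, -, huniq⟩ := hr (r j)
    have h1 : f (f j) = j₀ := huniq _ ⟨g * g', Subtype.ext (by
      change cjh hC (g * g') (r (f (f j)) : C →* ℂˣ) = r j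
      rw [cjh_mul, hg', e1, ← cjh_mul, mul_inv_cancel, cjh_one])⟩
    have h2 : j = j₀ := huniq _ ⟨1, by simp⟩
    rw [h1, h2]

end SB
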