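import Pool.Agent.Helper68.OP.Base
import Pool.Agent.Helper68.OP.A1
import Pool.Agent.Helper68.OP.A2

/-!
# OP-X1: conjugate subgroups, pairs of weights
-/

namespace SB

universe u v

variable {Γ : Type u} [Group Γ]

/-- OP-X1. Induction from a conjugate subgroup. -/
theorem ind_conj_sub {U U' : Subgroup Γ} (hU : U.FiniteIndex) (g : Γ) (h : ∀ x, x ∈ U' ↔ g⁻¹ * x * g ∈ U)
    {φ : Γ → ℂ} (hφ : Cls U φ) (x : Γ) : Ind U' (fun y => φ (g⁻¹ * y * g)) x = Ind U φ x := by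
  have key : ∀ a b : Γ, a⁻¹ * b ∈ U' ↔ (a * g)⁻¹ * (b * g) ∈ U := by
    intro a b
    rw [h]
    have e : g⁻¹ * (a⁻¹ * b) * g = (a * g)⁻¹ * (b * g) := by group
    rw [e]
  have key2 : ∀ a b : Γ, a⁻¹ * b ∈ U ↔ (a * g⁻¹)⁻¹ * (b * g⁻¹) ∈ U' := by
    intro a b
    rw [h]
    have e : g⁻¹ * ((a * g⁻¹)⁻¹ * (b * g⁻¹)) * g = a⁻¹ * b := by group
    rw [e]
  let e : Γ ⧸ U' ≃ Γ ⧸ U :=
    { toFun := Quotient.map' (fun a => a * g) fun a b hab => by
        rw [QuotientGroup.leftRel_apply] at hab ⊢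
        exact (key a b).1 hab
      invFun := Quotient.map' (fun a => a * g⁻¹) fun a b hab => by
        rw [QuotientGroup.leftRel_apply] at hab ⊢
        exact (key2 a b).1 hab
      left_inv := by
        intro q
        induction q using Quotient.inductionOn' with
        | h a =>
          change Quotient.mk'' (a * g * g⁻¹) = _
          rw [mul_inv_cancel_right]
      right_inv := by
        intro q
        induction q using Quotient.inductionOn' with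
        | h a =>
          change Quotient.mk'' (a * g⁻¹ * g) = _
          rw [inv_mul_cancel_right] }
  have he : ∀ q : Γ ⧸ U', φ (g⁻¹ * (q.out⁻¹ * x * q.out) * g) = φ ((e q).out⁻¹ * x * (e q).out) := by
    intro q
    have h1 : (q.out * g)⁻¹ * (e q).out ∈ U := by
      rw [← QuotientGroup.eq, QuotientGroup.out_eq']
      conv_rhs => rw [← QuotientGroup.out_eq' q]
      rfl
    have h2 := cls_coset_A1 hφ h1 x
    rw [h2]
    congr 1
    group
  unfold Ind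
  rw [finsum_congr he]
  exact finsum_comp_equiv e (f := fun q => φ (q.out⁻¹ * x * q.out))

/-- A difference of two linear characters which agree on `S`. -/
private theorem pd_single_X1 (D : Sys Γ) {U : Subgroup Γ} (hS : D.S ⊆ U) {χ χ' : U →* ℂˣ} (ho : OpC D U χ)
    (ho' : OpC D U χ') (hs : Sig D U χ χ') : (Ind U (ext U χ) - Ind U (ext U χ')) ∈ PD D := by
  refine pd_of_fam D ⟨1, fun _ => 1, fun _ => U, fun _ => χ, fun _ => χ', fun _ => hS, fun _ => ho,
    fun _ => ho', fun _ => hs, fun g => ?_⟩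
  rw [Fin.sum_univ_one, Int.cast_one, one_mul]
  rfl

private theorem pd_le_X1 (D : Sys Γ) (θ : Γ →* ℂˣ) : PD D ≤ PDp D θ := le_sup_left

/-- The plane `χ ⊕ χ'`. -/
private theorem diag_X1 {G : Type*} [Group G] (χ χ' : G →* ℂˣ) :
    ∃ τ : G →* (ℂ × ℂ →ₗ[ℂ] ℂ × ℂ), (∀ g, LinearMap.trace ℂ (ℂ × ℂ) (τ g) = ((χ g : ℂˣ) : ℂ) + ((χ' g : ℂˣ) : ℂ)) ∧
      ∀ g, χ g = 1 → χ' g = 1 → τ g = 1 := by
  let τ : G →* (ℂ × ℂ →ₗ[ℂ] ℂ × ℂ) :=
    { toFun := fun g => (((χ g : ℂˣ) : ℂ) • LinearMap.id).prodMap (((χ' g : ℂˣ) : ℂ) • LinearMap.id)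
      map_one' := by
        rw [map_one, map_one, Units.val_one, one_smul, LinearMap.prodMap_id]
        rfl
      map_mul' := fun a b => by
        apply LinearMap.ext
        intro x
        rw [map_mul, map_mul, Units.val_mul, Units.val_mul]
        refine Prod.ext ?_ ?_
        · change ((χ a : ℂˣ) : ℂ) * ((χ b : ℂˣ) : ℂ) * x.1 = ((χ a : ℂˣ) : ℂ) * (((χ b : ℂˣ) : ℂ) * x.1)
          ring
        · change ((χ' a : ℂˣ) : ℂ) * ((χ' b : ℂˣ) : ℂ) * x.2 = ((χ' a : ℂˣ) : ℂ) * (((χ' b : ℂˣ) : ℂ) * x.2)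
          ring }
  refine ⟨τ, fun g => ?_, fun g hg hg' => ?_⟩
  · change LinearMap.trace ℂ (ℂ × ℂ) ((((χ g : ℂˣ) : ℂ) • LinearMap.id).prodMap (((χ' g : ℂˣ) : ℂ) • LinearMap.id)) = _
    rw [LinearMap.trace_prodMap', map_smul, map_smul, LinearMap.trace_id, Module.finrank_self, Nat.cast_one,
      smul_eq_mul, smul_eq_mul, mul_one, mul_one]
  · change (((χ g : ℂˣ) : ℂ) • LinearMap.id).prodMap (((χ' g : ℂˣ) : ℂ) • LinearMap.id) = _
    rw [hg, hg', Units.val_one, one_smul, LinearMap.prodMap_id]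
    rfl

private theorem S_le_X1 (D : Sys Γ) {U : Subgroup Γ} {ε : Subgroup.closure D.S →* ℂˣ}
    (hU : ∀ g, g ∈ U ↔ cjh (closure_normal D) g ε = ε) : Subgroup.closure D.S ≤ U := fun c hc =>
  (hU c).2 (cjh_self _ hc ε)

private theorem thC_conj_X1 (D : Sys Γ) (θ : Γ →* ℂˣ) (g : Γ) : cjh (closure_normal D) g (thC D θ) = thC D θ := by
  apply MonoidHom.ext
  intro c
  have hc : g⁻¹ * (c : Γ) * g ∈ Subgroup.closure D.S := by
    have := (closure_normal D).conj_mem c c.2 g⁻¹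
    rwa [inv_inv] at this
  rw [cjh_apply _ g _ c hc, thC_apply, thC_apply]
  change θ (g⁻¹ * (c : Γ) * g) = θ c
  rw [map_mul, map_mul, map_inv, mul_comm, mul_inv_cancel_left]

private theorem cjh_mul_char_X1 {C : Subgroup Γ} (hC : C.Normal) (g : Γ) (ε ε' : C →* ℂˣ) :
    cjh hC g (ε * ε') = cjh hC g ε * cjh hC g ε' := rfl

/-- OP-X2. -/
theorem lx_pair (D : Sys Γ) (hup : ∀ M ∈ D.N, ∀ M' : Subgroup Γ, M'.Normal → M ≤ M' → M' ∈ D.N)
    {θ : Γ →* ℂˣ} (hθ : Sgn D θ) {U U' : Subgroup Γ} {ε ε' : Subgroup.closure D.S →* ℂˣ}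
    (hU : ∀ g, g ∈ U ↔ cjh (closure_normal D) g ε = ε) (hU' : ∀ g, g ∈ U' ↔ cjh (closure_normal D) g ε' = ε')
    {χ : U →* ℂˣ} {χ' : U' →* ℂˣ} (ho : OpC D U χ) (ho' : OpC D U' χ')
    (hχ : ∀ c (hc : c ∈ Subgroup.closure D.S) (h : c ∈ U), χ ⟨c, h⟩ = ε ⟨c, hc⟩)
    (hχ' : ∀ c (hc : c ∈ Subgroup.closure D.S) (h : c ∈ U'), χ' ⟨c, h⟩ = ε' ⟨c, hc⟩)
    {g : Γ} (hg : cjh (closure_normal D) g ε' = ε * thC D θ) :
    Ind U (ext U χ) + Ind U' (ext U' χ') ∈ PDp D θ := by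
  obtain ⟨⟨Mθ, hMθ, hθM⟩, hθS⟩ := id hθ
  obtain ⟨M, hM, hMU, hχM⟩ := id ho
  obtain ⟨M', hM', hMU', hχM'⟩ := id ho'
  have hC := closure_normal D
  have hCU := S_le_X1 D hU
  have hCU' := S_le_X1 D hU'
  have hSU : D.S ⊆ U := fun s hs => hCU (Subgroup.subset_closure hs)
  have hUf : U.FiniteIndex := fin_of_N D hM hMU
  have hUf' : U'.FiniteIndex := fin_of_N D hM' hMU'
  -- the stabilizers are conjugate
  have hconj : ∀ x, x ∈ U ↔ g⁻¹ * x * g ∈ U' := by
    intro x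
    rw [hU, hU']
    constructor
    · intro hx
      have h1 : cjh (closure_normal D) (x * g) ε' = cjh (closure_normal D) g ε' := by
        rw [cjh_mul, hg, cjh_mul_char_X1, hx, thC_conj_X1]
      rw [mul_assoc, cjh_mul, h1, ← cjh_mul, inv_mul_cancel, cjh_one]
    · intro hx
      have h1 : cjh (closure_normal D) x (cjh (closure_normal D) g ε') = cjh (closure_normal D) g ε' := by
        have h2 : cjh (closure_normal D) g (cjh (closure_normal D) (g⁻¹ * x * g) ε') =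
            cjh (closure_normal D) g ε' := by rw [hx]
        rw [← cjh_mul] at h2
        rw [← cjh_mul]
        have e : g * (g⁻¹ * x * g) = x * g := by group
        rwa [e] at h2
      rw [hg, cjh_mul_char_X1, thC_conj_X1] at h1
      exact mul_right_cancel h1
  -- the conjugate character
  let χ'' : U →* ℂˣ :=
    { toFun := fun u => χ' ⟨g⁻¹ * (u : Γ) * g, (hconj u).1 u.2⟩
      map_one' := by
        rw [← map_one χ']
        congr 1
        apply Subtype.ext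
        simp
      map_mul' := fun a b => by
        rw [← map_mul]
        congr 1
        apply Subtype.ext
        simp [mul_assoc] }
  have hext : ext U χ'' = fun y => ext U' χ' (g⁻¹ * y * g) := by
    funext y
    by_cases hy : y ∈ U
    · rw [ext_mem _ hy, ext_mem _ ((hconj y).1 hy)]
      rfl
    · rw [ext_not_mem _ hy, ext_not_mem _ fun h => hy ((hconj y).2 h)]
  have hInd : Ind U' (ext U' χ') = Ind U (ext U χ'') := by
    funext x
    rw [hext]
    exact (ind_conj_sub hUf' g hconj (cls_ext U' χ') x).symm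
  -- the values on `S`
  have hval : ∀ c (hc : c ∈ Subgroup.closure D.S) (h : c ∈ U), χ'' ⟨c, h⟩ = (χ * resc U θ) ⟨c, h⟩ := by
    intro c hc h
    have hc' : g⁻¹ * c * g ∈ Subgroup.closure D.S := by
      have := (closure_normal D).conj_mem c hc g⁻¹
      rwa [inv_inv] at this
    change χ' ⟨g⁻¹ * c * g, _⟩ = χ ⟨c, h⟩ * θ c
    rw [hχ' (g⁻¹ * c * g) hc', hχ c hc h]
    have h1 := DFunLike.congr_fun hg ⟨c, hc⟩
    rw [cjh_apply _ g ε' ⟨c, hc⟩ hc'] at h1
    rw [h1]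
    rfl
  have hMn := D.normal M' hM'
  have ho'' : OpC D U χ'' := by
    refine ⟨M ⊓ M', D.inf M hM M' hM', inf_le_left.trans hMU, fun y hy hyM => ?_⟩
    change χ' ⟨g⁻¹ * y * g, _⟩ = 1
    refine hχM' _ _ ?_
    have := hMn.conj_mem y hyM.2 g⁻¹
    rwa [inv_inv] at this
  have ho3 : OpC D U (χ * resc U θ) := by
    refine ⟨M ⊓ Mθ, D.inf M hM Mθ hMθ, inf_le_left.trans hMU, fun y hy hyM => ?_⟩
    change χ ⟨y, hy⟩ * θ y = 1
    rw [hχM y hy hyM.1, hθM y hyM.2, one_mul]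
  have h1 : Ind U (ext U χ'') - Ind U (ext U (χ * resc U θ)) ∈ PD D :=
    pd_single_X1 D hSU ho'' ho3 fun s h hs => hval s (Subgroup.subset_closure hs) h
  -- the plane
  obtain ⟨τ, hτ, hτ1⟩ := diag_X1 χ (χ * resc U θ)
  have h2 : Ind U (exz U fun u => LinearMap.trace ℂ (ℂ × ℂ) (τ u)) ∈ PDp D θ := by
    refine pdp_plane D hup hθ (D.inf M hM Mθ hMθ) (inf_le_left.trans hMU) hSU τ (fun y hy hyM => ?_) ?_ ?_
    · refine hτ1 _ (hχM y hy hyM.1) ?_
      change χ ⟨y, hy⟩ * θ y = 1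
      rw [hχM y hy hyM.1, hθM y hyM.2, one_mul]
    · rw [Module.finrank_prod, Module.finrank_self]
    · intro s h hs
      rw [hτ]
      change ((χ ⟨s, h⟩ : ℂˣ) : ℂ) + ((χ ⟨s, h⟩ * θ s : ℂˣ) : ℂ) = 0
      rw [hθS s hs]
      push_cast
      ring
  have h3 : Ind U (exz U fun u => LinearMap.trace ℂ (ℂ × ℂ) (τ u)) =
      Ind U (ext U χ) + Ind U (ext U (χ * resc U θ)) := by
    funext x
    rw [Pi.add_apply, ← Ind_add_A2 hUf]
    congr 1
    funext y
    by_cases hy : y ∈ U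
    · rw [exz_mem _ hy, Pi.add_apply, ext_mem _ hy, ext_mem _ hy, hτ]
    · rw [exz_not_mem _ hy, Pi.add_apply, ext_not_mem _ hy, ext_not_mem _ hy, add_zero]
  have h4 : Ind U (ext U χ) + Ind U' (ext U' χ') =
      (Ind U (ext U χ) + Ind U (ext U (χ * resc U θ))) + (Ind U (ext U χ'') - Ind U (ext U (χ * resc U θ))) := by
    rw [hInd]
    abel
  rw [h4, ← h3]
  exact (PDp D θ).add_mem h2 (pd_le_X1 D θ h1)

/-- OP-X4. -/
theorem lx_const (D : Sys Γ) (hup : ∀ M ∈ D.N, ∀ M' : Subgroup Γ, M'.Normal → M ≤ M' → M' ∈ D.N)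
    {θ : Γ →* ℂˣ} (hθ : Sgn D θ) {U : Subgroup Γ} {ε : Subgroup.closure D.S →* ℂˣ}
    (hU : ∀ g, g ∈ U ↔ cjh (closure_normal D) g ε = ε) {χ : U →* ℂˣ} (ho : OpC D U χ)
    (hχ : ∀ c (hc : c ∈ Subgroup.closure D.S) (h : c ∈ U), χ ⟨c, h⟩ = ε ⟨c, hc⟩)
    (hc : ∀ (s s' : Subgroup.closure D.S), (s : Γ) ∈ D.S → (s' : Γ) ∈ D.S → ε s = ε s') :
    Ind U (ext U χ) ∈ PDp D θ := by
  obtain ⟨⟨Mθ, hMθ, hθM⟩, hθS⟩ := id hθ
  obtain ⟨M, hM, hMU, hχM⟩ := id ho
  have hCU := S_le_X1 D hU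
  have hSU : D.S ⊆ U := fun s hs => hCU (Subgroup.subset_closure hs)
  obtain ⟨i1, i2⟩ := pdp_ind_one D hup hθ hM hMU hSU
  by_cases h1 : ∀ s (hs : s ∈ D.S), ε ⟨s, Subgroup.subset_closure hs⟩ = 1
  · have h2 : Ind U (ext U χ) - Ind U (ext U 1) ∈ PD D :=
      pd_single_X1 D hSU ho (opc_one hM hMU) fun s h hs => by
        rw [hχ s (Subgroup.subset_closure hs) h, h1 s hs]
        rfl
    have h3 : Ind U (ext U χ) = (Ind U (ext U χ) - Ind U (ext U 1)) + Ind U (ext U 1) := by abel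
    rw [h3]
    exact (PDp D θ).add_mem (pd_le_X1 D θ h2) i1
  · push Not at h1
    obtain ⟨s0, hs0, hne⟩ := h1
    have hm1 : ε ⟨s0, Subgroup.subset_closure hs0⟩ = -1 := by
      have h2 : (ε ⟨s0, Subgroup.subset_closure hs0⟩) ^ 2 = 1 := by
        rw [← map_pow, ← map_one ε]
        congr 1
        apply Subtype.ext
        change s0 ^ 2 = 1
        rw [pow_two, D.sq s0 hs0]
      have h3 : (((ε ⟨s0, Subgroup.subset_closure hs0⟩ : ℂˣ) : ℂ)) ^ 2 = 1 := by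
        have := congrArg (fun x : ℂˣ => (x : ℂ)) h2
        simpa using this
      have h5 : (((ε ⟨s0, Subgroup.subset_closure hs0⟩ : ℂˣ) : ℂ) - 1) *
          (((ε ⟨s0, Subgroup.subset_closure hs0⟩ : ℂˣ) : ℂ) + 1) = 0 := by linear_combination h3
      rcases mul_eq_zero.1 h5 with h4 | h4
      · exact absurd (Units.ext (by rw [Units.val_one]; linear_combination h4)) hne
      · apply Units.ext
        rw [Units.val_neg, Units.val_one]
        linear_combination h4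
    have h2 : Ind U (ext U χ) - Ind U (ext U (resc U θ)) ∈ PD D :=
      pd_single_X1 D hSU ho (opc_resc hM hMU θ hMθ hθM) fun s h hs => by
        rw [hχ s (Subgroup.subset_closure hs) h,
          hc ⟨s, Subgroup.subset_closure hs⟩ ⟨s0, Subgroup.subset_closure hs0⟩ hs hs0, hm1]
        exact (hθS s hs).symm
    have h3 : Ind U (ext U χ) = (Ind U (ext U χ) - Ind U (ext U (resc U θ))) + Ind U (ext U (resc U θ)) := by abel
    rw [h3]
    exact (PDp D θ).add_mem (pd_le_X1 D θ h2) i2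

end SB
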