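import Pool.Agent.Helper68.OP.Base
import Pool.Agent.Helper68.OP.A2

/-!
# Project OP, module X2
-/

namespace SB

universe u v

namespace OPX2

variable {Γ : Type u} [Group Γ]

theorem cjh_apply {C : Subgroup Γ} (hC : C.Normal) (g : Γ) (ε : C →* ℂˣ) (c : C)
    (h : g⁻¹ * c * g ∈ C) : cjh hC g ε c = ε ⟨g⁻¹ * c * g, h⟩ := rfl

theorem cjh_mul {C : Subgroup Γ} (hC : C.Normal) (g h : Γ) (ε : C →* ℂˣ) :
    cjh hC (g * h) ε = cjh hC g (cjh hC h ε) := by
  ext c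
  change ((ε _ : ℂˣ) : ℂ) = ((ε _ : ℂˣ) : ℂ)
  congr 2
  apply Subtype.ext
  simp [mul_assoc]

theorem cjh_one {C : Subgroup Γ} (hC : C.Normal) (ε : C →* ℂˣ) : cjh hC 1 ε = ε := by
  ext c
  change ((ε _ : ℂˣ) : ℂ) = ((ε _ : ℂˣ) : ℂ)
  congr 2
  apply Subtype.ext
  simp

theorem cjh_mem {C : Subgroup Γ} (hC : C.Normal) {g : Γ} (hg : g ∈ C) (ε : C →* ℂˣ) :
    cjh hC g ε = ε := by
  ext c
  have h0 : g⁻¹ * c * g ∈ C := C.mul_mem (C.mul_mem (C.inv_mem hg) c.2) hg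
  rw [cjh_apply hC g ε c h0]
  have h1 : (⟨g⁻¹ * c * g, h0⟩ : C) = (⟨g, hg⟩ : C)⁻¹ * c * ⟨g, hg⟩ := rfl
  rw [h1, map_mul, map_mul, map_inv, mul_comm, mul_inv_cancel_left]

theorem mul_th_th (D : Sys Γ) {θ : Γ →* ℂˣ} (hθ : Sgn D θ) (ε : Subgroup.closure D.S →* ℂˣ) :
    ε * thC D θ * thC D θ = ε := by
  ext c
  obtain ⟨c, hc⟩ := c
  have h1 : θ c * θ c = 1 := by
    induction hc using Subgroup.closure_induction with
    | mem s hs => rw [hθ.2 s hs]; simp
    | one => rw [map_one, one_mul]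
    | mul a b _ _ ha hb =>
      rw [map_mul, mul_mul_mul_comm, ha, hb, one_mul]
    | inv a _ ha =>
      rw [map_inv, ← mul_inv, ha, inv_one]
  have h2 : (ε * thC D θ * thC D θ) ⟨c, hc⟩ = ε ⟨c, hc⟩ * θ c * θ c := rfl
  rw [h2, mul_assoc, h1, mul_one]

theorem cjh_th (D : Sys Γ) {θ : Γ →* ℂˣ} (g : Γ) (ε : Subgroup.closure D.S →* ℂˣ) :
    cjh (closure_normal D) g (ε * thC D θ) = cjh (closure_normal D) g ε * thC D θ := by
  ext c
  have h0 : g⁻¹ * c * g ∈ Subgroup.closure D.S := by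
    have := (closure_normal D).conj_mem c c.2 g⁻¹
    rwa [inv_inv] at this
  have h1 : cjh (closure_normal D) g (ε * thC D θ) c = ε ⟨g⁻¹ * c * g, h0⟩ * θ (g⁻¹ * c * g) := rfl
  have h2 : (cjh (closure_normal D) g ε * thC D θ) c = ε ⟨g⁻¹ * c * g, h0⟩ * θ c := rfl
  rw [h1, h2, map_mul, map_mul, map_inv]
  congr 2
  rw [mul_comm, mul_inv_cancel_left]

/-- The stabilizer of the pair. -/
def Gp (D : Sys Γ) {θ : Γ →* ℂˣ} (hθ : Sgn D θ) (ε : Subgroup.closure D.S →* ℂˣ) : Subgroup Γ where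
  carrier := {x | cjh (closure_normal D) x ε = ε ∨ cjh (closure_normal D) x ε = ε * thC D θ}
  one_mem' := Or.inl (cjh_one _ _)
  mul_mem' := by
    intro a b ha hb
    rw [Set.mem_ofPred_eq] at ha hb ⊢
    rw [cjh_mul]
    rcases hb with hb | hb
    · rw [hb]; exact ha
    · rw [hb, cjh_th]
      rcases ha with ha | ha
      · rw [ha]; exact Or.inr rfl
      · rw [ha, mul_th_th D hθ]; exact Or.inl rfl
  inv_mem' := by
    intro a ha
    rw [Set.mem_ofPred_eq] at ha ⊢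
    have h1 : cjh (closure_normal D) a⁻¹ (cjh (closure_normal D) a ε) = ε := by
      rw [← cjh_mul, inv_mul_cancel, cjh_one]
    rcases ha with ha | ha
    · left
      rw [ha] at h1
      exact h1
    · right
      rw [ha, cjh_th] at h1
      have h2 : cjh (closure_normal D) a⁻¹ ε * thC D θ * thC D θ = ε * thC D θ := by rw [h1]
      rwa [mul_th_th D hθ] at h2

theorem mem_Gp (D : Sys Γ) {θ : Γ →* ℂˣ} (hθ : Sgn D θ) (ε : Subgroup.closure D.S →* ℂˣ) {x : Γ} :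
    x ∈ Gp D hθ ε ↔ (cjh (closure_normal D) x ε = ε ∨ cjh (closure_normal D) x ε = ε * thC D θ) := Iff.rfl

end OPX2

open OPX2

variable {Γ : Type u} [Group Γ]

/-- OP-X3. -/
theorem lx_self (D : Sys Γ) (hup : ∀ M ∈ D.N, ∀ M' : Subgroup Γ, M'.Normal → M ≤ M' → M' ∈ D.N)
    {θ : Γ →* ℂˣ} (hθ : Sgn D θ) (hS : D.S.Nonempty) {U : Subgroup Γ} {ε : Subgroup.closure D.S →* ℂˣ}
    (hU : ∀ g, g ∈ U ↔ cjh (closure_normal D) g ε = ε) {χ : U →* ℂˣ} (ho : OpC D U χ)
    (hχ : ∀ c (hc : c ∈ Subgroup.closure D.S) (h : c ∈ U), χ ⟨c, h⟩ = ε ⟨c, hc⟩)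
    {g : Γ} (hg : cjh (closure_normal D) g ε = ε * thC D θ) : Ind U (ext U χ) ∈ PDp D θ := by
  classical
  obtain ⟨M, hM, hMU, hMχ⟩ := ho
  have hCU : Subgroup.closure D.S ≤ U := fun c hc => (hU c).2 (cjh_mem _ hc ε)
  have hSC : D.S ⊆ Subgroup.closure D.S := Subgroup.subset_closure
  have hUG : U ≤ Gp D hθ ε := fun x hx => (mem_Gp D hθ ε).2 (Or.inl ((hU x).1 hx))
  have hgG : g ∈ Gp D hθ ε := (mem_Gp D hθ ε).2 (Or.inr hg)
  have hne : ε * thC D θ ≠ ε := by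
    intro h
    obtain ⟨s, hs⟩ := hS
    have h1 : (ε * thC D θ) ⟨s, hSC hs⟩ = ε ⟨s, hSC hs⟩ := by rw [h]
    have h1' : (ε * thC D θ) ⟨s, hSC hs⟩ = ε ⟨s, hSC hs⟩ * θ s := rfl
    have h2 : θ s = 1 := by
      rw [h1'] at h1
      exact mul_eq_left.1 h1
    rw [hθ.2 s hs] at h2
    have h3 : (((-1 : ℂˣ)) : ℂ) = ((1 : ℂˣ) : ℂ) := by rw [h2]
    rw [Units.val_neg, Units.val_one] at h3
    norm_num at h3
  have hgU : g ∉ U := by
    intro h
    rw [hU, hg] at h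
    exact hne h
  set G : Subgroup Γ := Gp D hθ ε with hGdef
  have hMG : M ≤ G := hMU.trans hUG
  have hMfin : M.FiniteIndex := D.fin M hM
  have hUfin : U.FiniteIndex := Subgroup.finiteIndex_of_le hMU
  have hGfin : G.FiniteIndex := Subgroup.finiteIndex_of_le hMG
  let U' : Subgroup G := U.subgroupOf G
  have hmemU' : ∀ x : G, x ∈ U' ↔ (x : Γ) ∈ U := fun x => Subgroup.mem_subgroupOf
  have hU'fin : U'.FiniteIndex := inferInstance
  -- the index is two
  have hprod : ∀ x ∈ G, ∀ y ∈ G, x ∉ U → y ∉ U → x⁻¹ * y ∈ U := by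
    intro x hx y hy hxU hyU
    have hx1 : cjh (closure_normal D) x ε = ε * thC D θ := by
      rcases (mem_Gp D hθ ε).1 hx with h | h
      · exact absurd ((hU x).2 h) hxU
      · exact h
    have hy1 : cjh (closure_normal D) y ε = ε * thC D θ := by
      rcases (mem_Gp D hθ ε).1 hy with h | h
      · exact absurd ((hU y).2 h) hyU
      · exact h
    rw [hU, cjh_mul, hy1, ← hx1, ← cjh_mul, inv_mul_cancel, cjh_one]
  let q0 : G ⧸ U' := ((1 : G) : G ⧸ U')
  let q1 : G ⧸ U' := ((⟨g, hgG⟩ : G) : G ⧸ U')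
  have hq01 : q0 ≠ q1 := by
    intro h
    have h1 := QuotientGroup.eq.1 h
    rw [inv_one, one_mul, hmemU'] at h1
    exact hgU h1
  have hout : ∀ q : G ⧸ U', q = q0 ∨ q = q1 := by
    intro q
    by_cases h : ((q.out : G) : Γ) ∈ U
    · left
      rw [← Quotient.out_eq' q]
      apply QuotientGroup.eq.2
      rw [mul_one, hmemU']
      exact U.inv_mem h
    · right
      rw [← Quotient.out_eq' q]
      apply QuotientGroup.eq.2
      rw [hmemU']
      exact hprod _ (q.out : G).2 g hgG h hgU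
  have : Finite (G ⧸ U') := Subgroup.finite_quotient_of_finiteIndex
  haveI : Fintype (G ⧸ U') := Fintype.ofFinite _
  have huniv : (Finset.univ : Finset (G ⧸ U')) = {q0, q1} := by
    ext q
    simp only [Finset.mem_univ, Finset.mem_insert, Finset.mem_singleton, true_iff]
    exact hout q
  -- the character of U'
  let χ' : U' →* ℂˣ := χ.comp (Subgroup.subgroupOfEquivOfLe hUG).toMonoidHom
  have hχ' : ∀ x : G, ext U' χ' x = ext U χ (x : Γ) := by
    intro x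
    by_cases h : (x : Γ) ∈ U
    · rw [ext_mem χ' ((hmemU' x).2 h), ext_mem χ h]
      rfl
    · rw [ext_not_mem χ' (fun h' => h ((hmemU' x).1 h')), ext_not_mem χ h]
  have hMn : (M.subgroupOf G).Normal := by
    haveI := D.normal M hM
    infer_instance
  obtain ⟨d, ρ, h1, h2⟩ := exists_lrep (M.subgroupOf G) U' hMn
    (fun x hx => (hmemU' x).2 (hMU (Subgroup.mem_subgroupOf.1 hx))) hU'fin χ' (by
      intro x hx hxM
      exact hMχ _ _ (Subgroup.mem_subgroupOf.1 hxM))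
  have hInd : ∀ x : G, Ind U' (ext U' χ') x =
      ext U χ ((q0.out : G)⁻¹ * x * (q0.out : G) : G) + ext U χ ((q1.out : G)⁻¹ * x * (q1.out : G) : G) := by
    intro x
    unfold Ind
    rw [finsum_eq_sum_of_fintype, huniv, Finset.sum_pair hq01, hχ', hχ']
  have hq0 : ((q0.out : G) : Γ) ∈ U := by
    have h3 : ((q0.out : G) : G ⧸ U') = ((1 : G) : G ⧸ U') := Quotient.out_eq' q0
    have h4 := QuotientGroup.eq.1 h3
    rw [mul_one, hmemU'] at h4
    have := U.inv_mem h4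
    simpa using this
  have hq1 : ((q1.out : G) : Γ) ∉ U := by
    intro h
    have h3 : ((q1.out : G) : G ⧸ U') = ((⟨g, hgG⟩ : G) : G ⧸ U') := Quotient.out_eq' q1
    have h4 := QuotientGroup.eq.1 h3
    rw [hmemU'] at h4
    apply hgU
    have := U.mul_mem h h4
    simpa using this
  have hd : Module.finrank ℂ (Fin d → ℂ) = 2 := by
    have h3 := h2 1
    rw [map_one, hInd] at h3
    have h4 : ∀ y : G, ext U χ ((y⁻¹ * 1 * y : G) : Γ) = 1 := by
      intro y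
      have h5 : ((y⁻¹ * 1 * y : G) : Γ) = 1 := by simp
      rw [h5, ext_mem χ U.one_mem]
      have h6 : (⟨1, U.one_mem⟩ : U) = 1 := rfl
      rw [h6, map_one, Units.val_one]
    rw [h4, h4, LinearMap.trace_one] at h3
    have h7 : ((Module.finrank ℂ (Fin d → ℂ) : ℕ) : ℂ) = ((2 : ℕ) : ℂ) := by
      rw [h3]; norm_num
    exact_mod_cast h7
  have hval : ∀ s, s ∈ D.S → ∀ y : Γ, y ∈ G → ∀ hs : s ∈ Subgroup.closure D.S,
      ext U χ (y⁻¹ * s * y) = ((cjh (closure_normal D) y ε ⟨s, hs⟩ : ℂˣ) : ℂ) := by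
    intro s hs y hy hsC
    have h3 : y⁻¹ * s * y ∈ D.S := by
      have := D.conj s hs y⁻¹
      rwa [inv_inv] at this
    rw [ext_mem χ (hCU (hSC h3)), hχ _ (hSC h3)]
    rfl
  have h0 : ∀ s (h : s ∈ G), s ∈ D.S → LinearMap.trace ℂ (Fin d → ℂ) (ρ ⟨s, h⟩) = 0 := by
    intro s h hs
    rw [h2, hInd]
    have e0 : (((q0.out : G)⁻¹ * (⟨s, h⟩ : G) * (q0.out : G) : G) : Γ) =
        ((q0.out : G) : Γ)⁻¹ * s * ((q0.out : G) : Γ) := by simp
    have e1 : (((q1.out : G)⁻¹ * (⟨s, h⟩ : G) * (q1.out : G) : G) : Γ) =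
        ((q1.out : G) : Γ)⁻¹ * s * ((q1.out : G) : Γ) := by simp
    rw [e0, e1, hval s hs _ (q0.out : G).2 (hSC hs), hval s hs _ (q1.out : G).2 (hSC hs),
      (hU _).1 hq0]
    have h3 : cjh (closure_normal D) ((q1.out : G) : Γ) ε = ε * thC D θ := by
      rcases (mem_Gp D hθ ε).1 (q1.out : G).2 with h | h
      · exact absurd ((hU _).2 h) hq1
      · exact h
    rw [h3]
    have h4 : (ε * thC D θ) ⟨s, hSC hs⟩ = ε ⟨s, hSC hs⟩ * θ s := rfl
    rw [h4, hθ.2 s hs, Units.val_mul, Units.val_neg, Units.val_one]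
    ring
  have key := pdp_plane D hup hθ hM hMG (hSC.trans (fun x hx => hUG (hCU hx))) ρ
    (fun x hx hxM => h1 ⟨x, hx⟩ (Subgroup.mem_subgroupOf.2 hxM)) hd h0
  have hfin : Ind G (exz G fun u => LinearMap.trace ℂ (Fin d → ℂ) (ρ u)) = Ind U (ext U χ) := by
    have hmap : U'.map G.subtype = U := by
      rw [Subgroup.subgroupOf_map_subtype]
      exact inf_of_le_left hUG
    funext x
    have h3 := ind_trans_B4 (U := G) hGfin U' hU'fin (φ := ext U χ) (by rw [hmap]; exact cls_ext U χ) x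
    rw [hmap] at h3
    rw [h3]
    unfold Ind
    apply finsum_congr
    intro q
    unfold exz
    by_cases h : q.out⁻¹ * x * q.out ∈ G
    · rw [dif_pos h, dif_pos h]
      change LinearMap.trace ℂ (Fin d → ℂ) (ρ _) = _
      rw [h2]
      unfold Ind
      apply finsum_congr
      intro q'
      rw [hχ']
    · rw [dif_neg h, dif_neg h]
  rw [← hfin]
  exact key

end SB
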