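import Pool.Agent.Helper68.OP.Base
import Pool.Agent.Helper68.OP.A1

/-!
# OP-Y1: the term of a weight
-/

namespace SB

universe u v

variable {Γ : Type u} [Group Γ] {V : Type v} [AddCommGroup V] [Module ℂ V]

/-- OP-Y1. The term of a weight, up to `PD`. -/
theorem wt_term [FiniteDimensional ℂ V] (D : Sys Γ)
    (hup : ∀ M ∈ D.N, ∀ M' : Subgroup Γ, M'.Normal → M ≤ M' → M' ∈ D.N) {M U : Subgroup Γ} (hM : M ∈ D.N)
    (hMU : M ≤ U) (hS : D.S ⊆ U) (ρ : Γ →* (V →ₗ[ℂ] V)) (h : ∀ g ∈ M, ρ g = 1)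
    {ε : Subgroup.closure D.S →* ℂˣ} {χ : U →* ℂˣ} (ho : OpC D U χ) (h2 : ∀ u, χ u ^ 2 = 1)
    (hχ : ∀ c (hc : c ∈ Subgroup.closure D.S) (hU : c ∈ U), χ ⟨c, hU⟩ = ε ⟨c, hc⟩)
    (hst : Stb ρ U (Wt ρ (Subgroup.closure D.S) ε)) :
    Ind U (trx ρ U (Wt ρ (Subgroup.closure D.S) ε)) -
      Module.finrank ℂ (Wt ρ (Subgroup.closure D.S) ε) • Ind U (ext U χ) ∈ PD D := by
  obtain ⟨M', hM', hM'U, hχM⟩ := id ho
  have hf := tw_fam D hup (D.inf M hM M' hM') hS (inf_le_left.trans hMU) χ (fun g h hg => hχM g h hg.2)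
    (twRep ρ U _ hst χ) (1 : U →* (Wt ρ (Subgroup.closure D.S) ε →ₗ[ℂ] _))
    (twRep_triv D ρ h ε χ hχM h2 hχ hst) (fun _ _ _ => rfl) rfl
  have h1 := pd_of_fam D hf
  have h3 : (fun u => ((χ u : ℂˣ) : ℂ) * LinearMap.trace ℂ (Wt ρ (Subgroup.closure D.S) ε)
      ((1 : U →* (Wt ρ (Subgroup.closure D.S) ε →ₗ[ℂ] _)) u)) =
      fun u => ((χ u : ℂˣ) : ℂ) * (Module.finrank ℂ (Wt ρ (Subgroup.closure D.S) ε) : ℂ) := by
    funext u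
    rw [MonoidHom.one_apply, LinearMap.trace_one]
  have h4 : Ind U (trx ρ U (Wt ρ (Subgroup.closure D.S) ε)) -
      Module.finrank ℂ (Wt ρ (Subgroup.closure D.S) ε) • Ind U (ext U χ) =
      fun g => Ind U (exz U (fun u => ((χ u : ℂˣ) : ℂ) * LinearMap.trace ℂ (Wt ρ (Subgroup.closure D.S) ε)
        (twRep ρ U _ hst χ u))) g -
      Ind U (exz U (fun u => ((χ u : ℂˣ) : ℂ) * LinearMap.trace ℂ (Wt ρ (Subgroup.closure D.S) ε)
        ((1 : U →* (Wt ρ (Subgroup.closure D.S) ε →ₗ[ℂ] _)) u))) g := by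
    funext g
    rw [h3, exz_smul_ext, Ind_smul, trx_eq_exz ρ U _ hst χ h2, Pi.sub_apply, Pi.smul_apply, nsmul_eq_mul]
    push_cast
    rfl
  rw [h4]
  exact h1

end SB
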