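import Pool.Agent.Helper68.OP.Base
import Pool.Agent.Helper68.OP.A1
import Pool.Agent.Helper68.OP.A2
import Pool.Agent.Helper68.OP.W1
import Pool.Agent.Helper68.OP.X1
import Pool.Agent.Helper68.OP.X2
import Pool.Agent.Helper68.OP.Y1

/-!
# Project OP, module Y2: representations diagonalizable on the group generated by `S`
-/

namespace SB

universe u v

variable {Γ : Type u} [Group Γ] {V : Type v} [AddCommGroup V] [Module ℂ V]

private theorem finrank_wt_le_Y2 [FiniteDimensional ℂ V] (ρ : Γ →* (V →ₗ[ℂ] V)) {C : Subgroup Γ} (hC : C.Normal)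
    (g : Γ) (ε : C →* ℂˣ) : Module.finrank ℂ (Wt ρ C ε) ≤ Module.finrank ℂ (Wt ρ C (cjh hC g ε)) := by
  have hinj : Function.Injective ((ρ g).restrict (wt_move ρ hC g ε)) := by
    intro x y hxy
    have h1 : ρ g (x : V) = ρ g (y : V) := congrArg Subtype.val hxy
    have h2 : ∀ v : V, ρ g⁻¹ (ρ g v) = v := by
      intro v
      rw [← Module.End.mul_apply, ← map_mul, inv_mul_cancel, map_one]
      rfl
    apply Subtype.ext
    rw [← h2 x, h1, h2]
  exact LinearMap.finrank_le_finrank_of_injective hinj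

private theorem finrank_wt_cjh_Y2 [FiniteDimensional ℂ V] (ρ : Γ →* (V →ₗ[ℂ] V)) {C : Subgroup Γ} (hC : C.Normal)
    (g : Γ) (ε : C →* ℂˣ) : Module.finrank ℂ (Wt ρ C (cjh hC g ε)) = Module.finrank ℂ (Wt ρ C ε) := by
  apply le_antisymm _ (finrank_wt_le_Y2 ρ hC g ε)
  have h := finrank_wt_le_Y2 ρ hC g⁻¹ (cjh hC g ε)
  rwa [← cjh_mul, inv_mul_cancel, cjh_one] at h

/-- OP-Y2. A representation which is diagonalizable on the group generated by `S`, with equal multiplicities of the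
weights `ε` and `ε θ` if `ε` is not constant on `S`. -/
theorem lx_main [FiniteDimensional ℂ V] (D : Sys Γ)
    (hup : ∀ M ∈ D.N, ∀ M' : Subgroup Γ, M'.Normal → M ≤ M' → M' ∈ D.N) (hnt : NtU D) (hS : D.S.Nonempty)
    {θ : Γ →* ℂˣ} (hθ : Sgn D θ) {M : Subgroup Γ} (hM : M ∈ D.N) (ρ : Γ →* (V →ₗ[ℂ] V)) (h : ∀ g ∈ M, ρ g = 1)
    (s : ⨆ ε : Subgroup.closure D.S →* ℂˣ, Wt ρ (Subgroup.closure D.S) ε = ⊤)
    (hm : ∀ ε : Subgroup.closure D.S →* ℂˣ,
      (∃ (s s' : Subgroup.closure D.S), (s : Γ) ∈ D.S ∧ (s' : Γ) ∈ D.S ∧ ε s ≠ ε s') →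
      Module.finrank ℂ (Wt ρ (Subgroup.closure D.S) ε) =
        Module.finrank ℂ (Wt ρ (Subgroup.closure D.S) (ε * thC D θ))) :
    (fun g => LinearMap.trace ℂ V (ρ g)) ∈ PDp D θ := by
  obtain ⟨m, U, ε, χ, f, hj, ht, hf, hg⟩ := weights_tw D hnt hθ hM ρ h s
  have hC : (Subgroup.closure D.S).Normal := closure_normal D
  have hSU : ∀ j, D.S ⊆ U j := by
    intro j c hc
    exact ((hj j).1 c).2 (cjh_self hC (Subgroup.subset_closure hc) _)
  -- the class of the trace
  have hterm : ∀ j, Ind (U j) (trx ρ (U j) (Wt ρ (Subgroup.closure D.S) (ε j))) -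
      Module.finrank ℂ (Wt ρ (Subgroup.closure D.S) (ε j)) • Ind (U j) (ext (U j) (χ j)) ∈ PDp D θ := by
    intro j
    obtain ⟨-, h2, h3, h4, h5, h6⟩ := hj j
    exact (le_sup_left : PD D ≤ PDp D θ) (wt_term D hup hM h2 (hSU j) ρ h h3 h4 h5 h6)
  -- the involution
  have hself : ∀ j, f j = j → Ind (U j) (ext (U j) (χ j)) ∈ PDp D θ := by
    intro j hfj
    obtain ⟨g, hg'⟩ := hg j
    rw [hfj] at hg'
    obtain ⟨h1, -, h3, -, h5, -⟩ := hj j
    exact lx_self D hup hθ hS h1 h3 h5 hg'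
  have hpair : ∀ j, Module.finrank ℂ (Wt ρ (Subgroup.closure D.S) (ε j)) • Ind (U j) (ext (U j) (χ j)) +
      Module.finrank ℂ (Wt ρ (Subgroup.closure D.S) (ε (f j))) • Ind (U (f j)) (ext (U (f j)) (χ (f j))) ∈
        PDp D θ := by
    intro j
    obtain ⟨g, hg'⟩ := hg j
    obtain ⟨h1, -, h3, -, h5, -⟩ := hj j
    obtain ⟨k1, -, k3, -, k5, -⟩ := hj (f j)
    by_cases hc : ∀ (s s' : Subgroup.closure D.S), (s : Γ) ∈ D.S → (s' : Γ) ∈ D.S → ε j s = ε j s'
    · have hc' : ∀ (s s' : Subgroup.closure D.S), (s : Γ) ∈ D.S → (s' : Γ) ∈ D.S → ε (f j) s = ε (f j) s' := by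
        have key : ∀ s : Subgroup.closure D.S, (s : Γ) ∈ D.S → ∃ t : Subgroup.closure D.S, (t : Γ) ∈ D.S ∧
            ε (f j) s = - ε j t := by
          intro s hs
          have ht' : g * (s : Γ) * g⁻¹ ∈ D.S := D.conj s hs g
          have e1 : g⁻¹ * (g * (s : Γ) * g⁻¹) * g = s := by group
          refine ⟨⟨g * s * g⁻¹, Subgroup.subset_closure ht'⟩, ht', ?_⟩
          have e2 := DFunLike.congr_fun hg' ⟨g * s * g⁻¹, Subgroup.subset_closure ht'⟩
          rw [MonoidHom.mul_apply, thC_apply, hθ.2 _ ht', mul_neg_one] at e2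
          rw [← e2, cjh_apply _ _ _ _ (by change g⁻¹ * (g * (s : Γ) * g⁻¹) * g ∈ _; rw [e1]; exact s.2)]
          congr 1
          exact Subtype.ext e1.symm
        intro s s' hs hs'
        obtain ⟨t, ht1, ht2⟩ := key s hs
        obtain ⟨t', ht1', ht2'⟩ := key s' hs'
        rw [ht2, ht2', hc t t' ht1 ht1']
      exact add_mem (nsmul_mem (lx_const D hup hθ h1 h3 h5 hc) _) (nsmul_mem (lx_const D hup hθ k1 k3 k5 hc') _)
    · have hex : ∃ (s s' : Subgroup.closure D.S), (s : Γ) ∈ D.S ∧ (s' : Γ) ∈ D.S ∧ ε j s ≠ ε j s' := by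
        by_contra hcon
        apply hc
        intro s s' hs hs'
        by_contra hne
        exact hcon ⟨s, s', hs, hs', hne⟩
      have hd : Module.finrank ℂ (Wt ρ (Subgroup.closure D.S) (ε j)) =
          Module.finrank ℂ (Wt ρ (Subgroup.closure D.S) (ε (f j))) := by
        rw [hm (ε j) hex, ← hg', finrank_wt_cjh_Y2]
      rw [← hd, ← nsmul_add]
      exact nsmul_mem (lx_pair D hup hθ h1 k1 h3 k3 h5 k5 hg') _
  have hsum : ∑ j, Module.finrank ℂ (Wt ρ (Subgroup.closure D.S) (ε j)) • Ind (U j) (ext (U j) (χ j)) ∈ PDp D θ := by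
    rw [← QuotientAddGroup.eq_zero_iff]
    rw [← QuotientAddGroup.mk'_apply, map_sum]
    refine Finset.sum_involution (fun j _ => f j) ?_ ?_ (fun _ _ => Finset.mem_univ _) (fun j _ => hf j)
    · intro j _
      rw [← map_add, QuotientAddGroup.mk'_apply, QuotientAddGroup.eq_zero_iff]
      exact hpair j
    · intro j _ hne hfj
      apply hne
      rw [QuotientAddGroup.mk'_apply, QuotientAddGroup.eq_zero_iff]
      exact nsmul_mem (hself j hfj) _
  have hv : (fun g => LinearMap.trace ℂ V (ρ g)) =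
      ∑ j, (Ind (U j) (trx ρ (U j) (Wt ρ (Subgroup.closure D.S) (ε j))) -
        Module.finrank ℂ (Wt ρ (Subgroup.closure D.S) (ε j)) • Ind (U j) (ext (U j) (χ j))) +
      ∑ j, Module.finrank ℂ (Wt ρ (Subgroup.closure D.S) (ε j)) • Ind (U j) (ext (U j) (χ j)) := by
    rw [← Finset.sum_add_distrib]
    funext g
    rw [ht g, Finset.sum_apply]
    refine Finset.sum_congr rfl fun j _ => ?_
    rw [sub_add_cancel]
  rw [hv]
  exact add_mem (sum_mem fun j _ => hterm j) hsum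

end SB
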