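import Pool.Agent.Helper68.OP.A1
import Pool.Agent.Helper68.OP.A2
import Pool.Agent.Helper68.OP.B1
import Pool.Agent.Helper68.OP.C1
import Pool.Agent.Helper68.OP.C2
import Pool.Agent.Helper68.OP.Y2
import Pool.Agent.Helper21.RB.G

/-!
# OP-M: the generic theorem
-/

namespace SB

universe u v

variable {Γ : Type u} [Group Γ] {V : Type v} [AddCommGroup V] [Module ℂ V]

theorem trx_eq_res (ρ : Γ →* (V →ₗ[ℂ] V)) (U : Subgroup Γ) (X : Submodule ℂ V) (h : Stb ρ U X) :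
    trx ρ U X = exz U (fun u => LinearMap.trace ℂ X (resRep ρ U X h u)) := by
  classical
  funext g
  by_cases hg : g ∈ U
  · have h1 : g ∈ U ∧ ∀ v ∈ X, ρ g v ∈ X := ⟨hg, h g hg⟩
    rw [trx, dif_pos h1, exz, dif_pos hg]
    rfl
  · have h1 : ¬ (g ∈ U ∧ ∀ v ∈ X, ρ g v ∈ X) := fun h => hg h.1
    rw [trx, dif_neg h1, exz, dif_neg hg]

theorem resRep_one (ρ : Γ →* (V →ₗ[ℂ] V)) (U : Subgroup Γ) (X : Submodule ℂ V) (h : Stb ρ U X) {g : U}
    (hg : ρ g = 1) : resRep ρ U X h g = 1 := by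
  apply LinearMap.ext
  intro x
  apply Subtype.ext
  change ρ g (x : V) = x
  rw [hg]
  rfl

/-- Stability under `C ⊔ M` and under `C`, if `M` acts trivially. -/
theorem op_stb_sup {ρ : Γ →* (V →ₗ[ℂ] V)} {C M : Subgroup Γ} (h : ∀ g ∈ M, ρ g = 1) {X : Submodule ℂ V}
    (hX : Stb ρ C X) (hC : C.Normal) : Stb ρ (C ⊔ M) X := by
  intro g hg v hv
  obtain ⟨c, hc, m, hm, rfl⟩ := Subgroup.mem_sup_of_normal_left.1 hg
  rw [map_mul, h m hm, mul_one]
  exact hX c hc v hv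

theorem irr_subR {ρ : Γ →* (V →ₗ[ℂ] V)} {C M : Subgroup Γ} (hC : C.Normal) (h : ∀ g ∈ M, ρ g = 1)
    {Z : Submodule ℂ V} (hZ : ∀ g, ∀ v ∈ Z, ρ g v ∈ Z) {X : Submodule ℂ Z}
    (hX : IrrOn (subR ρ Z hZ) (C ⊔ M) X) : IrrOn ρ C (X.map Z.subtype) := by
  refine ⟨fun h0 => hX.1 ?_, ?_, fun Y hY hst => ?_⟩
  · apply Submodule.map_injective_of_injective Z.subtype_injective
    rw [h0, Submodule.map_bot]
  · rintro c hc _ ⟨x, hx, rfl⟩
    exact ⟨subR ρ Z hZ c x, hX.2.1 c (Subgroup.mem_sup_left hc) x hx, rfl⟩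
  · have h1 : Stb (subR ρ Z hZ) (C ⊔ M) (Y.comap Z.subtype) := by
      refine op_stb_sup (fun g hg => subR_one ρ Z hZ (h g hg)) ?_ hC
      intro c hc x hx
      exact hst c hc x hx
    have h2 : Y.comap Z.subtype ≤ X := by
      intro x hx
      obtain ⟨y, hy, hyx⟩ := hY hx
      have : y = x := Subtype.ext hyx
      rwa [← this]
    have h3 : (Y.comap Z.subtype).map Z.subtype = Y := by
      rw [Submodule.map_comap_eq, Submodule.range_subtype, inf_eq_right]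
      intro y hy
      obtain ⟨x, -, rfl⟩ := hY hy
      exact x.2
    rcases hX.2.2 _ h2 h1 with h4 | h4
    · left
      rw [← h3, h4, Submodule.map_bot]
    · right
      rw [← h3, h4]

theorem trace_map_sub {ρ : Γ →* (V →ₗ[ℂ] V)} {Z : Submodule ℂ V} (hZ : ∀ g, ∀ v ∈ Z, ρ g v ∈ Z)
    {X : Submodule ℂ Z} {g : Γ} (h : ∀ x ∈ X, subR ρ Z hZ g x ∈ X)
    (h' : ∀ v ∈ X.map Z.subtype, ρ g v ∈ X.map Z.subtype) :
    LinearMap.trace ℂ X ((subR ρ Z hZ g).restrict h) = LinearMap.trace ℂ (X.map Z.subtype) ((ρ g).restrict h') := by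
  let e : X ≃ₗ[ℂ] (X.map Z.subtype) := Submodule.equivMapOfInjective Z.subtype Z.subtype_injective X
  rw [← LinearMap.trace_conj' ((subR ρ Z hZ g).restrict h) e]
  congr 1
  apply LinearMap.ext
  intro y
  obtain ⟨x, rfl⟩ := e.surjective y
  apply Subtype.ext
  change ((e (((subR ρ Z hZ g).restrict h) (e.symm (e x))) : X.map Z.subtype) : V) = ρ g ((e x : X.map Z.subtype) : V)
  rw [e.symm_apply_apply]
  rfl

/-- The complement of the sum of the weight spaces. -/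
theorem pl_part [FiniteDimensional ℂ V] (D : Sys Γ)
    (hup : ∀ M ∈ D.N, ∀ M' : Subgroup Γ, M'.Normal → M ≤ M' → M' ∈ D.N)
    {θ : Γ →* ℂˣ} (hθ : Sgn D θ) {M : Subgroup Γ} (hM : M ∈ D.N) (ρ : Γ →* (V →ₗ[ℂ] V)) (h : ∀ g ∈ M, ρ g = 1)
    {Z : Submodule ℂ V} (hcompl : IsCompl (⨆ ε : Subgroup.closure D.S →* ℂˣ, Wt ρ _ ε) Z)
    (hZ : ∀ g, ∀ v ∈ Z, ρ g v ∈ Z)
    (hirr : ∀ X : Submodule ℂ V, IrrOn ρ (Subgroup.closure D.S) X →
      Module.finrank ℂ X = 1 ∨ (Module.finrank ℂ X = 2 ∧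
        ∀ s ∈ D.S, ∀ h : ∀ v ∈ X, ρ s v ∈ X, LinearMap.trace ℂ X ((ρ s).restrict h) = 0)) :
    (fun g => LinearMap.trace ℂ Z (subR ρ Z hZ g)) ∈ PDp D θ := by
  have hC : (Subgroup.closure D.S).Normal := closure_normal D
  have hMn : M.Normal := D.normal M hM
  have hMf : M.FiniteIndex := D.fin M hM
  obtain ⟨m, n, U, X, hX, hsum⟩ := rel_brauer (subR ρ Z hZ) hMn hMf (Subgroup.sup_normal _ _)
    (le_sup_right : M ≤ Subgroup.closure D.S ⊔ M) (fun g hg => subR_one ρ Z hZ (h g hg))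
  have e2 : (fun g => LinearMap.trace ℂ Z (subR ρ Z hZ g)) =
      ∑ i, n i • Ind (U i) (trx (subR ρ Z hZ) (U i) (X i)) := by
    funext g
    have h1 := hsum g
    beta_reduce at h1
    rw [h1, Finset.sum_apply]
    exact Finset.sum_congr rfl fun i _ => by rw [Pi.smul_apply, zsmul_eq_mul]
  rw [e2]
  refine AddSubgroup.sum_mem _ fun i _ => AddSubgroup.zsmul_mem _ ?_ _
  obtain ⟨hNU, hst, hirr0⟩ := hX i
  have hMU : M ≤ U i := le_sup_right.trans hNU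
  have hCU : Subgroup.closure D.S ≤ U i := le_sup_left.trans hNU
  have hirr' := irr_subR hC h hZ hirr0
  have hfr : Module.finrank ℂ ((X i).map Z.subtype) = Module.finrank ℂ (X i) :=
    (LinearEquiv.finrank_eq (Submodule.equivMapOfInjective Z.subtype Z.subtype_injective (X i))).symm
  have h2 : Module.finrank ℂ ((X i).map Z.subtype) = 2 ∧
    ∀ s ∈ D.S, ∀ h : ∀ v ∈ (X i).map Z.subtype, ρ s v ∈ (X i).map Z.subtype,
      LinearMap.trace ℂ ((X i).map Z.subtype) ((ρ s).restrict h) = 0 := by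
    rcases hirr _ hirr' with h1 | h2
    · exfalso
      obtain ⟨ε, hε⟩ := line_wt ρ _ hirr'.2.1 h1
      have h3 : (X i).map Z.subtype ≤ ⨆ ε : Subgroup.closure D.S →* ℂˣ, Wt ρ _ ε := hε.trans (le_iSup _ ε)
      have h4 : (X i).map Z.subtype ≤ Z := Submodule.map_subtype_le Z (X i)
      exact hirr'.1 (le_bot_iff.1 (hcompl.disjoint h3 h4))
    · exact h2
  rw [trx_eq_res _ _ _ hst]
  refine pdp_plane D hup hθ hM hMU (Subgroup.subset_closure.trans hCU) (resRep (subR ρ Z hZ) (U i) (X i) hst)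
    (fun g hg hgM => resRep_one _ _ _ _ (subR_one ρ Z hZ (h g hgM))) (by rw [← hfr]; exact h2.1) fun s hs hsS => ?_
  have h5 : ∀ x ∈ X i, subR ρ Z hZ s x ∈ X i := hst s hs
  have h6 : ∀ v ∈ (X i).map Z.subtype, ρ s v ∈ (X i).map Z.subtype := by
    rintro _ ⟨x, hx, rfl⟩
    exact ⟨subR ρ Z hZ s x, h5 x hx, rfl⟩
  have h7 := trace_map_sub hZ h5 h6
  rw [h2.2 s hsS h6] at h7
  exact h7

/-- OP-M. A representation which is, on the group generated by `S`, a direct sum of scalars and odd planes. -/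
theorem op_main [FiniteDimensional ℂ V] (D : Sys Γ)
    (hup : ∀ M ∈ D.N, ∀ M' : Subgroup Γ, M'.Normal → M ≤ M' → M' ∈ D.N) (hnt : NtU D) (hS : D.S.Nonempty)
    {θ : Γ →* ℂˣ} (hθ : Sgn D θ) {M : Subgroup Γ} (hM : M ∈ D.N) (ρ : Γ →* (V →ₗ[ℂ] V)) (h : ∀ g ∈ M, ρ g = 1)
    (ho : OddSum ρ D.S ⊤) : (fun g => LinearMap.trace ℂ V (ρ g)) ∈ PDp D θ := by
  have hC : (Subgroup.closure D.S).Normal := closure_normal D
  have hMn : M.Normal := D.normal M hM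
  have hMf : M.FiniteIndex := D.fin M hM
  have hY := wt_sup_stb ρ hC
  obtain ⟨Z, hZ', hcompl⟩ := exists_compl ρ hMn hMf h ⊤ (X := ⨆ ε : Subgroup.closure D.S →* ℂˣ, Wt ρ _ ε)
    (fun g _ => hY g)
  have hZ : ∀ g, ∀ v ∈ Z, ρ g v ∈ Z := fun g => hZ' g (Subgroup.mem_top g)
  have e1 : (fun g => LinearMap.trace ℂ V (ρ g)) = (fun g => LinearMap.trace ℂ _ (subR ρ _ hY g)) +
      fun g => LinearMap.trace ℂ Z (subR ρ Z hZ g) := funext fun g => trace_compl ρ hcompl hY hZ g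
  rw [e1]
  refine AddSubgroup.add_mem _ ?_ (pl_part D hup hθ hM ρ h hcompl hZ fun X hX => odd_irr D ρ ho hX)
  obtain ⟨s1, s2⟩ := wt_subR_top ρ hY
  refine lx_main D hup hnt hS hθ hM (subR ρ _ hY) (fun g hg => subR_one ρ _ hY (h g hg)) s1 fun ε hε => ?_
  rw [s2, s2]
  obtain ⟨m, X, hi, hs, hX⟩ := ho
  have hst : ∀ i, Stb ρ (Subgroup.closure D.S) (X i) := fun i => stb_closure D (hX i).stable
  rw [wt_split ρ _ X hi hs hst, wt_split ρ _ X hi hs hst]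
  exact Finset.sum_congr rfl fun i _ => piece_mult D hθ.2 hM ρ h (hX i) ε hε

end SB
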