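import Pool.Agent.Helper68.OP.M

/-!
# OP-M2: sums of stable lines and odd planes
-/

namespace SB

universe u v

variable {Γ : Type u} [Group Γ] {V : Type v} [AddCommGroup V] [Module ℂ V]

/-- A vector which is in all the sums with one summand omitted is zero. -/
theorem bot_of_omit {m : ℕ} {Y : Fin m → Submodule ℂ V} (hi : iSupIndep Y) {X : Submodule ℂ V}
    (hX : X ≤ ⨆ i, Y i) (h : ∀ i, X ≤ ⨆ (j) (_ : j ≠ i), Y j) : X = ⊥ := by
  classical
  have key : ∀ s : Finset (Fin m), X ≤ ⨆ (j) (_ : j ∉ s), Y j := by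
    intro s
    induction s using Finset.induction_on with
    | empty => simpa using hX
    | insert a s ha ih =>
      have h1 : (⨆ (j) (_ : j ∉ s), Y j) ≤ (⨆ (j) (_ : j ∉ insert a s), Y j) ⊔ Y a := by
        refine iSup₂_le fun j hj => ?_
        by_cases hja : j = a
        · rw [hja]; exact le_sup_right
        · refine le_trans ?_ le_sup_left
          refine le_iSup₂_of_le j ?_ le_rfl
          rw [Finset.mem_insert, not_or]
          exact ⟨hja, hj⟩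
      have h2 : (⨆ (j) (_ : j ∉ insert a s), Y j) ≤ ⨆ (j) (_ : j ≠ a), Y j := by
        refine iSup₂_le fun j hj => ?_
        refine le_iSup₂_of_le j ?_ le_rfl
        rw [Finset.mem_insert, not_or] at hj
        exact hj.1
      have h3 : ((⨆ (j) (_ : j ∉ insert a s), Y j) ⊔ Y a) ⊓ (⨆ (j) (_ : j ≠ a), Y j) =
          (⨆ (j) (_ : j ∉ insert a s), Y j) ⊔ (Y a ⊓ ⨆ (j) (_ : j ≠ a), Y j) :=
        (sup_inf_assoc_of_le (Y a) h2)
      have h4 : Y a ⊓ (⨆ (j) (_ : j ≠ a), Y j) = ⊥ := (hi a).eq_bot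
      rw [h4, sup_bot_eq] at h3
      rw [← h3]
      exact le_inf (ih.trans h1) (h a)
  have h5 := key Finset.univ
  simpa using h5

/-- An irreducible subspace embeds in a summand. -/
theorem irr_embed [FiniteDimensional ℂ V] (D : Sys Γ) (ρ : Γ →* (V →ₗ[ℂ] V)) {m : ℕ} {Y : Fin m → Submodule ℂ V}
    (hi : iSupIndep Y) (hs : ⨆ i, Y i = ⊤) (hY : ∀ i, ∀ s ∈ D.S, ∀ v ∈ Y i, ρ s v ∈ Y i)
    {X : Submodule ℂ V} (hX : IrrOn ρ (Subgroup.closure D.S) X) :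
    ∃ (i : Fin m) (f : X →ₗ[ℂ] Y i), Function.Injective f ∧
      ∀ s ∈ D.S, ∀ x x' : X, (x' : V) = ρ s x → ((f x' : Y i) : V) = ρ s (f x) := by
  classical
  have hY' : ∀ i, Stb ρ (Subgroup.closure D.S) (Y i) := fun i => stb_closure D (hY i)
  have hZ : ∀ i, Stb ρ (Subgroup.closure D.S) (⨆ (j) (_ : j ≠ i), Y j) := by
    intro i g hg
    have : (⨆ (j) (_ : j ≠ i), Y j) ≤ (⨆ (j) (_ : j ≠ i), Y j).comap (ρ g) := by
      refine iSup₂_le fun j hj v hv => ?_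
      exact Submodule.mem_iSup_of_mem j (Submodule.mem_iSup_of_mem hj (hY' j g hg v hv))
    exact fun v hv => this hv
  obtain ⟨i, h1⟩ : ∃ i, ¬ X ≤ ⨆ (j) (_ : j ≠ i), Y j := by
    by_contra hcon
    push Not at hcon
    exact hX.1 (bot_of_omit hi (by rw [hs]; exact le_top) hcon)
  have h2 : X ⊓ (⨆ (j) (_ : j ≠ i), Y j) = ⊥ := by
    rcases hX.2.2 (X ⊓ (⨆ (j) (_ : j ≠ i), Y j)) inf_le_left
      (fun g hg v hv => ⟨hX.2.1 g hg v hv.1, hZ i g hg v hv.2⟩) with h | h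
    · exact h
    · exact absurd (by rw [← h]; exact inf_le_right) h1
  have hc : IsCompl (Y i) (⨆ (j) (_ : j ≠ i), Y j) := by
    refine ⟨hi i, codisjoint_iff.2 ?_⟩
    rw [eq_top_iff, ← hs]
    refine iSup_le fun j => ?_
    by_cases hj : j = i
    · rw [hj]; exact le_sup_left
    · exact le_trans (le_iSup₂_of_le j hj le_rfl) le_sup_right
  let π : V →ₗ[ℂ] Y i := Submodule.projectionOnto (Y i) (⨆ (j) (_ : j ≠ i), Y j) hc
  have hπ : ∀ v : V, ∃ z ∈ (⨆ (j) (_ : j ≠ i), Y j), v = ((π v : Y i) : V) + z := by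
    intro v
    refine ⟨v - ((π v : Y i) : V), ?_, by abel⟩
    have h3 : π (v - ((π v : Y i) : V)) = 0 := by
      rw [map_sub]
      have : π ((π v : Y i) : V) = π v := Submodule.projectionOnto_apply_left hc (π v)
      rw [this, sub_self]
    exact (Submodule.projectionOnto_apply_eq_zero_iff hc).1 h3
  refine ⟨i, π.comp X.subtype, ?_, ?_⟩
  · rw [← LinearMap.ker_eq_bot, eq_bot_iff]
    intro x hx
    have h3 : (x : V) ∈ (⨆ (j) (_ : j ≠ i), Y j) :=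
      (Submodule.projectionOnto_apply_eq_zero_iff hc).1 (LinearMap.mem_ker.1 hx)
    have h4 : (x : V) ∈ X ⊓ (⨆ (j) (_ : j ≠ i), Y j) := ⟨x.2, h3⟩
    rw [h2, Submodule.mem_bot] at h4
    exact (Submodule.mem_bot ℂ).2 (Subtype.ext h4)
  · intro s hsS x x' hxx
    obtain ⟨z, hz, he⟩ := hπ x
    have hsC : s ∈ Subgroup.closure D.S := Subgroup.subset_closure hsS
    have h3 : (x' : V) = ρ s ((π x : Y i) : V) + ρ s z := by
      rw [hxx, ← map_add, ← he]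
    have h4 : π (ρ s ((π x : Y i) : V)) = ⟨ρ s ((π x : Y i) : V), hY i s hsS _ (π x).2⟩ :=
      Submodule.projectionOnto_apply_left hc ⟨ρ s ((π x : Y i) : V), hY i s hsS _ (π x).2⟩
    have h5 : π (ρ s z) = 0 := (Submodule.projectionOnto_apply_eq_zero_iff hc).2 (hZ i s hsC z hz)
    change ((π (x' : V) : Y i) : V) = ρ s ((π (x : V) : Y i) : V)
    rw [h3, map_add, h4, h5, add_zero]

/-- The subspace `Y` is a stable line, or a stable plane on which the elements of `S` have trace zero. -/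
def LinePiece (ρ : Γ →* (V →ₗ[ℂ] V)) (S : Set Γ) (Y : Submodule ℂ V) : Prop :=
  ∃ h : ∀ s ∈ S, ∀ v ∈ Y, ρ s v ∈ Y, Module.finrank ℂ Y = 1 ∨
    (Module.finrank ℂ Y = 2 ∧ ∀ s (hs : s ∈ S), LinearMap.trace ℂ Y ((ρ s).restrict (h s hs)) = 0)

/-- The irreducible subspaces of a direct sum of stable lines and odd planes. -/
theorem line_irr [FiniteDimensional ℂ V] (D : Sys Γ) (ρ : Γ →* (V →ₗ[ℂ] V)) {m : ℕ} {Y : Fin m → Submodule ℂ V}
    (hi : iSupIndep Y) (hs : ⨆ i, Y i = ⊤) (hY : ∀ i, LinePiece ρ D.S (Y i))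
    {X : Submodule ℂ V} (hX : IrrOn ρ (Subgroup.closure D.S) X) :
    Module.finrank ℂ X = 1 ∨ (Module.finrank ℂ X = 2 ∧
      ∀ s ∈ D.S, ∀ h : ∀ v ∈ X, ρ s v ∈ X, LinearMap.trace ℂ X ((ρ s).restrict h) = 0) := by
  obtain ⟨i, f, hf, hfe⟩ := irr_embed D ρ hi hs (fun i => (hY i).1) hX
  have h1 : Module.finrank ℂ X ≤ Module.finrank ℂ (Y i) := LinearMap.finrank_le_finrank_of_injective hf
  have h0 : 0 < Module.finrank ℂ X := by
    rw [Module.finrank_pos_iff, Submodule.nontrivial_iff_ne_bot]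
    exact hX.1
  obtain ⟨hst, h2 | ⟨h2, h3⟩⟩ := hY i
  · left; omega
  · by_cases h4 : Module.finrank ℂ X = 1
    · exact Or.inl h4
    · right
      have h5 : Module.finrank ℂ X = 2 := by omega
      refine ⟨h5, fun s hsS h => ?_⟩
      have h6 : Function.Surjective f := by
        rw [← LinearMap.range_eq_top]
        apply Submodule.eq_top_of_finrank_eq
        rw [LinearMap.finrank_range_of_inj hf, h5, h2]
      let e : X ≃ₗ[ℂ] Y i := LinearEquiv.ofBijective f ⟨hf, h6⟩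
      rw [← LinearMap.trace_conj' ((ρ s).restrict h) e, ← h3 s hsS]
      congr 1
      apply LinearMap.ext
      intro y
      obtain ⟨x, rfl⟩ := e.surjective y
      apply Subtype.ext
      change ((e (((ρ s).restrict h) (e.symm (e x))) : Y i) : V) = ρ s ((e x : Y i) : V)
      rw [e.symm_apply_apply]
      exact hfe s hsS x (((ρ s).restrict h) x) rfl

/-- OP-M2. A direct sum of stable lines and odd planes. -/
theorem line_main [FiniteDimensional ℂ V] (D : Sys Γ)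
    (hup : ∀ M ∈ D.N, ∀ M' : Subgroup Γ, M'.Normal → M ≤ M' → M' ∈ D.N) (hnt : NtU D)
    {θ : Γ →* ℂˣ} (hθ : Sgn D θ) {M : Subgroup Γ} (hM : M ∈ D.N) (ρ : Γ →* (V →ₗ[ℂ] V)) (h : ∀ g ∈ M, ρ g = 1)
    {m : ℕ} {Y : Fin m → Submodule ℂ V} (hi : iSupIndep Y) (hs : ⨆ i, Y i = ⊤) (hY : ∀ i, LinePiece ρ D.S (Y i)) :
    ∃ w : Γ → ℂ, Mon D (fun U => D.S ⊆ U) w ∧ (fun g => LinearMap.trace ℂ V (ρ g) - w g) ∈ PD D := by
  have hC : (Subgroup.closure D.S).Normal := closure_normal D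
  have hMn : M.Normal := D.normal M hM
  have hMf : M.FiniteIndex := D.fin M hM
  have hY' := wt_sup_stb ρ hC
  obtain ⟨Z, hZ', hcompl⟩ := exists_compl ρ hMn hMf h ⊤ (X := ⨆ ε : Subgroup.closure D.S →* ℂˣ, Wt ρ _ ε)
    (fun g _ => hY' g)
  have hZ : ∀ g, ∀ v ∈ Z, ρ g v ∈ Z := fun g => hZ' g (Subgroup.mem_top g)
  obtain ⟨s1, s2⟩ := wt_subR_top ρ hY'
  have hmon := comm_mon D hup hnt hM (subR ρ _ hY') (fun g hg => subR_one ρ _ hY' (h g hg)) s1
  have hpl : (fun g => LinearMap.trace ℂ Z (subR ρ Z hZ g)) ∈ PDp D θ :=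
    pl_part D hup hθ hM ρ h hcompl hZ (fun X hX => line_irr D ρ hi hs hY hX)
  obtain ⟨a, b, hab⟩ := (mem_pdp D θ).1 hpl
  obtain ⟨Mθ, hMθ, hθ1⟩ := hθ.1
  have hop1 : OpC D ⊤ (1 : (⊤ : Subgroup Γ) →* ℂˣ) := ⟨M, hM, le_top, fun _ _ _ => rfl⟩
  have hopθ : OpC D ⊤ (resc ⊤ θ) := opc_resc hM le_top θ hMθ hθ1
  have htop : ∀ (x : (⊤ : Subgroup Γ) →* ℂˣ) (g : Γ), Ind ⊤ (ext ⊤ x) g = ((x ⟨g, Subgroup.mem_top g⟩ : ℂˣ) : ℂ) := by
    intro x g
    unfold Ind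
    have hu : Unique (Γ ⧸ (⊤ : Subgroup Γ)) := by
      have : Subsingleton (Γ ⧸ (⊤ : Subgroup Γ)) := QuotientGroup.subsingleton_quotient_top
      exact Unique.mk' _
    have e3 : ∀ o : Γ, ((x ⟨o⁻¹ * g * o, Subgroup.mem_top _⟩ : ℂˣ) : ℂ) = ((x ⟨g, Subgroup.mem_top g⟩ : ℂˣ) : ℂ) := by
      intro o
      have e : (⟨o⁻¹ * g * o, Subgroup.mem_top _⟩ : (⊤ : Subgroup Γ)) =
          ⟨o, Subgroup.mem_top _⟩⁻¹ * ⟨g, Subgroup.mem_top g⟩ * ⟨o, Subgroup.mem_top _⟩ := rfl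
      rw [e, map_mul, map_mul, map_inv, mul_comm, mul_inv_cancel_left]
    rw [finsum_unique, ext_mem _ (Subgroup.mem_top _)]
    exact e3 _
  have hm1 : Mon D (fun U => D.S ⊆ U) (fun g => (a : ℂ) * Ind ⊤ (ext ⊤ 1) g + (b : ℂ) * Ind ⊤ (ext ⊤ (resc ⊤ θ)) g) :=
    mon_add D _ (mon_zmul D _ a (mon_single D _ (Set.subset_univ _) hop1))
      (mon_zmul D _ b (mon_single D _ (Set.subset_univ _) hopθ))
  refine ⟨_, mon_add D _ hmon hm1, ?_⟩
  have e2 : (fun g => LinearMap.trace ℂ V (ρ g) - (LinearMap.trace ℂ _ (subR ρ _ hY' g) +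
      ((a : ℂ) * Ind ⊤ (ext ⊤ 1) g + (b : ℂ) * Ind ⊤ (ext ⊤ (resc ⊤ θ)) g))) =
      fun g => LinearMap.trace ℂ Z (subR ρ Z hZ g) - a - b * ((θ g : ℂˣ) : ℂ) := by
    funext g
    rw [trace_compl ρ hcompl hY' hZ g, htop, htop]
    change _ - (_ + (_ * 1 + _ * ((θ g : ℂˣ) : ℂ))) = _
    ring
  rw [e2]
  exact hab

end SB
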