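import Pool.Agent.Helper21.CC.Base
import Pool.Agent.Helper21.SBF.Stmt

/-!
# Project OP: definitions used in the statement of the theorem on odd planes
-/

namespace SB

variable {Γ : Type*} [Group Γ]

/-- The vector `ρ(g) v`. -/
noncomputable def act {d : ℕ} (ρ : Rp Γ d) (g : Γ) (v : Fin d → ℂ) : Fin d → ℂ :=
  (ρ g : Matrix (Fin d) (Fin d) ℂ).mulVec v

/-- `ℂ^d` is a direct sum of subspaces with property `P`. -/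
def DirSum {d : ℕ} (P : Submodule ℂ (Fin d → ℂ) → Prop) : Prop :=
  ∃ (m : ℕ) (Y : Fin m → Submodule ℂ (Fin d → ℂ)), iSupIndep Y ∧ ⨆ i, Y i = ⊤ ∧ ∀ i, P (Y i)

/-- For every `s ∈ S`, all conjugates of `s` act on `Y` as `1`, or all of them act on `Y` as `-1`. -/
def SignAt (S : Set Γ) {d : ℕ} (ρ : Rp Γ d) (Y : Submodule ℂ (Fin d → ℂ)) : Prop :=
  ∀ s ∈ S, (∀ g, ∀ v ∈ Y, act ρ (g * s * g⁻¹) v = v) ∨ ∀ g, ∀ v ∈ Y, act ρ (g * s * g⁻¹) v = -v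

/-- `Y` is a line, stable under the `ρ s`, `s ∈ S`. -/
def LineOn (S : Set Γ) {d : ℕ} (ρ : Rp Γ d) (Y : Submodule ℂ (Fin d → ℂ)) : Prop :=
  Module.finrank ℂ Y = 1 ∧ ∀ s ∈ S, ∀ v ∈ Y, act ρ s v ∈ Y

/-- `Y` is a plane, and every `ρ s`, `s ∈ S`, has on `Y` the eigenvalues `1` and `-1`. -/
def OddPlane (S : Set Γ) {d : ℕ} (ρ : Rp Γ d) (Y : Submodule ℂ (Fin d → ℂ)) : Prop :=
  Module.finrank ℂ Y = 2 ∧ ∀ s ∈ S, (∃ v ∈ Y, v ≠ 0 ∧ act ρ s v = v) ∧ ∃ v ∈ Y, v ≠ 0 ∧ act ρ s v = -v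

/-- `ℂ^d` is a direct sum of subspaces as in `SignAt` and `OddPlane`. -/
def OddSums (S : Set Γ) {d : ℕ} (ρ : Rp Γ d) : Prop := DirSum fun Y => SignAt S ρ Y ∨ OddPlane S ρ Y

/-- `ℂ^d` is a direct sum of subspaces as in `LineOn` and `OddPlane`. -/
def LineSums (S : Set Γ) {d : ℕ} (ρ : Rp Γ d) : Prop := DirSum fun Y => LineOn S ρ Y ∨ OddPlane S ρ Y

/-- The character induced from the representation `ψ` of the subgroup `U`. -/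
noncomputable def IndRep (U : Subgroup Γ) {e : ℕ} (ψ : Rp U e) : Γ → ℂ := Ind U (exz U (chr ψ))

/-- `ψ` is a representation of degree `e` of a subgroup `U` containing `S` and `N`, trivial on `N`; and either
`e = 1`, or `e = 2` and the trace of `ψ` is zero on `S`. -/
def OddRep (S : Set Γ) (N U : Subgroup Γ) (e : ℕ) (ψ : Rp U e) : Prop :=
  S ⊆ U ∧ N ≤ U ∧ (∀ g (h : g ∈ U), g ∈ N → ψ ⟨g, h⟩ = 1) ∧
    (e = 1 ∨ (e = 2 ∧ ∀ s (h : s ∈ U), s ∈ S → chr ψ ⟨s, h⟩ = 0))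

/-- `v` is a finite sum `∑ nᵢ Ind ψᵢ` with integers `nᵢ` and `ψᵢ` as in `OddRep`. -/
def OddComb (S : Set Γ) (N : Subgroup Γ) (v : Γ → ℂ) : Prop :=
  ∃ (m : ℕ) (n : Fin m → ℤ) (U : Fin m → Subgroup Γ) (e : Fin m → ℕ) (ψ : ∀ i, Rp (U i) (e i)),
    (∀ i, OddRep S N (U i) (e i) (ψ i)) ∧ ∀ g, v g = ∑ i, (n i : ℂ) * IndRep (U i) (ψ i) g

/-- `ψ, ψ'` are representations of degree `e` of a subgroup `U` containing `S` and `N`, trivial on `N`; and either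
`e = 1` and `ψ = ψ'` on `S`, or `e = 2` and the traces of `ψ` and `ψ'` are zero on `S`. -/
def PlanePair (S : Set Γ) (N U : Subgroup Γ) (e : ℕ) (ψ ψ' : Rp U e) : Prop :=
  S ⊆ U ∧ N ≤ U ∧ (∀ g (h : g ∈ U), g ∈ N → ψ ⟨g, h⟩ = 1 ∧ ψ' ⟨g, h⟩ = 1) ∧
    ((e = 1 ∧ ∀ s (h : s ∈ U), s ∈ S → ψ ⟨s, h⟩ = ψ' ⟨s, h⟩) ∨
      (e = 2 ∧ ∀ s (h : s ∈ U), s ∈ S → chr ψ ⟨s, h⟩ = 0 ∧ chr ψ' ⟨s, h⟩ = 0))

/-- `v` is a finite sum `∑ nᵢ (Ind ψᵢ - Ind ψᵢ')` with integers `nᵢ` and `ψᵢ, ψᵢ'` as in `PlanePair`. -/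
def PlaneComb (S : Set Γ) (N : Subgroup Γ) (v : Γ → ℂ) : Prop :=
  ∃ (m : ℕ) (n : Fin m → ℤ) (U : Fin m → Subgroup Γ) (e : Fin m → ℕ) (ψ ψ' : ∀ i, Rp (U i) (e i)),
    (∀ i, PlanePair S N (U i) (e i) (ψ i) (ψ' i)) ∧
    ∀ g, v g = ∑ i, (n i : ℂ) * (IndRep (U i) (ψ i) g - IndRep (U i) (ψ' i) g)

/-- `v - ∑ nᵢ θᵢ` is as in `PlaneComb`, for some integers `nᵢ` and linear characters `θᵢ` of the whole group, trivial
on `N`. -/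
def LinComb (S : Set Γ) (N : Subgroup Γ) (v : Γ → ℂ) : Prop :=
  ∃ (m : ℕ) (n : Fin m → ℤ) (θ : Fin m → (Γ →* ℂˣ)), (∀ i, ∀ g ∈ N, θ i g = 1) ∧
    PlaneComb S N (fun g => v g - ∑ i, (n i : ℂ) * ((θ i g : ℂˣ) : ℂ))

/-- `U` is contained with index one or two in a subgroup which contains `S`. -/
def QuadIn (S : Set Γ) (U : Subgroup Γ) : Prop := ∃ W : Subgroup Γ, S ⊆ W ∧ U ≤ W ∧ (U = W ∨ U.relIndex W = 2)

/-- `v` is a finite sum `∑ nᵢ (Ind χᵢ - Ind χᵢ')` with integers `nᵢ`, and `χᵢ, χᵢ'` linear characters of subgroups `Uᵢ`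
as in `QuadIn`, trivial on `N` and equal at all elements of `S` in `Uᵢ`. -/
def SigQuad (S : Set Γ) (N : Subgroup Γ) (v : Γ → ℂ) : Prop :=
  ∃ (m : ℕ) (n : Fin m → ℤ) (U : Fin m → Subgroup Γ) (χ χ' : ∀ i, U i →* ℂˣ),
    (∀ i, QuadIn S (U i) ∧ SigPair S N (U i) (χ i) (χ' i)) ∧
    ∀ g, v g = ∑ i, (n i : ℂ) * (IndChr (U i) (χ i) g - IndChr (U i) (χ' i) g)

/-- `w` is a sum of two functions as in `SigQuad` and `PlaneComb`. -/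
def QuadComb (S : Set Γ) (N : Subgroup Γ) (w : Γ → ℂ) : Prop :=
  ∃ v v' : Γ → ℂ, SigQuad S N v ∧ PlaneComb S N v' ∧ ∀ g, w g = v g + v' g

/-- `S` is empty or a conjugacy class. -/
def OneClass (S : Set Γ) : Prop := ∀ s ∈ S, ∀ s' ∈ S, ∃ g, s' = g * s * g⁻¹

end SB
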